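import Pool.Agent.H386Z.Lift

/-! The algebraic main theorem. -/

set_option autoImplicit false

open Pool.Agent.H386Z.Chi Pool.Agent.H386Z.Core Pool.Agent.H386Z.Util
open Pool.Agent.H386Z.DRing Pool.Agent.H386Z.Split Pool.Agent.H386Z.Lift Pool.Agent.RK
open Pool.Agent.RK.OreRest (ore_left ore_right)
open Pool.Agent.RK.Nz (nz_mul nz_iff nz_star)
open scoped TensorProduct
open MulOpposite

namespace Pool.Agent.H386Z.Alg

/-- the map induced on `Aᵐᵒᵖ ⊗ A` -/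
noncomputable def tm {A B : Type} [Ring A] [Algebra ℂ A] [Ring B] [Algebra ℂ B] (e : A →ₐ[ℂ] B) :
    Aᵐᵒᵖ ⊗[ℂ] A →ₐ[ℂ] Bᵐᵒᵖ ⊗[ℂ] B := Algebra.TensorProduct.map (AlgHom.op e) e

theorem tm_tmul {A B : Type} [Ring A] [Algebra ℂ A] [Ring B] [Algebra ℂ B] (e : A →ₐ[ℂ] B)
    (a : Aᵐᵒᵖ) (b : A) : tm e (a ⊗ₜ[ℂ] b) = op (e a.unop) ⊗ₜ[ℂ] e b := rfl

theorem tm_inj {A B : Type} [Ring A] [Algebra ℂ A] [Ring B] [Algebra ℂ B] (e : A →ₐ[ℂ] B)
    (he : Function.Injective e) : Function.Injective (tm e) := by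
  have h1 : Function.Injective (AlgHom.op e) := by
    intro a b h
    apply unop_injective
    apply he
    exact op_injective h
  exact TensorProduct.map_injective_of_flat_flat (AlgHom.op e).toLinearMap e.toLinearMap h1 he

theorem tm_dl {A B : Type} [Ring A] [Algebra ℂ A] [Ring B] [Algebra ℂ B] (e : A →ₐ[ℂ] B)
    (a : A) : tm e (dl a) = dl (e a) := by
  unfold dl
  rw [map_sub, tm_tmul, tm_tmul]
  simp

theorem jac {B : Type} [Ring B] [Algebra ℂ B] {n : ℕ} (y : Fin n → B)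
    (p : FreeAlgebra ℂ (Fin n)) :
    ∃ J : Fin n → Bᵐᵒᵖ ⊗[ℂ] B, dl (FreeAlgebra.lift ℂ y p) = ∑ i, J i * dl (y i) := by
  induction p using FreeAlgebra.induction with
  | grade0 c =>
    refine ⟨0, ?_⟩
    rw [AlgHom.commutes, dl, Algebra.algebraMap_eq_smul_one, op_smul, ← TensorProduct.smul_tmul',
      TensorProduct.tmul_smul, op_one, sub_self]
    simp
  | grade1 i =>
    refine ⟨Pi.single i 1, ?_⟩
    rw [FreeAlgebra.lift_ι_apply, Finset.sum_eq_single i]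
    · simp
    · intro b _ hb
      simp [hb]
    · intro h
      exact absurd (Finset.mem_univ i) h
  | mul a b ha hb =>
    obtain ⟨Ja, ha⟩ := ha
    obtain ⟨Jb, hb⟩ := hb
    refine ⟨fun i => (op (FreeAlgebra.lift ℂ y b) ⊗ₜ[ℂ] 1) * Ja i +
      (1 ⊗ₜ[ℂ] FreeAlgebra.lift ℂ y a) * Jb i, ?_⟩
    simp only [add_mul, Finset.sum_add_distrib, mul_assoc, ← Finset.mul_sum, ← ha, ← hb]
    rw [map_mul]
    unfold dl
    simp only [mul_sub, Algebra.TensorProduct.tmul_mul_tmul, mul_one, one_mul, op_mul]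
    abel
  | add a b ha hb =>
    obtain ⟨Ja, ha⟩ := ha
    obtain ⟨Jb, hb⟩ := hb
    refine ⟨fun i => Ja i + Jb i, ?_⟩
    simp only [add_mul, Finset.sum_add_distrib, ← ha, ← hb]
    rw [map_add]
    unfold dl
    rw [op_add, TensorProduct.add_tmul, TensorProduct.tmul_add]
    abel

theorem exists_fun {D U : Type} [DivisionRing D] [Algebra ℂ D] [Ring U] [Algebra ℂ U]
    (e : D →ₐ[ℂ] U) (u : U) (hu : u ≠ 0) :
    ∃ ψ : U →ₗ[ℂ] D, (∀ x d, ψ (x * e d) = ψ x * d) ∧ ψ u ≠ 0 := by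
  obtain ⟨l, h1, _, h3⟩ := exists_rfun (D := D) (X := U)
    (fun d => AddMonoidHom.mulRight (e d))
    (fun x => by simp) (fun d d' x => by simp [mul_assoc]) (fun d d' x => by simp [mul_add])
    ⊥ (fun d x hx => by
      rw [AddSubgroup.mem_bot] at hx ⊢
      simp [hx]) u (by rwa [AddSubgroup.mem_bot])
  refine ⟨{ toFun := l, map_add' := l.map_add, map_smul' := ?_ }, h1, h3⟩
  intro c x
  have h4 : l (x * e (algebraMap ℂ D c)) = l x * algebraMap ℂ D c := h1 x (algebraMap ℂ D c)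
  rw [AlgHom.commutes, Algebra.algebraMap_eq_smul_one, mul_smul_comm, mul_one,
    Algebra.algebraMap_eq_smul_one, mul_smul_comm, mul_one] at h4
  exact h4

theorem descent {D U : Type} [DivisionRing D] [Algebra ℂ D] [Ring U] [Algebra ℂ U]
    (e : D →ₐ[ℂ] U) (x : Uᵐᵒᵖ ⊗[ℂ] U) (hx : x ≠ 0) :
    ∃ Φ : Uᵐᵒᵖ ⊗[ℂ] U →ₗ[ℂ] Dᵐᵒᵖ ⊗[ℂ] D, (∀ z w, Φ (z * tm e w) = Φ z * w) ∧ Φ x ≠ 0 := by
  by_contra hne
  push Not at hne
  apply hx
  refine sep_right' (S := {φ : Uᵐᵒᵖ →ₗ[ℂ] Dᵐᵒᵖ // ∀ x d, φ (x * AlgHom.op e d) = φ x * d}) x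
    (fun φ => φ.1) ?_ ?_
  · intro φ
    refine sep_left' (S := {ψ : U →ₗ[ℂ] D // ∀ x d, ψ (x * e d) = ψ x * d}) _ (fun ψ => ψ.1) ?_ ?_
    · intro ψ
      rw [← LinearMap.comp_apply, LinearMap.lTensor_comp_rTensor]
      apply hne
      intro z w
      induction z using TensorProduct.induction_on with
      | zero => simp
      | add a b ha hb => rw [add_mul, map_add, map_add, ha, hb, add_mul]
      | tmul a b =>
        induction w using TensorProduct.induction_on with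
        | zero => simp
        | add c d hc hd => rw [map_add, mul_add, map_add, hc, hd, mul_add]
        | tmul c d =>
          rw [tm_tmul, Algebra.TensorProduct.tmul_mul_tmul, TensorProduct.map_tmul,
            TensorProduct.map_tmul, Algebra.TensorProduct.tmul_mul_tmul, ψ.2, ← φ.2]
          rfl
    · intro u hu
      by_contra h0
      obtain ⟨ψ, h1, h2⟩ := exists_fun e u h0
      exact h2 (hu ⟨ψ, h1⟩)
  · intro u hu
    by_contra h0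
    obtain ⟨ψ, h1, h2⟩ := exists_fun (AlgHom.op e) u h0
    exact h2 (hu ⟨ψ, h1⟩)

section clear

variable {R U : Type} [Ring R] [StarRing R] [Algebra ℂ R] [Ring U] [Algebra ℂ U] {τ : R →+ ℝ}

theorem clr_common (h : VN R τ) (s1 s2 t1 t2 : R) (a1 : Nz s1) (a2 : Nz s2) (b1 : Nz t1)
    (b2 : Nz t2) : ∃ (r1 r2 : R) (a b : Rᵐᵒᵖ ⊗[ℂ] R), Nz r1 ∧ Nz r2 ∧
      op r1 ⊗ₜ[ℂ] r2 = a * (op s1 ⊗ₜ[ℂ] s2) ∧ op r1 ⊗ₜ[ℂ] r2 = b * (op t1 ⊗ₜ[ℂ] t2) := by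
  obtain ⟨s', b', hs', he⟩ := ore_right h s1 t1 b1
  obtain ⟨s'', b'', hs'', he'⟩ := ore_left h s2 t2 b2
  refine ⟨s1 * s', s'' * s2, op s' ⊗ₜ[ℂ] s'', op b' ⊗ₜ[ℂ] b'', nz_mul _ _ a1 hs',
    nz_mul _ _ hs'' a2, ?_, ?_⟩
  · rw [Algebra.TensorProduct.tmul_mul_tmul, op_mul]
  · rw [Algebra.TensorProduct.tmul_mul_tmul, he, he', op_mul]

theorem clr_one (h : VN R τ) (ι : R →ₐ[ℂ] U) (hι : Loc (ι : R →+* U)) (x : Uᵐᵒᵖ ⊗[ℂ] U) :
    ∃ s1 s2 : R, Nz s1 ∧ Nz s2 ∧ ∃ x', tm ι (op s1 ⊗ₜ[ℂ] s2) * x = tm ι x' := by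
  induction x using TensorProduct.induction_on with
  | zero => exact ⟨1, 1, nz_one, nz_one, 0, by simp⟩
  | tmul a b =>
    obtain ⟨s, x, hs, hx⟩ := hι.right a.unop
    obtain ⟨t, z, ht, hz⟩ := hι.left b
    refine ⟨s, t, hs, ht, op x ⊗ₜ[ℂ] z, ?_⟩
    rw [tm_tmul, tm_tmul, Algebra.TensorProduct.tmul_mul_tmul, unop_op, unop_op]
    have hx' : a.unop * ι s = ι x := hx
    have hz' : ι t * b = ι z := hz
    rw [← hx', ← hz', op_mul, op_unop]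
  | add a b ha hb =>
    obtain ⟨s1, s2, a1, a2, x, hx⟩ := ha
    obtain ⟨t1, t2, b1, b2, z, hz⟩ := hb
    obtain ⟨r1, r2, c, d, c1, c2, hc, hd⟩ := clr_common h s1 s2 t1 t2 a1 a2 b1 b2
    refine ⟨r1, r2, c1, c2, c * x + d * z, ?_⟩
    rw [mul_add, map_add, map_mul, map_mul, ← hx, ← hz, ← mul_assoc, ← mul_assoc, ← map_mul,
      ← map_mul, ← hc, ← hd]

theorem clr_fam (h : VN R τ) (ι : R →ₐ[ℂ] U) (hι : Loc (ι : R →+* U)) {α : Type}
    (x : α → Uᵐᵒᵖ ⊗[ℂ] U) (S : Finset α) :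
    ∃ s1 s2 : R, Nz s1 ∧ Nz s2 ∧ ∀ i ∈ S, ∃ x', tm ι (op s1 ⊗ₜ[ℂ] s2) * x i = tm ι x' := by
  classical
  induction S using Finset.induction_on with
  | empty => exact ⟨1, 1, nz_one, nz_one, fun a ha => absurd ha (Finset.notMem_empty a)⟩
  | insert a S _ ih =>
    obtain ⟨s1, s2, a1, a2, hS⟩ := ih
    obtain ⟨t1, t2, b1, b2, z, hz⟩ := clr_one h ι hι (x a)
    obtain ⟨r1, r2, c, d, c1, c2, hc, hd⟩ := clr_common h s1 s2 t1 t2 a1 a2 b1 b2
    refine ⟨r1, r2, c1, c2, fun i hi => ?_⟩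
    rcases Finset.mem_insert.1 hi with rfl | hi
    · exact ⟨d * z, by rw [hd, map_mul, map_mul, mul_assoc, hz]⟩
    · obtain ⟨x', hx'⟩ := hS i hi
      exact ⟨c * x', by rw [hc, map_mul, map_mul, mul_assoc, hx']⟩

theorem unit_tm (ι : R →ₐ[ℂ] U) (hι : Loc (ι : R →+* U)) (s1 s2 : R) (a1 : Nz s1) (a2 : Nz s2) :
    IsUnit (tm ι (op s1 ⊗ₜ[ℂ] s2)) := by
  have h1 : IsUnit (ι s1) := hι.unit s1 a1
  have h2 : IsUnit (ι s2) := hι.unit s2 a2
  have h3 : tm ι (op s1 ⊗ₜ[ℂ] s2) = (Algebra.TensorProduct.includeLeft (S := ℂ) (op (ι s1)) :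
      Uᵐᵒᵖ ⊗[ℂ] U) * Algebra.TensorProduct.includeRight (ι s2) := by
    rw [tm_tmul]
    simp
  rw [h3]
  exact (h1.op.map _).mul (h2.map _)

theorem tor_U (h : VN R τ) (ι : R →ₐ[ℂ] U) (hι : Loc (ι : R →+* U)) {n : ℕ} (y : Fin n → R)
    (hT : Tor y) : Tor (fun i => ι (y i)) := by
  intro T hT0 i
  obtain ⟨s1, s2, a1, a2, hS⟩ := clr_fam h ι hι T Finset.univ
  choose T' hT' using fun i => hS i (Finset.mem_univ i)
  have h1 : ∑ i, T' i * dl (y i) = 0 := by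
    apply tm_inj ι hι.inj
    rw [map_sum, map_zero]
    simp only [map_mul, tm_dl, ← hT', mul_assoc]
    rw [← Finset.mul_sum, hT0, mul_zero]
  apply (unit_tm ι hι s1 s2 a1 a2).mul_left_cancel
  rw [hT', hT T' h1 i, map_zero, mul_zero]

end clear

theorem tor_sub {D U : Type} [Ring D] [Algebra ℂ D] [Ring U] [Algebra ℂ U] (e : D →ₐ[ℂ] U)
    (he : Function.Injective e) {n : ℕ} (y : Fin n → D) (hT : Tor (fun i => e (y i))) : Tor y := by
  intro T hT0 i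
  apply tm_inj e he
  rw [map_zero]
  refine hT (fun i => tm e (T i)) ?_ i
  have h1 := congrArg (tm e) hT0
  rw [map_sum, map_zero] at h1
  simpa only [map_mul, tm_dl] using h1

theorem exists_Psi {R U R2 U2 : Type} [Ring R] [StarRing R] [Algebra ℂ R] [Ring U] [Algebra ℂ U]
    [Ring R2] [Algebra ℂ R2] [Ring U2] [Algebra ℂ U2] {τ : R →+ ℝ} (h : VN R τ)
    (ι : R →ₐ[ℂ] U) (hι : Loc (ι : R →+* U)) (ι2 : R2 →ₐ[ℂ] U2) (hι2 : Loc (ι2 : R2 →+* U2))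
    (π : Rᵐᵒᵖ ⊗[ℂ] R →ₐ[ℂ] R2) (hπ : Function.Injective π)
    (hN : ∀ s, Nz s → Nz (π (op s ⊗ₜ[ℂ] 1)) ∧ Nz (π (1 ⊗ₜ[ℂ] s))) :
    ∃ Ψ : Uᵐᵒᵖ ⊗[ℂ] U →ₐ[ℂ] U2, Function.Injective Ψ ∧ ∀ x, Ψ (tm ι x) = ι2 (π x) := by
  let f1 : R →ₐ[ℂ] U2 := (ι2.comp π).comp Algebra.TensorProduct.includeRight
  let f2 : R →ₐ[ℂ] U2ᵐᵒᵖ := (AlgHom.op ((ι2.comp π).comp
    (Algebra.TensorProduct.includeLeft (S := ℂ)))).comp (AlgEquiv.opOp ℂ R).toAlgHom
  have hf1 : ∀ s, f1 s = ι2 (π (1 ⊗ₜ[ℂ] s)) := fun s => rfl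
  have hf2 : ∀ s, f2 s = op (ι2 (π (op s ⊗ₜ[ℂ] 1))) := fun s => rfl
  obtain ⟨F1, hF1⟩ := lift_exists h hι (f1 : R →+* U2) (fun s hs => hι2.unit _ (hN s hs).2)
  obtain ⟨F2, hF2⟩ := lift_exists h hι (f2 : R →+* U2ᵐᵒᵖ)
    (fun s hs => (hι2.unit _ (hN s hs).1).op)
  have hF1' : ∀ x, F1 (ι x) = f1 x := hF1
  have hF2' : ∀ x, F2 (ι x) = f2 x := hF2
  let G1 : U →ₐ[ℂ] U2 := { F1 with
    commutes' := fun c => by
      show F1 (algebraMap ℂ U c) = _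
      rw [← ι.commutes, hF1', f1.commutes] }
  let G2' : U →ₐ[ℂ] U2ᵐᵒᵖ := { F2 with
    commutes' := fun c => by
      show F2 (algebraMap ℂ U c) = _
      rw [← ι.commutes, hF2', f2.commutes] }
  let G2 : Uᵐᵒᵖ →ₐ[ℂ] U2 := (AlgEquiv.opOp ℂ U2).symm.toAlgHom.comp (AlgHom.op G2')
  have hG2 : ∀ u, G2 u = (F2 u.unop).unop := fun u => rfl
  have hG1 : ∀ u, G1 u = F1 u := fun u => rfl
  have hc : ∀ a b, Commute (G2 a) (G1 b) := by
    intro a b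
    rw [hG1, hG2]
    refine (commute_loc hι F1 _ (fun x => ?_) b).symm
    have h1 := commute_loc hι F2 (op (F1 (ι x))) (fun z => by
      apply unop_injective
      have e1 : F2 ((ι : R →+* U) z) = f2 z := hF2 z
      rw [e1, hF1', hf1, hf2]
      simp only [unop_mul, unop_op, ← map_mul, Algebra.TensorProduct.tmul_mul_tmul, mul_one,
        one_mul]) a.unop
    exact congrArg unop h1
  let Ψ := Algebra.TensorProduct.lift G2 G1 hc
  have hΨ : ∀ x, Ψ (tm ι x) = ι2 (π x) := by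
    intro x
    induction x using TensorProduct.induction_on with
    | zero => simp
    | add a b ha hb => simp only [map_add, ha, hb]
    | tmul a b =>
      rw [tm_tmul, Algebra.TensorProduct.lift_tmul, hG1, hG2, unop_op, hF1', hF2', hf1, hf2,
        unop_op, ← map_mul, ← map_mul, Algebra.TensorProduct.tmul_mul_tmul, mul_one, one_mul,
        op_unop]
  refine ⟨Ψ, ?_, hΨ⟩
  rw [injective_iff_map_eq_zero]
  intro x hx
  obtain ⟨s1, s2, a1, a2, x', hx'⟩ := clr_one h ι hι x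
  have h1 : x' = 0 := by
    apply hπ
    apply hι2.inj
    show ι2 (π x') = ι2 (π 0)
    rw [← hΨ, ← hx', map_mul, hx, mul_zero, map_zero, map_zero]
  apply (unit_tm ι hι s1 s2 a1 a2).mul_left_cancel
  rw [hx', h1, map_zero, mul_zero]

theorem alg_main {R R2 : Type} [Ring R] [StarRing R] [Algebra ℂ R] [Ring R2] [StarRing R2]
    [Algebra ℂ R2] {τ : R →+ ℝ} (h : VN R τ) {τ2 : R2 →+ ℝ} (h2 : VN R2 τ2)
    (π : Rᵐᵒᵖ ⊗[ℂ] R →ₐ[ℂ] R2) (hπ : Function.Injective π)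
    (hN : ∀ s, Nz s → Nz (π (op s ⊗ₜ[ℂ] 1)) ∧ Nz (π (1 ⊗ₜ[ℂ] s)))
    {n m : ℕ} (y : Fin n → R) (hT : Tor y) (P : Fin m → FreeAlgebra ℂ (Fin n))
    (t : Fin m → Rᵐᵒᵖ ⊗[ℂ] R) (ht : t ≠ 0)
    (hrel : ∑ k, t k * dl (FreeAlgebra.lift ℂ y (P k)) = 0) :
    ∃ g : Matrix (Fin m) (Fin m) (Rᵐᵒᵖ ⊗[ℂ] R),
      (∀ j, ∑ k, g j k * dl (FreeAlgebra.lift ℂ y (P k)) = 0) ∧ 1 ≤ rk τ2 (g.map π) := by
  obtain ⟨U, _, ι0, hι0⟩ := LocEx.loc_exists h
  obtain ⟨U2, _, ι20, hι20⟩ := LocEx.loc_exists h2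
  obtain ⟨_, hA⟩ := exists_algebra hι0
  obtain ⟨_, hA2⟩ := exists_algebra hι20
  let ι : R →ₐ[ℂ] U := { ι0 with commutes' := fun c => (hA c).symm }
  let ι2 : R2 →ₐ[ℂ] U2 := { ι20 with commutes' := fun c => (hA2 c).symm }
  have hι : Loc (ι : R →+* U) := hι0
  have hι2 : Loc (ι2 : R2 →+* U2) := hι20
  haveI := nontrivial_R h
  haveI : Nontrivial U := hι.inj.nontrivial
  have hTU := tor_U h ι hι y hT
  have hGU := gs_U (rankOf h hι (RingHom.id U) Function.injective_id)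
    (fun p q A hA => full_U h hι p q A hA) hTU
  obtain ⟨D, _, _, e, yD, he, hy, hGen⟩ := exists_D hGU (unit_of h hι)
  have hTD : Tor yD := tor_sub e he yD (by simpa only [hy] using hTU)
  obtain ⟨Ψ, hΨ, hΨι⟩ := exists_Psi h ι hι ι2 hι2 π hπ hN
  let f : Dᵐᵒᵖ ⊗[ℂ] D →+* U2 := (Ψ.comp (tm e) : Dᵐᵒᵖ ⊗[ℂ] D →ₐ[ℂ] U2)
  have hf : Function.Injective f := hΨ.comp (tm_inj e he)
  let r := rankOf h2 hι2 f hf
  have hS := split (E := Dᵐᵒᵖ) yD hTD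
  have hG := gen (E := Dᵐᵒᵖ) yD hGen (GS_self r hS)
  choose J hJ using fun k => jac yD (P k)
  have hz : ∀ k, e (FreeAlgebra.lift ℂ yD (P k)) = ι (FreeAlgebra.lift ℂ y (P k)) := by
    intro k
    have h1 : e.comp (FreeAlgebra.lift ℂ yD) = ι.comp (FreeAlgebra.lift ℂ y) := by
      apply FreeAlgebra.hom_ext
      funext i
      simp [hy]
    exact DFunLike.congr_fun h1 (P k)
  have h3 : ∀ i, ∑ k, tm ι (t k) * tm e (J k i) = 0 := by
    refine hTU (fun i => ∑ k, tm ι (t k) * tm e (J k i)) ?_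
    have h4 := congrArg (tm ι) hrel
    rw [map_sum, map_zero] at h4
    rw [← h4]
    simp only [Finset.sum_mul]
    rw [Finset.sum_comm]
    refine Finset.sum_congr rfl fun k _ => ?_
    rw [map_mul, tm_dl, ← hz, ← tm_dl, hJ, map_sum, Finset.mul_sum]
    refine Finset.sum_congr rfl fun i _ => ?_
    rw [map_mul, tm_dl, hy, mul_assoc]
  obtain ⟨k0, hk0⟩ := Function.ne_iff.1 ht
  have hk1 : tm ι (t k0) ≠ 0 := fun h0 => hk0 (tm_inj ι hι.inj (by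
    rw [h0]
    exact (map_zero _).symm))
  obtain ⟨Φ, hΦ, hΦ0⟩ := descent e _ hk1
  obtain ⟨g, hgJ, hg⟩ := core r hS hG (Matrix.of J) (fun k => Φ (tm ι (t k)))
    (fun h0 => hΦ0 (congrFun h0 k0)) (by
      funext i
      have h4 := congrArg Φ (h3 i)
      rw [map_sum, map_zero] at h4
      simp only [hΦ] at h4
      exact h4)
  obtain ⟨s1, s2, a1, a2, hS'⟩ := clr_fam h ι hι (fun jk : Fin m × Fin m => tm e (g jk.1 jk.2))
    Finset.univ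
  choose g' hg' using fun j k => hS' (j, k) (Finset.mem_univ _)
  refine ⟨Matrix.of g', fun j => ?_, ?_⟩
  · apply tm_inj ι hι.inj
    rw [map_sum, map_zero]
    have h4 : ∑ k, g j k * dl (FreeAlgebra.lift ℂ yD (P k)) = 0 := by
      simp only [hJ, Finset.mul_sum]
      rw [Finset.sum_comm]
      refine Finset.sum_eq_zero fun i _ => ?_
      have h5 : ∑ k, g j k * J k i = 0 := congrFun (congrFun hgJ j) i
      simp only [← mul_assoc]
      rw [← Finset.sum_mul, h5, zero_mul]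
    have h5 := congrArg (fun z => tm ι (op s1 ⊗ₜ[ℂ] s2) * tm e z) h4
    simp only [map_sum, map_zero, mul_zero, Finset.mul_sum] at h5
    rw [← h5]
    refine Finset.sum_congr rfl fun k _ => ?_
    rw [map_mul, map_mul, tm_dl, tm_dl, hz, ← mul_assoc, hg']
    rfl
  · obtain ⟨w, hw⟩ := (unit_tm ι hι s1 s2 a1 a2).map Ψ
    have h4 : g.map f = Matrix.diagonal (fun _ : Fin m => (↑w⁻¹ : U2)) *
        ((Matrix.of g').map π).map (ι2 : R2 →+* U2) := by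
      funext j k
      rw [Matrix.diagonal_mul]
      show Ψ (tm e (g j k)) = ↑w⁻¹ * ι2 (π (g' j k))
      rw [← hΨι, ← hg', map_mul, ← hw, Units.inv_mul_cancel_left]
    have h5 : r.ρ g = rkU τ2 (ι2 : R2 →+* U2) (g.map f) := rfl
    rw [h5, h4] at hg
    rw [← RkUEq.rkU_map h2 hι2]
    exact hg.trans (RkUMul.rkU_mul h2 hι2 _ _).2

end Pool.Agent.H386Z.Alg
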