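import Mathlib

/-! The defect function of finite-dimensional subspaces with respect to a family of operators. -/

set_option autoImplicit false

open Module

namespace Pool.Agent.H386Z.Chi

variable {E : Type} [DivisionRing E] {n : ℕ}
variable {P P' : Type} [AddCommGroup P] [Module E P] [AddCommGroup P'] [Module E P']

/-- `V + Y_1 V + ... + Y_n V`. -/
def plus (Y : Fin n → P →ₗ[E] P) (V : Submodule E P) : Submodule E P :=
  V ⊔ ⨆ i, V.map (Y i)

/-- The defect `dim (V + Y_1 V + ... + Y_n V) - n dim V`. -/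
noncomputable def chi (Y : Fin n → P →ₗ[E] P) (V : Submodule E P) : ℤ :=
  (finrank E (plus Y V) : ℤ) - n * finrank E V

/-- Every nonzero finite-dimensional subspace has defect at least one. -/
def GS (Y : Fin n → P →ₗ[E] P) : Prop :=
  ∀ V : Submodule E P, FiniteDimensional E V → V ≠ ⊥ → 1 ≤ chi Y V

theorem plus_fd (Y : Fin n → P →ₗ[E] P) (V : Submodule E P) [FiniteDimensional E V] :
    FiniteDimensional E (plus Y V) := by
  unfold plus
  infer_instance

theorem le_plus (Y : Fin n → P →ₗ[E] P) (V : Submodule E P) : V ≤ plus Y V := le_sup_left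

theorem mem_plus (Y : Fin n → P →ₗ[E] P) (V : Submodule E P) (i : Fin n) (x : P) (hx : x ∈ V) :
    Y i x ∈ plus Y V :=
  (le_sup_right : (⨆ i, V.map (Y i)) ≤ plus Y V) (le_iSup (fun i => V.map (Y i)) i ⟨x, hx, rfl⟩)

theorem plus_le (Y : Fin n → P →ₗ[E] P) (V Z : Submodule E P) (h1 : V ≤ Z)
    (h2 : ∀ i, ∀ x ∈ V, Y i x ∈ Z) : plus Y V ≤ Z := by
  refine sup_le h1 (iSup_le fun i => ?_)
  rintro _ ⟨x, hx, rfl⟩
  exact h2 i x hx

theorem plus_mono (Y : Fin n → P →ₗ[E] P) {V V' : Submodule E P} (h : V ≤ V') :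
    plus Y V ≤ plus Y V' :=
  plus_le Y _ _ (h.trans (le_plus Y V')) fun i x hx => mem_plus Y V' i x (h hx)

theorem plus_sup (Y : Fin n → P →ₗ[E] P) (V V' : Submodule E P) :
    plus Y (V ⊔ V') = plus Y V ⊔ plus Y V' := by
  apply le_antisymm
  · refine plus_le Y _ _ (sup_le_sup (le_plus Y V) (le_plus Y V')) ?_
    intro i x hx
    obtain ⟨a, ha, b, hb, rfl⟩ := Submodule.mem_sup.1 hx
    rw [map_add]
    exact Submodule.add_mem_sup (mem_plus Y V i a ha) (mem_plus Y V' i b hb)
  · exact sup_le (plus_mono Y le_sup_left) (plus_mono Y le_sup_right)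

theorem chi_bot (Y : Fin n → P →ₗ[E] P) : chi Y ⊥ = 0 := by
  have h : plus Y (⊥ : Submodule E P) = ⊥ := by
    apply le_antisymm _ bot_le
    refine plus_le Y _ _ le_rfl ?_
    intro i x hx
    rw [(Submodule.mem_bot E).1 hx, map_zero]
    exact Submodule.zero_mem _
  unfold chi
  rw [h]
  simp

theorem GS.nonneg {Y : Fin n → P →ₗ[E] P} (h : GS Y) (V : Submodule E P)
    [hV : FiniteDimensional E V] : 0 ≤ chi Y V := by
  by_cases h0 : V = ⊥
  · rw [h0, chi_bot]
  · have := h V hV h0
    omega

theorem chi_submod (Y : Fin n → P →ₗ[E] P) (V V' : Submodule E P) [FiniteDimensional E V]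
    [FiniteDimensional E V'] : chi Y (V ⊔ V') + chi Y (V ⊓ V') ≤ chi Y V + chi Y V' := by
  haveI := plus_fd Y V
  haveI := plus_fd Y V'
  have h1 := Submodule.finrank_sup_add_finrank_inf_eq V V'
  have h2 := Submodule.finrank_sup_add_finrank_inf_eq (plus Y V) (plus Y V')
  have h3 : finrank E (plus Y (V ⊓ V')) ≤ finrank E (plus Y V ⊓ plus Y V' : Submodule E P) :=
    Submodule.finrank_mono (le_inf (plus_mono Y inf_le_left) (plus_mono Y inf_le_right))
  unfold chi
  rw [plus_sup]
  have h4 : (n : ℤ) * (finrank E (V ⊔ V' : Submodule E P) : ℤ) +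
      n * (finrank E (V ⊓ V' : Submodule E P) : ℤ) = n * finrank E V + n * finrank E V' := by
    rw [← mul_add, ← mul_add]
    congr 1
    exact_mod_cast h1
  have h5 : (finrank E (plus Y V ⊔ plus Y V' : Submodule E P) : ℤ) +
      (finrank E (plus Y V ⊓ plus Y V' : Submodule E P) : ℤ) =
      finrank E (plus Y V) + finrank E (plus Y V') := by exact_mod_cast h2
  have h6 : (finrank E (plus Y (V ⊓ V')) : ℤ) ≤
      (finrank E (plus Y V ⊓ plus Y V' : Submodule E P) : ℤ) := by exact_mod_cast h3
  linarith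

theorem finrank_map_add (φ : P →ₗ[E] P') (V : Submodule E P) [FiniteDimensional E V] :
    finrank E (V.map φ) + finrank E (V ⊓ LinearMap.ker φ : Submodule E P) = finrank E V := by
  have h1 := LinearMap.finrank_range_add_finrank_ker (φ.domRestrict V)
  rw [LinearMap.range_domRestrict, LinearMap.ker_domRestrict] at h1
  rw [← h1, ← Submodule.map_comap_subtype, Submodule.finrank_map_subtype_eq]

theorem plus_map (Y : Fin n → P →ₗ[E] P) (Y' : Fin n → P' →ₗ[E] P') (φ : P →ₗ[E] P')
    (hφ : ∀ i x, φ (Y i x) = Y' i (φ x)) (V : Submodule E P) :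
    plus Y' (V.map φ) = (plus Y V).map φ := by
  apply le_antisymm
  · refine plus_le Y' _ _ (Submodule.map_mono (le_plus Y V)) ?_
    rintro i _ ⟨x, hx, rfl⟩
    exact ⟨Y i x, mem_plus Y V i x hx, hφ i x⟩
  · rw [Submodule.map_le_iff_le_comap]
    refine plus_le Y _ _ ?_ ?_
    · intro x hx
      exact le_plus Y' _ ⟨x, hx, rfl⟩
    · intro i x hx
      show φ (Y i x) ∈ plus Y' (V.map φ)
      rw [hφ]
      exact mem_plus Y' _ i _ ⟨x, hx, rfl⟩

theorem chi_map (Y : Fin n → P →ₗ[E] P) (Y' : Fin n → P' →ₗ[E] P') (φ : P →ₗ[E] P')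
    (hφ : ∀ i x, φ (Y i x) = Y' i (φ x)) (V : Submodule E P) [FiniteDimensional E V] :
    chi Y' (V.map φ) + chi Y (V ⊓ LinearMap.ker φ) ≤ chi Y V := by
  haveI := plus_fd Y V
  have h1 := finrank_map_add φ V
  have h2 := finrank_map_add φ (plus Y V)
  have h3 : finrank E (plus Y (V ⊓ LinearMap.ker φ)) ≤
      finrank E (plus Y V ⊓ LinearMap.ker φ : Submodule E P) := by
    apply Submodule.finrank_mono
    refine le_inf (plus_mono Y inf_le_left) (plus_le Y _ _ inf_le_right ?_)
    intro i x hx
    show φ (Y i x) = 0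
    rw [hφ, show φ x = 0 from hx.2, map_zero]
  unfold chi
  rw [plus_map Y Y' φ hφ]
  have h4 : (n : ℤ) * (finrank E (V.map φ) : ℤ) +
      n * (finrank E (V ⊓ LinearMap.ker φ : Submodule E P) : ℤ) = n * finrank E V := by
    rw [← mul_add]
    congr 1
    exact_mod_cast h1
  have h5 : (finrank E ((plus Y V).map φ) : ℤ) +
      (finrank E (plus Y V ⊓ LinearMap.ker φ : Submodule E P) : ℤ) =
      finrank E (plus Y V) := by exact_mod_cast h2
  have h6 : (finrank E (plus Y (V ⊓ LinearMap.ker φ)) : ℤ) ≤
      (finrank E (plus Y V ⊓ LinearMap.ker φ : Submodule E P) : ℤ) := by exact_mod_cast h3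
  linarith

/-- The operators `Y i` together with the identity. -/
def Yo (Y : Fin n → P →ₗ[E] P) : Option (Fin n) → P →ₗ[E] P
  | none => LinearMap.id
  | some i => Y i

theorem range_comb (Y : Fin n → P →ₗ[E] P) {q : ℕ} (v : Fin q → P) :
    LinearMap.range (Fintype.linearCombination E
      (fun ib : Option (Fin n) × Fin q => Yo Y ib.1 (v ib.2))) =
      plus Y (Submodule.span E (Set.range v)) := by
  rw [Fintype.range_linearCombination]
  apply le_antisymm
  · rw [Submodule.span_le]
    rintro _ ⟨⟨i, b⟩, rfl⟩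
    cases i with
    | none => exact le_plus Y _ (Submodule.subset_span ⟨b, rfl⟩)
    | some i => exact mem_plus Y _ i _ (Submodule.subset_span ⟨b, rfl⟩)
  · refine plus_le Y _ _ ?_ ?_
    · rw [Submodule.span_le]
      rintro _ ⟨b, rfl⟩
      exact Submodule.subset_span ⟨(none, b), rfl⟩
    · intro i x hx
      have h : Submodule.span E (Set.range v) ≤ (Submodule.span E (Set.range
          (fun ib : Option (Fin n) × Fin q => Yo Y ib.1 (v ib.2)))).comap (Y i) := by
        rw [Submodule.span_le]
        rintro _ ⟨b, rfl⟩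
        exact Submodule.subset_span ⟨(some i, b), rfl⟩
      exact h hx

theorem rank_null (Y : Fin n → P →ₗ[E] P) {q : ℕ} (v : Fin q → P) :
    finrank E (plus Y (Submodule.span E (Set.range v))) +
      finrank E (LinearMap.ker (Fintype.linearCombination E
        (fun ib : Option (Fin n) × Fin q => Yo Y ib.1 (v ib.2)))) = (n + 1) * q := by
  have h1 := LinearMap.finrank_range_add_finrank_ker (Fintype.linearCombination E
      (fun ib : Option (Fin n) × Fin q => Yo Y ib.1 (v ib.2)))
  rw [range_comb] at h1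
  rw [h1]
  simp

/-- A basis of `V` and a basis of the linear relations. -/
theorem exists_rel (Y : Fin n → P →ₗ[E] P) (V : Submodule E P) [FiniteDimensional E V] :
    ∃ (q p : ℕ) (v : Fin q → P) (L : Fin p → (Option (Fin n) × Fin q → E)),
      LinearIndependent E v ∧ Submodule.span E (Set.range v) = V ∧ LinearIndependent E L ∧
      (∀ a, ∑ ib, L a ib • Yo Y ib.1 (v ib.2) = 0) ∧ chi Y V = (q : ℤ) - p := by
  let b := Module.finBasis E V
  let v : Fin (finrank E V) → P := fun i => (b i : P)
  have hv : LinearIndependent E v := b.linearIndependent.map' V.subtype (Submodule.ker_subtype V)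
  have hs : Submodule.span E (Set.range v) = V := by
    have h1 : Set.range v = V.subtype '' Set.range b := by
      rw [← Set.range_comp]
      rfl
    rw [h1, ← Submodule.map_span, b.span_eq, Submodule.map_top, Submodule.range_subtype]
  let Φ := Fintype.linearCombination E
        (fun ib : Option (Fin n) × Fin (finrank E V) => Yo Y ib.1 (v ib.2))
  let c := Module.finBasis E (LinearMap.ker Φ)
  refine ⟨finrank E V, finrank E (LinearMap.ker Φ), v, fun a => (c a : _ → E), hv, hs,
    c.linearIndependent.map' (LinearMap.ker Φ).subtype (Submodule.ker_subtype _), ?_, ?_⟩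
  · intro a
    have h1 : Φ (c a) = 0 := (c a).2
    rw [Fintype.linearCombination_apply] at h1
    exact h1
  · have h1 := rank_null Y v
    rw [hs] at h1
    unfold chi
    have h2 : (finrank E (plus Y V) : ℤ) + (finrank E (LinearMap.ker Φ) : ℤ) =
        (n + 1) * (finrank E V : ℤ) := by exact_mod_cast h1
    linarith

/-- Independent relations bound the defect. -/
theorem chi_le_of_rel (Y : Fin n → P →ₗ[E] P) {q p : ℕ} (v : Fin q → P)
    (L : Fin p → (Option (Fin n) × Fin q → E)) (hv : LinearIndependent E v)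
    (hL : LinearIndependent E L) (h : ∀ a, ∑ ib, L a ib • Yo Y ib.1 (v ib.2) = 0) :
    chi Y (Submodule.span E (Set.range v)) ≤ (q : ℤ) - p := by
  have h1 := rank_null Y v
  let Φ := Fintype.linearCombination E
        (fun ib : Option (Fin n) × Fin q => Yo Y ib.1 (v ib.2))
  have h2 : p ≤ finrank E (LinearMap.ker Φ) := by
    have h3 : LinearIndependent E (fun a => (⟨L a, by
        show Φ (L a) = 0
        rw [Fintype.linearCombination_apply]
        exact h a⟩ : LinearMap.ker Φ)) :=
      LinearIndependent.of_comp (LinearMap.ker Φ).subtype hL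
    simpa using h3.fintype_card_le_finrank
  unfold chi
  rw [finrank_span_eq_card hv, Fintype.card_fin]
  have h4 : (finrank E (plus Y (Submodule.span E (Set.range v))) : ℤ) +
      (finrank E (LinearMap.ker Φ) : ℤ) = (n + 1) * (q : ℤ) := by exact_mod_cast h1
  have h5 : (p : ℤ) ≤ finrank E (LinearMap.ker Φ) := by exact_mod_cast h2
  linarith

end Pool.Agent.H386Z.Chi
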