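import Pool.Agent.H386Z.Hilb

/-! Clearing denominators of vectors and of finite rank operators; the distance estimate. -/

set_option autoImplicit false

open scoped InnerProductSpace TensorProduct Matrix
open Pool.Agent.H386Z.VG Pool.Agent.H386Z.HA Pool.Agent.RK MulOpposite Pool.Agent.H386Z.Hilb

attribute [local instance] Pool.Agent.H386Z.VG.kerM_hop

namespace Pool.Agent.H386Z.Clear

variable {H : Type} [NormedAddCommGroup H] [InnerProductSpace ℂ H] [CompleteSpace H]
variable (G : Dat H) (hc : DenseRange (vv G))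

theorem inner_inj {ι : Type} [Fintype ι] [DecidableEq ι] (i : ι) (x : H) (w : EllN H ι) :
    ⟪(inj i x : EllN H ι), w⟫_ℂ = ⟪x, w i⟫_ℂ := by
  rw [PiLp.inner_apply, Finset.sum_eq_single i]
  · rw [inj_self]
  · intro b _ hb
    rw [inj_ne i b hb, inner_zero_left]
  · intro h
    exact absurd (Finset.mem_univ i) h

include hc in
theorem clear_vec (η : H) : ∃ s a : NG G, (∀ ζ, (s : H →L[ℂ] H) ζ = 0 → ζ = 0) ∧
    (s : H →L[ℂ] H) η = vv G a := by
  let M' : Subalgebra ℂ (H →L[ℂ] H) := Subalgebra.centralizer ℂ (NG G : Set (H →L[ℂ] H))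
  have hM' : ∀ r, r ∈ M' ↔ ∀ b : NG G, (b : H →L[ℂ] H) * r = r * b := by
    intro r
    rw [Subalgebra.mem_centralizer_iff]
    exact ⟨fun h b => h b b.2, fun h b hb => h ⟨b, hb⟩⟩
  let w0 : EllN H Bool := inj false G.Ω + inj true η
  have w0f : w0 false = G.Ω := by
    show (inj false G.Ω : EllN H Bool) false + (inj true η : EllN H Bool) false = _
    rw [inj_self, inj_ne true false (by simp), add_zero]
  have w0t : w0 true = η := by
    show (inj false G.Ω : EllN H Bool) true + (inj true η : EllN H Bool) true = _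
    rw [inj_self, inj_ne false true (by simp), zero_add]
  let Z0 : Submodule ℂ (EllN H Bool) :=
    { carrier := {w | ∃ r ∈ M', w = rhoN r w0}
      add_mem' := by
        rintro _ _ ⟨r, hr, rfl⟩ ⟨r', hr', rfl⟩
        exact ⟨r + r', M'.add_mem hr hr', ext_N fun k => rfl⟩
      zero_mem' := ⟨0, M'.zero_mem, ext_N fun k => rfl⟩
      smul_mem' := by
        rintro c _ ⟨r, hr, rfl⟩
        exact ⟨c • r, M'.smul_mem hr c, ext_N fun k => rfl⟩ }
  let Z := Z0.topologicalClosure
  haveI : CompleteSpace Z := Z0.isClosed_topologicalClosure.completeSpace_coe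
  obtain ⟨p, hp, -, -⟩ := exists_proj (G := G) Z (by
    intro g hg x hx
    refine map_mem_closure (f := rhoN g) (rhoN g).continuous hx ?_
    rintro _ ⟨r, hr, rfl⟩
    refine ⟨g * r, M'.mul_mem ((hM' g).2 fun b => ((mem_NG _).1 b.2 g hg).symm) hr,
      ext_N fun k => rfl⟩)
  have hw0 : w0 ∈ Z := subset_closure ⟨1, M'.one_mem, ext_N fun k => rfl⟩
  have h1 : opM p w0 = w0 := by
    rw [hp]
    exact Submodule.starProjection_eq_self_iff.2 hw0
  have h2 := congrArg (fun z : EllN H Bool => z true) h1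
  simp only [opM_apply, Fintype.sum_bool, w0f, w0t] at h2
  refine ⟨1 - p true true, p true false, ?_, ?_⟩
  · intro ζ hζ
    have h3 : (p true true : H →L[ℂ] H) ζ = ζ := by
      have h4 : ζ - (p true true : H →L[ℂ] H) ζ = 0 := hζ
      exact (sub_eq_zero.1 h4).symm
    let u : EllN H Bool := inj true ζ
    have h4 : ⟪u, u - Z.starProjection u⟫_ℂ = 0 := by
      rw [inner_inj, ← hp]
      show ⟪ζ, u true - (opM p u) true⟫_ℂ = 0
      rw [opM_inj, h3, inj_self, sub_self, inner_zero_right]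
    have h5 : ⟪Z.starProjection u, u - Z.starProjection u⟫_ℂ = 0 :=
      Submodule.inner_right_of_mem_orthogonal (Submodule.starProjection_apply_mem Z u)
        (Submodule.sub_starProjection_mem_orthogonal u)
    have h6 : u - Z.starProjection u = 0 := by
      rw [← inner_self_eq_zero (𝕜 := ℂ), inner_sub_left, h4, h5, sub_self]
    have h7 : u ∈ Z := by
      rw [sub_eq_zero.1 h6]
      exact Submodule.starProjection_apply_mem Z u
    apply eq_zero_dense hc
    intro b
    have h8 : ∀ w ∈ Z, ‖⟪vv G b, w true⟫_ℂ‖ ≤ ‖(b : H →L[ℂ] H)‖ * ‖w false‖ * ‖η‖ := by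
      intro w hw
      refine closure_minimal (t := {w : EllN H Bool | ‖⟪vv G b, w true⟫_ℂ‖ ≤
        ‖(b : H →L[ℂ] H)‖ * ‖w false‖ * ‖η‖}) ?_ ?_ hw
      · rintro _ ⟨r, hr, rfl⟩
        show ‖⟪vv G b, (rhoN r w0) true⟫_ℂ‖ ≤ ‖(b : H →L[ℂ] H)‖ * ‖(rhoN r w0) false‖ * ‖η‖
        rw [rhoN_apply, rhoN_apply, w0t, w0f]
        have e1 := comm_norm_le G.Ω (fun a : NG G => (a : H →L[ℂ] H)) hc
          (fun a => (norm_vv_star G hc a).le) r ((hM' r).1 hr)
        have e2 : star r (vv G b) = (b : H →L[ℂ] H) (star r G.Ω) := by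
          have e3 := congrArg star ((hM' r).1 hr (star b))
          rw [star_mul, star_mul] at e3
          have e4 : star ((star b : NG G) : H →L[ℂ] H) = b := star_star _
          rw [e4] at e3
          exact congrArg (fun z : H →L[ℂ] H => z G.Ω) e3
        rw [← ContinuousLinearMap.adjoint_inner_left, ← ContinuousLinearMap.star_eq_adjoint, e2]
        refine (norm_inner_le_norm _ _).trans (mul_le_mul_of_nonneg_right ?_ (norm_nonneg _))
        exact ((b : H →L[ℂ] H).le_opNorm _).trans (mul_le_mul_of_nonneg_left e1 (norm_nonneg _))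
      · exact isClosed_le (by fun_prop) (by fun_prop)
    have h9 := h8 u h7
    rw [inj_self, inj_ne true false (by simp), norm_zero, mul_zero, zero_mul] at h9
    exact norm_le_zero_iff.1 h9
  · show η - (p true true : H →L[ℂ] H) η = (p true false : H →L[ℂ] H) G.Ω
    rw [sub_eq_iff_eq_add, add_comm]
    exact h2.symm

include hc in
theorem clear_fam {α : Type} (η : α → H) (S : Finset α) :
    ∃ s : NG G, (∀ ζ, (s : H →L[ℂ] H) ζ = 0 → ζ = 0) ∧
      ∀ i ∈ S, ∃ a, (s : H →L[ℂ] H) (η i) = vv G a := by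
  classical
  induction S using Finset.induction_on with
  | empty => exact ⟨1, fun ζ h => h, fun a ha => absurd ha (Finset.notMem_empty a)⟩
  | insert a S _ ih =>
    obtain ⟨s, hs, hS⟩ := ih
    obtain ⟨t, b, ht, hb⟩ := clear_vec G hc ((s : H →L[ℂ] H) (η a))
    refine ⟨t * s, fun ζ h => hs _ (ht _ h), fun i hi => ?_⟩
    rcases Finset.mem_insert.1 hi with rfl | hi
    · exact ⟨b, hb⟩
    · obtain ⟨c, hc'⟩ := hS i hi
      refine ⟨t * c, ?_⟩
      rw [vv_mul, ← hc']
      rfl

theorem fr_decomp (T : H →L[ℂ] H)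
    (hT : FiniteDimensional ℂ (LinearMap.range (T : H →ₗ[ℂ] H))) :
    ∃ (d : ℕ) (η ζ : Fin d → H), ∀ x, T x = ∑ a, ⟪ζ a, x⟫_ℂ • η a := by
  let b := stdOrthonormalBasis ℂ (LinearMap.range (T : H →ₗ[ℂ] H))
  refine ⟨_, fun a => (b a : H), fun a => star T (b a : H), fun x => ?_⟩
  have h1 := congrArg Subtype.val (b.sum_repr' ⟨T x, x, rfl⟩)
  rw [AddSubmonoidClass.coe_finsetSum] at h1
  refine h1.symm.trans (Finset.sum_congr rfl fun a _ => ?_)
  rw [ContinuousLinearMap.star_eq_adjoint, ContinuousLinearMap.adjoint_inner_left]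
  rfl

include hc in
theorem clear_fr {m : ℕ} (T : Fin m → (H →L[ℂ] H))
    (hT : ∀ k, FiniteDimensional ℂ (LinearMap.range (T k : H →ₗ[ℂ] H))) :
    ∃ (s1 s2 : NG G) (t : Fin m → AA G), (∀ ζ, (s1 : H →L[ℂ] H) ζ = 0 → ζ = 0) ∧
      (∀ ζ, (s2 : H →L[ℂ] H) ζ = 0 → ζ = 0) ∧
      ∀ k, Th G (t k) = (s2 : H →L[ℂ] H) * T k * star (s1 : H →L[ℂ] H) := by
  choose d η ζ hd using fun k => fr_decomp (T k) (hT k)
  obtain ⟨s2, hs2, h2⟩ := clear_fam G hc (fun ka : Σ k, Fin (d k) => η ka.1 ka.2) Finset.univ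
  obtain ⟨s1, hs1, h1⟩ := clear_fam G hc (fun ka : Σ k, Fin (d k) => ζ ka.1 ka.2) Finset.univ
  choose a ha using fun k i => h2 ⟨k, i⟩ (Finset.mem_univ _)
  choose b hb using fun k i => h1 ⟨k, i⟩ (Finset.mem_univ _)
  refine ⟨s1, s2, fun k => ∑ i, op (star (b k i)) ⊗ₜ[ℂ] a k i, hs1, hs2, fun k => ?_⟩
  ext1 x
  rw [map_sum, ContinuousLinearMap.sum_apply, ContinuousLinearMap.mul_apply,
    ContinuousLinearMap.mul_apply, hd, map_sum]
  refine Finset.sum_congr rfl fun i _ => ?_
  rw [Th_tmul, unop_op, star_star, map_smul, ← ha, ← hb, ContinuousLinearMap.star_eq_adjoint,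
    ContinuousLinearMap.adjoint_inner_right]

theorem estimate {A K : Type} [Ring A] [StarRing A] [Algebra ℂ A] [NormedAddCommGroup K]
    [InnerProductSpace ℂ K] [CompleteSpace K] (h : HAlg A K) {m : ℕ}
    (g : Matrix (Fin m) (Fin m) A) (hg : 1 ≤ rk (tau h.dat) (g.map h.rep)) :
    ∃ c : Fin m → ℝ, ∑ j, c j ≤ m - 1 ∧ ∀ j, ∀ ε > 0, ∃ a : Fin m → A,
      ∑ k, ‖h.v (∑ l, a l * g l k - if k = j then 1 else 0)‖ ^ 2 ≤ c j + ε := by
  let B : Matrix (Fin m) (Fin m) (NG h.dat) := g.map h.rep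
  have h1 : rk (tau h.dat) B = m - (mtr (kp B)).re := by
    rw [← Lp.rk_star vn_NG, rk_eq_kp, Matrix.conjTranspose_conjTranspose, Fintype.card_fin]
  let u : Fin m → EllN K (Fin m) := fun j => inj j (h.v 1)
  refine ⟨fun j => ‖(kerM B).starProjection (u j)‖ ^ 2, ?_, ?_⟩
  · have h2 : (mtr (kp B)).re = ∑ j, ‖(kerM B).starProjection (u j)‖ ^ 2 := by
      rw [mtr_eq_inner, Complex.re_sum]
      refine Finset.sum_congr rfl fun j _ => ?_
      rw [opM_kp]
      have h3 : ⟪(kerM B).starProjection (u j), u j - (kerM B).starProjection (u j)⟫_ℂ = 0 :=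
        Submodule.inner_right_of_mem_orthogonal (Submodule.starProjection_apply_mem _ _)
          (Submodule.sub_starProjection_mem_orthogonal _)
      rw [inner_sub_right, sub_eq_zero] at h3
      show (⟪u j, (kerM B).starProjection (u j)⟫_ℂ).re = _
      rw [← inner_conj_symm, h3, Complex.conj_re]
      exact inner_self_eq_norm_sq (𝕜 := ℂ) _
    have h3 : 1 ≤ rk (tau h.dat) B := hg
    linarith
  · intro j ε hε
    have h2 : u j - (kerM B).starProjection (u j) ∈ (opM Bᴴ).range.topologicalClosure := by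
      rw [← opM_adjoint, ← ContinuousLinearMap.orthogonal_ker]
      exact Submodule.sub_starProjection_mem_orthogonal _
    let vec : (Fin m → A) → EllN K (Fin m) := fun a => WithLp.toLp 2 fun l => h.v (a l)
    have h3 : DenseRange vec := by
      have h4 : DenseRange (fun (a : Fin m → A) (l : Fin m) => h.v (a l)) :=
        DenseRange.piMap (fun _ => h.dense)
      exact (PiLp.continuousLinearEquiv 2 ℂ (fun _ : Fin m => K)).symm.surjective.denseRange.comp
        h4 (PiLp.continuousLinearEquiv 2 ℂ (fun _ : Fin m => K)).symm.continuous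
    have h4 : u j - (kerM B).starProjection (u j) ∈ closure (Set.range fun a => opM Bᴴ (vec a)) := by
      refine closure_minimal ?_ isClosed_closure h2
      rintro _ ⟨x, rfl⟩
      exact map_mem_closure (f := opM Bᴴ) (opM Bᴴ).continuous (h3 x) (by
        rintro _ ⟨a, rfl⟩
        exact ⟨a, rfl⟩)
    have h5 : IsOpen {w : EllN K (Fin m) | ‖w - u j‖ ^ 2 <
        ‖(kerM B).starProjection (u j)‖ ^ 2 + ε} := isOpen_lt (by fun_prop) continuous_const
    obtain ⟨_, hw, a, rfl⟩ := mem_closure_iff.1 h4 _ h5 (by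
      show ‖u j - (kerM B).starProjection (u j) - u j‖ ^ 2 < _
      rw [sub_sub_cancel_left, norm_neg]
      linarith)
    refine ⟨fun l => star (a l), le_of_eq_of_le ?_ (le_of_lt hw)⟩
    rw [PiLp.norm_sq_eq_of_L2]
    refine Finset.sum_congr rfl fun k _ => ?_
    rw [← h.norm_star]
    congr 2
    show _ = (opM Bᴴ (vec a)) k - u j k
    rw [star_sub, map_sub, star_sum, map_sum, opM_apply]
    congr 1
    · refine Finset.sum_congr rfl fun l _ => ?_
      rw [star_mul, star_star, Matrix.conjTranspose_apply]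
      show _ = (star (h.rep (g l k)) : NG h.dat).1 (h.v (a l))
      rw [h.rep_star, h.rep_v]
    · split_ifs with hk
      · rw [star_one, hk]
        exact (inj_self j _).symm
      · rw [star_zero, map_zero]
        exact (inj_ne j k hk _).symm

end Pool.Agent.H386Z.Clear
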