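import Pool.Agent.H386Z.Chi

/-! The algebraic core: a nonzero relation produces relations of rank at least one. -/

set_option autoImplicit false

open Module Pool.Agent.H386Z.Chi

namespace Pool.Agent.H386Z.Core

/-- A matrix rank function on a ring. -/
structure RankFn (W : Type) [Ring W] where
  ρ : ∀ {m k : ℕ}, Matrix (Fin m) (Fin k) W → ℝ
  mul_left : ∀ {m k l : ℕ} (A : Matrix (Fin m) (Fin k) W) (B : Matrix (Fin k) (Fin l) W),
    ρ (A * B) ≤ ρ A
  mul_right : ∀ {m k l : ℕ} (A : Matrix (Fin m) (Fin k) W) (B : Matrix (Fin k) (Fin l) W),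
    ρ (A * B) ≤ ρ B
  sylv : ∀ {m k l : ℕ} (A : Matrix (Fin m) (Fin k) W) (B : Matrix (Fin k) (Fin l) W),
    A * B = 0 → ρ A + ρ B ≤ k
  one : ∀ m : ℕ, ρ (1 : Matrix (Fin m) (Fin m) W) = m
  add : ∀ {m k : ℕ} (A B : Matrix (Fin m) (Fin k) W), ρ (A + B) ≤ ρ A + ρ B
  faithful : ∀ {m k : ℕ} (A : Matrix (Fin m) (Fin k) W), ρ A ≤ 0 → A = 0

theorem GS_crit {E : Type} [DivisionRing E] {n : ℕ} {P : Type} [AddCommGroup P] [Module E P]
    (Y : Fin n → P →ₗ[E] P)
    (h : ∀ (q p : ℕ) (v : Fin q → P) (L : Fin p → (Option (Fin n) × Fin q → E)),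
      LinearIndependent E v → LinearIndependent E L →
      (∀ a, ∑ ib, L a ib • Yo Y ib.1 (v ib.2) = 0) → q ≤ p → ∀ b, v b = 0) : GS Y := by
  intro V hV h0
  obtain ⟨q, p, v, L, hv, hs, hL, hrel, hchi⟩ := exists_rel Y V
  by_contra hc
  have h1 : q ≤ p := by omega
  have h2 := h q p v L hv hL hrel h1
  apply h0
  rw [← hs, Submodule.span_eq_bot]
  rintro _ ⟨b, rfl⟩
  exact h2 b

theorem GS_of_inj {E : Type} [DivisionRing E] {n : ℕ} {P P' : Type} [AddCommGroup P] [Module E P]
    [AddCommGroup P'] [Module E P'] (Y : Fin n → P →ₗ[E] P) (Y' : Fin n → P' →ₗ[E] P')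
    (φ : P →ₗ[E] P') (hφ : ∀ i x, φ (Y i x) = Y' i (φ x)) (hinj : Function.Injective φ)
    (h : GS Y') : GS Y := by
  intro V hV h0
  have h1 := chi_map Y Y' φ hφ V
  rw [LinearMap.ker_eq_bot.2 hinj, inf_bot_eq, chi_bot] at h1
  have h2 : V.map φ ≠ ⊥ := by
    intro h3
    apply h0
    rw [eq_bot_iff]
    intro x hx
    have h4 : φ x ∈ V.map φ := ⟨x, hx, rfl⟩
    rw [h3, Submodule.mem_bot] at h4
    rw [Submodule.mem_bot]
    exact hinj (by rw [h4, map_zero])
  have h3 := h (V.map φ) inferInstance h2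
  omega

variable {E W : Type} [DivisionRing E] [Ring W] [Module E W] [IsScalarTower E W W] {n : ℕ}

/-- Left multiplication by `y i` on a `W`-module, as an `E`-linear map. -/
def YQ (y : Fin n → W) (hy : ∀ i (e : E) (w : W), y i * (e • w) = e • (y i * w))
    (Q : Type) [AddCommGroup Q] [Module W Q] [Module E Q] [IsScalarTower E W Q] (i : Fin n) :
    Q →ₗ[E] Q where
  toFun x := y i • x
  map_add' a b := smul_add _ _ _
  map_smul' e x := by
    show y i • e • x = e • y i • x
    rw [← smul_one_smul W e x, ← mul_smul, hy, mul_one, smul_assoc]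

theorem YQ_apply (y : Fin n → W) (hy : ∀ i (e : E) (w : W), y i * (e • w) = e • (y i * w))
    (Q : Type) [AddCommGroup Q] [Module W Q] [Module E Q] [IsScalarTower E W Q] (i : Fin n)
    (x : Q) : YQ y hy Q i x = y i • x := rfl

/-- The elements `y i` together with `1`. -/
def yo (y : Fin n → W) : Option (Fin n) → W
  | none => 1
  | some i => y i

theorem Yo_YQ (y : Fin n → W) (hy : ∀ i (e : E) (w : W), y i * (e • w) = e • (y i * w))
    (Q : Type) [AddCommGroup Q] [Module W Q] [Module E Q] [IsScalarTower E W Q]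
    (i : Option (Fin n)) (x : Q) : Yo (YQ y hy Q) i x = yo y i • x := by
  cases i with
  | none => exact (one_smul W x).symm
  | some i => rfl

/-- The linear pencil given by a family of relations. -/
def pen (y : Fin n → W) {q p : ℕ} (L : Fin p → (Option (Fin n) × Fin q → E)) :
    Matrix (Fin p) (Fin q) W := fun a b => ∑ i, L a (i, b) • yo y i

theorem pen_mul (y : Fin n → W) (hy : ∀ i (e : E) (w : W), y i * (e • w) = e • (y i * w))
    {q p N : ℕ} (L : Fin p → (Option (Fin n) × Fin q → E)) (v : Fin q → Fin N → W) (a : Fin p) :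
    (pen y L * Matrix.of v) a = ∑ ib, L a ib • Yo (YQ y hy (Fin N → W)) ib.1 (v ib.2) := by
  funext s
  rw [Matrix.mul_apply, Finset.sum_apply, Fintype.sum_prod_type, Finset.sum_comm]
  refine Finset.sum_congr rfl fun b _ => ?_
  unfold pen
  rw [Finset.sum_mul]
  refine Finset.sum_congr rfl fun i _ => ?_
  rw [Yo_YQ, Pi.smul_apply, Pi.smul_apply, smul_eq_mul, smul_mul_assoc]
  rfl

/-- Pencils of relations are right invertible. -/
def Split (y : Fin n → W) (hy : ∀ i (e : E) (w : W), y i * (e • w) = e • (y i * w)) : Prop :=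
  ∀ (N q p : ℕ) (v : Fin q → Fin N → W) (L : Fin p → (Option (Fin n) × Fin q → E)),
    LinearIndependent E v → LinearIndependent E L →
    (∀ a, ∑ ib, L a ib • Yo (YQ y hy (Fin N → W)) ib.1 (v ib.2) = 0) →
    ∃ β : Matrix (Fin q) (Fin p) W, pen y L * β = 1

/-- Every element lies together with `1` in a subspace of defect at most one. -/
def Gen (y : Fin n → W) (hy : ∀ i (e : E) (w : W), y i * (e • w) = e • (y i * w)) : Prop :=
  ∀ w : W, ∃ C : Submodule E W, FiniteDimensional E C ∧ (1 : W) ∈ C ∧ w ∈ C ∧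
    chi (YQ y hy W) C ≤ 1

variable {y : Fin n → W} {hy : ∀ i (e : E) (w : W), y i * (e • w) = e • (y i * w)}

theorem GS_pi (r : RankFn W) (hS : Split y hy) (N : ℕ) : GS (YQ y hy (Fin N → W)) := by
  apply GS_crit
  intro q p v L hv hL hrel hqp
  obtain ⟨β, hβ⟩ := hS N q p v L hv hL hrel
  have h1 : pen y L * Matrix.of v = 0 := by
    funext a
    rw [pen_mul y hy, hrel]
    rfl
  have h2 := r.sylv _ _ h1
  have h3 := r.mul_left (pen y L) β
  rw [hβ, r.one] at h3
  have h4 : (q : ℝ) ≤ p := by exact_mod_cast hqp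
  have h5 := r.faithful (Matrix.of v) (by linarith)
  intro b
  exact congrFun h5 b

theorem GS_self (r : RankFn W) (hS : Split y hy) : GS (YQ y hy W) := by
  refine GS_of_inj _ (YQ y hy (Fin 1 → W)) (LinearMap.pi fun _ => LinearMap.id) ?_ ?_
    (GS_pi r hS 1)
  · intro i x
    rfl
  · intro a b h
    exact congrFun h 0

theorem ext_one (r : RankFn W) (hS : Split y hy) (hG : Gen y hy) {N : ℕ}
    (V : Submodule E (Fin N → W)) [FiniteDimensional E V] (x : Fin N → W) (hx : x ∈ V) (w : W) :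
    ∃ V' : Submodule E (Fin N → W), FiniteDimensional E V' ∧ V ≤ V' ∧ w • x ∈ V' ∧
      (∀ z ∈ V', z ∈ Submodule.span W (V : Set (Fin N → W))) ∧
      chi (YQ y hy (Fin N → W)) V' ≤ chi (YQ y hy (Fin N → W)) V := by
  by_cases h0 : x = 0
  · refine ⟨V, inferInstance, le_rfl, ?_, fun z hz => Submodule.subset_span hz, le_rfl⟩
    rw [h0, smul_zero]
    exact V.zero_mem
  obtain ⟨C, hC, h1, hw, hchi⟩ := hG w
  let φ : W →ₗ[E] (Fin N → W) := (LinearMap.toSpanSingleton W (Fin N → W) x).restrictScalars E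
  have hφ : ∀ c, φ c = c • x := fun c => rfl
  have h2 := chi_map (YQ y hy W) (YQ y hy (Fin N → W)) φ (by
    intro i c
    rw [hφ, hφ, YQ_apply, YQ_apply, smul_eq_mul, mul_smul]) C
  have h3 := (GS_self r hS).nonneg (C ⊓ LinearMap.ker φ)
  have h4 := chi_submod (YQ y hy (Fin N → W)) V (C.map φ)
  have h5 : 1 ≤ chi (YQ y hy (Fin N → W)) (V ⊓ C.map φ) := by
    refine GS_pi r hS N _ inferInstance ?_
    intro h6
    have h7 : x ∈ V ⊓ C.map φ := ⟨hx, 1, h1, by rw [hφ, one_smul]⟩
    rw [h6, Submodule.mem_bot] at h7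
    exact h0 h7
  refine ⟨V ⊔ C.map φ, inferInstance, le_sup_left, ?_, ?_, by omega⟩
  · exact Submodule.mem_sup_right ⟨w, hw, rfl⟩
  · intro z hz
    obtain ⟨a, ha, _, ⟨c, _, rfl⟩, rfl⟩ := Submodule.mem_sup.1 hz
    refine Submodule.add_mem _ (Submodule.subset_span ha) ?_
    rw [hφ]
    exact Submodule.smul_mem _ _ (Submodule.subset_span hx)

theorem ext_span (r : RankFn W) (hS : Split y hy) (hG : Gen y hy) {N : ℕ}
    (T : Set (Fin N → W)) (k : Fin N → W) (hk : k ∈ Submodule.span W T) :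
    ∀ V : Submodule E (Fin N → W), FiniteDimensional E V → T ⊆ V →
      ∃ V' : Submodule E (Fin N → W), FiniteDimensional E V' ∧ V ≤ V' ∧ k ∈ V' ∧
        chi (YQ y hy (Fin N → W)) V' ≤ chi (YQ y hy (Fin N → W)) V := by
  induction hk using Submodule.span_induction with
  | mem x hx => exact fun V hV hT => ⟨V, hV, le_rfl, hT hx, le_rfl⟩
  | zero => exact fun V hV _ => ⟨V, hV, le_rfl, V.zero_mem, le_rfl⟩
  | add a b _ _ iha ihb =>
    intro V hV hT
    obtain ⟨V1, hV1, l1, ha, c1⟩ := iha V hV hT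
    obtain ⟨V2, hV2, l2, hb, c2⟩ := ihb V1 hV1 (hT.trans l1)
    exact ⟨V2, hV2, l1.trans l2, V2.add_mem (l2 ha) hb, c2.trans c1⟩
  | smul w a _ iha =>
    intro V hV hT
    obtain ⟨V1, hV1, l1, ha, c1⟩ := iha V hV hT
    obtain ⟨V2, hV2, l2, hb, _, c2⟩ := ext_one r hS hG V1 a ha w
    exact ⟨V2, hV2, l1.trans l2, hb, c2.trans c1⟩

theorem core (r : RankFn W) (hS : Split y hy) (hG : Gen y hy) {m N : ℕ}
    (J : Matrix (Fin m) (Fin N) W) (t : Fin m → W) (ht : t ≠ 0)
    (htJ : Matrix.vecMul t J = 0) :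
    ∃ g : Matrix (Fin m) (Fin m) W, g * J = 0 ∧ 1 ≤ r.ρ g := by
  have hW : (1 : W) ≠ 0 := by
    intro h
    apply ht
    funext j
    rw [← mul_one (t j), h, mul_zero]
    rfl
  -- the standard basis
  let ee : Fin m → Fin m → W := fun j => Pi.single j 1
  have hee : LinearIndependent E ee := by
    rw [Fintype.linearIndependent_iff]
    intro c hc j
    have h1 := congrFun hc j
    rw [Finset.sum_apply, Finset.sum_eq_single j] at h1
    · by_contra h2
      apply hW
      have h3 : c j • (1 : W) = 0 := by simpa [ee] using h1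
      rw [← one_smul E (1 : W), ← inv_mul_cancel₀ h2, mul_smul, h3, smul_zero]
    · intro b _ hb
      simp [ee, Pi.single_eq_of_ne (Ne.symm hb)]
    · intro h
      exact absurd (Finset.mem_univ j) h
  have hchi0 := chi_le_of_rel (YQ y hy (Fin m → W)) ee (p := 0) (fun a => a.elim0) hee
    (linearIndependent_empty_type) (fun a => a.elim0)
  have htop : t ∈ Submodule.span W (Set.range ee) := by
    rw [Submodule.mem_span_range_iff_exists_fun]
    refine ⟨t, ?_⟩
    funext j
    rw [Finset.sum_apply, Finset.sum_eq_single j]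
    · simp [ee]
    · intro b _ hb
      simp [ee, Pi.single_eq_of_ne (Ne.symm hb)]
    · intro h
      exact absurd (Finset.mem_univ j) h
  haveI : FiniteDimensional E (Submodule.span E (Set.range ee)) :=
    FiniteDimensional.span_of_finite E (Set.finite_range ee)
  obtain ⟨V1, hV1, l1, ht1, c1⟩ := ext_span r hS hG (Set.range ee) t htop
    (Submodule.span E (Set.range ee)) inferInstance Submodule.subset_span
  let μ : (Fin m → W) →ₗ[E] (Fin N → W) := (Fintype.linearCombination W J).restrictScalars E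
  have hμ : ∀ x, μ x = Matrix.vecMul x J := by
    intro x
    show Fintype.linearCombination W J x = _
    rw [Fintype.linearCombination_apply]
    funext s
    rw [Finset.sum_apply]
    rfl
  have h2 := chi_map (YQ y hy (Fin m → W)) (YQ y hy (Fin N → W)) μ (by
    intro i x
    rw [YQ_apply, YQ_apply]
    exact map_smul (Fintype.linearCombination W J) (y i) x) V1
  have h3 : 1 ≤ chi (YQ y hy (Fin m → W)) (V1 ⊓ LinearMap.ker μ) := by
    refine GS_pi r hS m _ inferInstance ?_
    intro h6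
    have h7 : t ∈ V1 ⊓ LinearMap.ker μ := ⟨ht1, by
      show μ t = 0
      rw [hμ, htJ]⟩
    rw [h6, Submodule.mem_bot] at h7
    exact ht h7
  obtain ⟨q, p, v, L, hv, hs, hL, hrel, hchi⟩ := exists_rel (YQ y hy (Fin N → W)) (V1.map μ)
  have hqp : (q : ℤ) - p ≤ m - 1 := by
    simp only [Nat.cast_zero, sub_zero] at hchi0
    omega
  obtain ⟨β, hβ⟩ := hS N q p v L hv hL hrel
  have hLv : pen y L * Matrix.of v = 0 := by
    funext a
    rw [pen_mul y hy, hrel]
    rfl
  -- J = γ v
  have hγ : ∀ j, ∃ c : Fin q → E, ∑ b, c b • v b = J j := by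
    intro j
    rw [← Submodule.mem_span_range_iff_exists_fun, hs]
    refine ⟨ee j, l1 (Submodule.subset_span ⟨j, rfl⟩), ?_⟩
    rw [hμ]
    simp [ee]
    rfl
  choose c hc using hγ
  let γ : Matrix (Fin m) (Fin q) W := fun j b => c j b • (1 : W)
  have hγv : γ * Matrix.of v = J := by
    funext j s
    rw [Matrix.mul_apply, ← hc j, Finset.sum_apply]
    refine Finset.sum_congr rfl fun b _ => ?_
    show (c j b • (1 : W)) * v b s = c j b • v b s
    rw [smul_mul_assoc, one_mul]
  -- v = δ J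
  have hδ : ∀ b, ∃ d : Fin m → W, Matrix.vecMul d J = v b := by
    intro b
    have h4 : v b ∈ V1.map μ := by
      rw [← hs]
      exact Submodule.subset_span ⟨b, rfl⟩
    obtain ⟨d, _, hd⟩ := h4
    exact ⟨d, by rw [← hμ, hd]⟩
  choose δ hδ' using hδ
  have hδJ : Matrix.of δ * J = Matrix.of v := by
    funext b s
    exact congrFun (hδ' b) s
  let e : Matrix (Fin q) (Fin q) W := 1 - β * pen y L
  have hev : e * Matrix.of v = Matrix.of v := by
    show (1 - β * pen y L) * Matrix.of v = _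
    rw [Matrix.sub_mul, Matrix.one_mul, Matrix.mul_assoc, hLv, Matrix.mul_zero, sub_zero]
  have hLe : pen y L * e = 0 := by
    show pen y L * (1 - β * pen y L) = 0
    rw [Matrix.mul_sub, Matrix.mul_one, ← Matrix.mul_assoc, hβ, Matrix.one_mul, sub_self]
  refine ⟨1 - γ * e * Matrix.of δ, ?_, ?_⟩
  · rw [Matrix.sub_mul, Matrix.one_mul, Matrix.mul_assoc, hδJ, Matrix.mul_assoc, hev, hγv,
      sub_self]
  · have a1 := r.add (1 - γ * e * Matrix.of δ) (γ * e * Matrix.of δ)
    rw [sub_add_cancel, r.one] at a1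
    have a2 := r.mul_left (γ * e) (Matrix.of δ)
    have a3 := r.mul_right γ e
    have a4 := r.sylv _ _ hLe
    have a5 := r.mul_left (pen y L) β
    rw [hβ, r.one] at a5
    have a6 : (q : ℝ) - p ≤ m - 1 := by exact_mod_cast hqp
    linarith

end Pool.Agent.H386Z.Core
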