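import Pool.Agent.H386Z.Util

/-! Construction of the division ring generated by `y` inside the algebra of affiliated
operators. -/

set_option autoImplicit false

open Module Pool.Agent.H386Z.Chi Pool.Agent.H386Z.Core Pool.Agent.H386Z.Util
open scoped TensorProduct
open MulOpposite

namespace Pool.Agent.H386Z.DRing

/-- The universal derivation. -/
noncomputable def dl {B : Type} [Ring B] [Algebra ℂ B] (c : B) : Bᵐᵒᵖ ⊗[ℂ] B :=
  op c ⊗ₜ[ℂ] 1 - 1 ⊗ₜ[ℂ] c

/-- No nontrivial algebraic relation between the `dl (y i)`. -/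
def Tor {B : Type} [Ring B] [Algebra ℂ B] {n : ℕ} (y : Fin n → B) : Prop :=
  ∀ T : Fin n → Bᵐᵒᵖ ⊗[ℂ] B, ∑ i, T i * dl (y i) = 0 → ∀ i, T i = 0

theorem hyA {B : Type} [Ring B] [Algebra ℂ B] {n : ℕ} (y : Fin n → B) :
    ∀ i (e : ℂ) (w : B), y i * (e • w) = e • (y i * w) := fun _ _ _ => mul_smul_comm _ _ _

theorem tor_option {B : Type} [Ring B] [Algebra ℂ B] {n : ℕ} {y : Fin n → B} (hT : Tor y)
    (T : Option (Fin n) → Bᵐᵒᵖ ⊗[ℂ] B)
    (h1 : ∑ i, T i * (op (yo y i) ⊗ₜ[ℂ] 1) = 0) (h2 : ∑ i, T i * (1 ⊗ₜ[ℂ] yo y i) = 0) :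
    ∀ i, T i = 0 := by
  have h3 : ∑ i, T (some i) * dl (y i) = 0 := by
    have h4 : ∑ i, T i * (op (yo y i) ⊗ₜ[ℂ] 1) - ∑ i, T i * (1 ⊗ₜ[ℂ] yo y i) = 0 := by
      rw [h1, h2, sub_self]
    rw [← Finset.sum_sub_distrib, Fintype.sum_option] at h4
    have h5 : T none * (op (yo y none) ⊗ₜ[ℂ] 1) - T none * (1 ⊗ₜ[ℂ] yo y none) = 0 := by
      show T none * (op 1 ⊗ₜ[ℂ] 1) - T none * (1 ⊗ₜ[ℂ] 1) = 0
      rw [op_one, sub_self]
    rw [h5, zero_add] at h4
    rw [← h4]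
    refine Finset.sum_congr rfl fun i _ => ?_
    rw [dl, mul_sub]
    rfl
  have h6 := hT _ h3
  intro i
  cases i with
  | some i => exact h6 i
  | none =>
    rw [Fintype.sum_option, Finset.sum_eq_zero (fun i _ => by rw [h6 i, zero_mul]), add_zero] at h2
    have h7 : (1 : Bᵐᵒᵖ) ⊗ₜ[ℂ] yo y none = 1 := rfl
    rwa [h7, mul_one] at h2

variable {U : Type} [Ring U] [Algebra ℂ U] {n : ℕ} {y : Fin n → U}

theorem left_inj (hT : Tor y) {q p : ℕ} (v : Fin q → U)
    (L : Fin p → (Option (Fin n) × Fin q → ℂ)) (hv : LinearIndependent ℂ v)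
    (hL : LinearIndependent ℂ L)
    (hrel : ∀ a, ∑ ib, L a ib • Yo (YQ y (hyA y) U) ib.1 (v ib.2) = 0) (u : Fin p → U)
    (hu : Matrix.vecMul u (pen y L) = 0) : u = 0 := by
  let T : Option (Fin n) → Uᵐᵒᵖ ⊗[ℂ] U := fun i =>
    ∑ a, ∑ b, L a (i, b) • (op (v b) ⊗ₜ[ℂ] u a)
  have h1 : ∑ i, T i * (op (yo y i) ⊗ₜ[ℂ] 1) = 0 := by
    have h2 : ∀ a, ∑ i, ∑ b, L a (i, b) • (op (v b) ⊗ₜ[ℂ] u a) * (op (yo y i) ⊗ₜ[ℂ] (1 : U)) = 0 := by
      intro a
      have h3 := hrel a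
      rw [Fintype.sum_prod_type] at h3
      have h4 := congrArg (fun z : U => op z ⊗ₜ[ℂ] u a) h3
      simp only [op_zero, TensorProduct.zero_tmul] at h4
      rw [← h4, Finset.op_sum, TensorProduct.sum_tmul]
      refine Finset.sum_congr rfl fun i _ => ?_
      rw [Finset.op_sum, TensorProduct.sum_tmul]
      refine Finset.sum_congr rfl fun b _ => ?_
      rw [Yo_YQ, smul_eq_mul, op_smul, op_mul, smul_mul_assoc, Algebra.TensorProduct.tmul_mul_tmul,
        mul_one, TensorProduct.smul_tmul']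
    simp only [T, Finset.sum_mul]
    rw [Finset.sum_comm]
    exact Finset.sum_eq_zero fun a _ => h2 a
  have h2 : ∑ i, T i * (1 ⊗ₜ[ℂ] yo y i) = 0 := by
    have h2 : ∀ b, ∑ a, ∑ i, L a (i, b) • (op (v b) ⊗ₜ[ℂ] u a) * ((1 : Uᵐᵒᵖ) ⊗ₜ[ℂ] yo y i) = 0 := by
      intro b
      have h3 : ∑ a, u a * pen y L a b = 0 := congrFun hu b
      have h4 := congrArg (fun z : U => op (v b) ⊗ₜ[ℂ] z) h3
      simp only [TensorProduct.tmul_zero] at h4
      rw [← h4, TensorProduct.tmul_sum]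
      refine Finset.sum_congr rfl fun a _ => ?_
      unfold pen
      rw [Finset.mul_sum, TensorProduct.tmul_sum]
      refine Finset.sum_congr rfl fun i _ => ?_
      rw [smul_mul_assoc, Algebra.TensorProduct.tmul_mul_tmul, mul_one, mul_smul_comm,
        TensorProduct.tmul_smul]
    simp only [T, Finset.sum_mul]
    rw [Finset.sum_comm]
    rw [Finset.sum_congr rfl fun a _ => Finset.sum_comm]
    rw [Finset.sum_comm]
    exact Finset.sum_eq_zero fun b _ => h2 b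
  have h3 := tor_option hT T h1 h2
  obtain ⟨φ, hφ⟩ := exists_dual v hv
  have h4 : ∀ i b, ∑ a, L a (i, b) • u a = 0 := by
    intro i b
    let κ : Uᵐᵒᵖ ⊗[ℂ] U →ₗ[ℂ] U := TensorProduct.lift
      ((LinearMap.lsmul ℂ U).comp ((φ b).comp (opLinearEquiv ℂ).symm.toLinearMap))
    have hκ : ∀ x z, κ (op x ⊗ₜ[ℂ] z) = φ b x • z := fun x z => rfl
    have h5 := congrArg κ (h3 i)
    rw [map_zero] at h5
    rw [← h5]
    simp only [T, map_sum, map_smul, hκ, hφ]
    refine Finset.sum_congr rfl fun a _ => ?_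
    rw [Finset.sum_eq_single b]
    · simp
    · intro b' _ hb
      simp [hb]
    · intro h
      exact absurd (Finset.mem_univ b) h
  obtain ⟨c, hc⟩ := exists_rinv L hL
  funext a'
  have h5 : ∑ ib : Option (Fin n) × Fin q, c ib a' • ∑ a, L a ib • u a = 0 :=
    Finset.sum_eq_zero fun ib _ => by rw [h4 ib.1 ib.2, smul_zero]
  simp only [Finset.smul_sum, smul_smul] at h5
  rw [Finset.sum_comm] at h5
  have h6 : ∀ a, ∑ ib : Option (Fin n) × Fin q, (c ib a' * L a ib) • u a =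
      (if a = a' then (1 : ℂ) else 0) • u a := by
    intro a
    rw [← Finset.sum_smul, ← hc a a']
    congr 1
    exact Finset.sum_congr rfl fun ib _ => mul_comm _ _
  simp only [h6] at h5
  rw [Finset.sum_eq_single a'] at h5
  · simpa using h5
  · intro b' _ hb
    simp [hb]
  · intro h
    exact absurd (Finset.mem_univ a') h

theorem gs_U (r : RankFn U)
    (hfull : ∀ (p q : ℕ) (A : Matrix (Fin p) (Fin q) U),
      (∀ u, Matrix.vecMul u A = 0 → u = 0) → (p : ℝ) ≤ r.ρ A)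
    (hT : Tor y) : GS (YQ y (hyA y) U) := by
  apply GS_crit
  intro q p v L hv hL hrel hqp
  have h1 := hfull p q (pen y L) (left_inj hT v L hv hL hrel)
  have h2 : pen y L * Matrix.of (fun b (_ : Fin 1) => v b) = 0 := by
    funext a s
    rw [Matrix.mul_apply]
    show _ = (0 : U)
    rw [← hrel a, Fintype.sum_prod_type, Finset.sum_comm]
    refine Finset.sum_congr rfl fun b _ => ?_
    unfold pen
    rw [Finset.sum_mul]
    refine Finset.sum_congr rfl fun i _ => ?_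
    rw [Yo_YQ, smul_eq_mul, smul_mul_assoc]
    rfl
  have h3 := r.sylv _ _ h2
  have h4 : (q : ℝ) ≤ p := by exact_mod_cast hqp
  have h5 := r.faithful (Matrix.of (fun b (_ : Fin 1) => v b)) (by linarith)
  intro b
  exact congrFun (congrFun h5 b) 0

/-- witnesses -/
def Wit (y : Fin n → U) (d : U) : Prop :=
  ∃ C : Submodule ℂ U, FiniteDimensional ℂ C ∧ (1 : U) ∈ C ∧ d ∈ C ∧ chi (YQ y (hyA y) U) C ≤ 1

theorem chi_rmul (hG : GS (YQ y (hyA y) U)) (C : Submodule ℂ U) [FiniteDimensional ℂ C] (x : U) :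
    chi (YQ y (hyA y) U) (C.map (LinearMap.mulRight ℂ x)) +
      chi (YQ y (hyA y) U) (C ⊓ LinearMap.ker (LinearMap.mulRight ℂ x)) ≤
      chi (YQ y (hyA y) U) C ∧
    chi (YQ y (hyA y) U) (C.map (LinearMap.mulRight ℂ x)) ≤ chi (YQ y (hyA y) U) C := by
  have h1 := chi_map (YQ y (hyA y) U) (YQ y (hyA y) U) (LinearMap.mulRight ℂ x) (by
    intro i z
    show (y i * z) * x = y i * (z * x)
    rw [mul_assoc]) C
  have h2 := hG.nonneg (C ⊓ LinearMap.ker (LinearMap.mulRight ℂ x))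
  exact ⟨h1, by omega⟩

theorem wit_smul_one [Nontrivial U] (c : ℂ) : Wit y (c • 1) :=
  ⟨Submodule.span ℂ {1}, inferInstance, Submodule.mem_span_singleton_self _,
    Submodule.smul_mem _ _ (Submodule.mem_span_singleton_self _), chi_one _ _ one_ne_zero⟩

theorem wit_add [Nontrivial U] (hG : GS (YQ y (hyA y) U)) {a b : U} (ha : Wit y a)
    (hb : Wit y b) : Wit y (a + b) := by
  obtain ⟨C, hC, c1, ca, cc⟩ := ha
  obtain ⟨C', hC', c1', cb, cc'⟩ := hb
  exact ⟨C ⊔ C', inferInstance, Submodule.mem_sup_left c1, Submodule.add_mem_sup ca cb,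
    chi_sup_le hG C C' 1 one_ne_zero c1 c1' cc cc'⟩

theorem wit_mul [Nontrivial U] (hG : GS (YQ y (hyA y) U)) {a b : U} (ha : Wit y a)
    (hb : Wit y b) : Wit y (a * b) := by
  by_cases h0 : b = 0
  · have h1 := wit_smul_one (y := y) 0
    rw [zero_smul] at h1
    rw [h0, mul_zero]
    exact h1
  obtain ⟨C, hC, c1, ca, cc⟩ := ha
  obtain ⟨C', hC', c1', cb, cc'⟩ := hb
  refine ⟨C' ⊔ C.map (LinearMap.mulRight ℂ b), inferInstance, Submodule.mem_sup_left c1',
    Submodule.mem_sup_right ⟨a, ca, rfl⟩, ?_⟩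
  refine chi_sup_le hG _ _ b h0 cb ⟨1, c1, one_mul b⟩ cc' ?_
  exact (chi_rmul hG C b).2.trans cc

theorem wit_ann (hG : GS (YQ y (hyA y) U)) {d : U} (hd : Wit y d) (h0 : d ≠ 0) (x : U)
    (hx : d * x = 0) : x = 0 := by
  by_contra hx0
  obtain ⟨C, hC, c1, cd, cc⟩ := hd
  have h1 := (chi_rmul hG C x).1
  have h2 : 1 ≤ chi (YQ y (hyA y) U) (C.map (LinearMap.mulRight ℂ x)) := by
    refine hG _ inferInstance ?_
    intro h
    have h3 : x ∈ C.map (LinearMap.mulRight ℂ x) := ⟨1, c1, one_mul x⟩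
    rw [h, Submodule.mem_bot] at h3
    exact hx0 h3
  have h3 : 1 ≤ chi (YQ y (hyA y) U) (C ⊓ LinearMap.ker (LinearMap.mulRight ℂ x)) := by
    refine hG _ inferInstance ?_
    intro h
    have h3 : d ∈ C ⊓ LinearMap.ker (LinearMap.mulRight ℂ x) := ⟨cd, hx⟩
    rw [h, Submodule.mem_bot] at h3
    exact h0 h3
  omega

theorem wit_inv (hG : GS (YQ y (hyA y) U)) {d d' : U} (hd : Wit y d) (h : d * d' = 1) :
    Wit y d' := by
  obtain ⟨C, hC, c1, cd, cc⟩ := hd
  exact ⟨C.map (LinearMap.mulRight ℂ d'), inferInstance, ⟨d, cd, h⟩, ⟨1, c1, one_mul d'⟩,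
    (chi_rmul hG C d').2.trans cc⟩

theorem wit_y [Nontrivial U] (i : Fin n) : Wit y (y i) := by
  by_cases h : y i ∈ Submodule.span ℂ {(1 : U)}
  · obtain ⟨c, hc⟩ := Submodule.mem_span_singleton.1 h
    rw [← hc]
    exact wit_smul_one c
  have hv : LinearIndependent ℂ ![y i, (1 : U)] := by
    rw [linearIndependent_fin2]
    refine ⟨one_ne_zero, fun a ha => h ?_⟩
    exact Submodule.mem_span_singleton.2 ⟨a, ha⟩
  let L : Fin 1 → (Option (Fin n) × Fin 2 → ℂ) := fun _ =>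
    Pi.single (none, 0) 1 - Pi.single (some i, 1) 1
  have hL : LinearIndependent ℂ L := by
    rw [linearIndependent_unique_iff]
    intro h1
    have h2 := congrFun h1 (none, 0)
    simp [L] at h2
  have h1 := chi_le_of_rel (YQ y (hyA y) U) ![y i, (1 : U)] L hv hL (by
    intro a
    simp only [L, Pi.sub_apply, sub_smul, Finset.sum_sub_distrib, Pi.single_apply, ite_smul,
      one_smul, zero_smul, Finset.sum_ite_eq', Finset.mem_univ, if_true]
    rw [Yo_YQ, Yo_YQ]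
    simp [yo])
  refine ⟨Submodule.span ℂ (Set.range ![y i, (1 : U)]),
    FiniteDimensional.span_of_finite ℂ (Set.finite_range _), Submodule.subset_span ⟨1, rfl⟩,
    Submodule.subset_span ⟨0, rfl⟩, ?_⟩
  simpa using h1

/-- the subalgebra of elements with a witness -/
def DA [Nontrivial U] (hG : GS (YQ y (hyA y) U)) : Subalgebra ℂ U where
  carrier := {d | Wit y d}
  mul_mem' := wit_mul hG
  add_mem' := wit_add hG
  algebraMap_mem' c := by
    rw [Algebra.algebraMap_eq_smul_one]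
    exact wit_smul_one c

theorem exists_D [Nontrivial U] (hG : GS (YQ y (hyA y) U))
    (hunit : ∀ d : U, (∀ x, d * x = 0 → x = 0) → IsUnit d) :
    ∃ (D : Type) (_ : DivisionRing D) (_ : Algebra ℂ D) (e : D →ₐ[ℂ] U) (yD : Fin n → D),
      Function.Injective e ∧ (∀ i, e (yD i) = y i) ∧ Gen yD (hyA yD) := by
  have h1 : ∀ a : DA hG, IsUnit a ∨ a = 0 := by
    intro a
    by_cases h0 : a = 0
    · exact Or.inr h0
    left
    have h2 : (a : U) ≠ 0 := fun h => h0 (Subtype.ext h)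
    obtain ⟨w, hw⟩ := hunit a (wit_ann hG a.2 h2)
    have h3 : (a : U) * ↑w⁻¹ = 1 := by rw [← hw, Units.mul_inv]
    have h4 : ↑w⁻¹ * (a : U) = 1 := by rw [← hw, Units.inv_mul]
    exact ⟨⟨a, ⟨↑w⁻¹, wit_inv hG a.2 h3⟩, Subtype.ext h3, Subtype.ext h4⟩, rfl⟩
  refine ⟨DA hG, DivisionRing.ofIsUnitOrEqZero h1, (DA hG).algebra, (DA hG).val,
    fun i => ⟨y i, wit_y i⟩, Subtype.val_injective, fun i => rfl, ?_⟩
  intro d
  obtain ⟨C, hC, c1, cd, cc⟩ := d.2
  have hCD : ∀ x ∈ C, x ∈ DA hG := fun x hx => ⟨C, hC, c1, hx, cc⟩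
  let φ : DA hG →ₗ[ℂ] U := (DA hG).val.toLinearMap
  have hφ : Function.Injective φ := Subtype.val_injective
  have hmap : (C.comap φ).map φ = C := by
    apply le_antisymm (Submodule.map_comap_le _ _)
    intro x hx
    exact ⟨⟨x, hCD x hx⟩, hx, rfl⟩
  refine ⟨C.comap φ, ?_, c1, cd, ?_⟩
  · have h2 : FiniteDimensional ℂ ((C.comap φ).map φ) := by
      rw [hmap]
      exact hC
    exact Module.Finite.equiv (Submodule.equivMapOfInjective φ hφ _).symm
  · rw [← chi_map_inj _ (YQ y (hyA y) U) φ (fun i x => rfl) hφ, hmap]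
    exact cc

end Pool.Agent.H386Z.DRing
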