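import Pool.Agent.H386Z.HA

/-! Vanishing from distance estimates. -/

set_option autoImplicit false

open scoped InnerProductSpace

namespace Pool.Agent.H386Z.HA

theorem num_end (N C : ℝ) (hN : 0 < N) (hC : 0 ≤ C) (key : ∀ ε : ℝ, 0 ≤ ε ^ 2 * C - 2 * ε * N) :
    False := by
  have h3 := key (N / (C + 1))
  have h4 : 0 < C + 1 := by linarith
  have h5 : (N / (C + 1)) ^ 2 * C - 2 * (N / (C + 1)) * N =
      -(N ^ 2 * (C + 2) / (C + 1) ^ 2) := by
    field_simp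
    ring
  rw [h5] at h3
  have h6 : 0 < N ^ 2 * (C + 2) / (C + 1) ^ 2 := by positivity
  linarith

variable {K : Type} [NormedAddCommGroup K] [InnerProductSpace ℂ K]
variable {A : Type} [Ring A] [StarRing A] [Algebra ℂ A] (h : HAlg A K)

theorem HAlg.expand (t : A) (ε : ℝ) :
    ‖h.v ((ε : ℂ) • (star t * t) - 1)‖ ^ 2 =
      ε ^ 2 * ‖h.v (star t * t)‖ ^ 2 + (1 - 2 * ε * ‖h.v t‖ ^ 2) := by
  have h1 : ⟪h.v (star t * t), h.v 1⟫_ℂ = ((‖h.v t‖ ^ 2 : ℝ) : ℂ) := by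
    rw [h.inner_eq, mul_one, star_mul, star_star, ← h.inner_eq, inner_self_eq_norm_sq_to_K]
    push_cast
    rfl
  rw [map_sub, map_smul, @norm_sub_sq ℂ, h.norm_one, norm_smul, inner_smul_left, h1,
    Complex.norm_real, mul_pow, Real.norm_eq_abs, sq_abs, Complex.conj_ofReal,
    ← Complex.ofReal_mul]
  have h5 : RCLike.re ((ε * ‖h.v t‖ ^ 2 : ℝ) : ℂ) = ε * ‖h.v t‖ ^ 2 := Complex.ofReal_re _
  rw [h5]
  ring

theorem HAlg.vanish {n : ℕ} (t : Fin n → A) (j : Fin n)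
    (key : ∀ ε : ℝ, 1 ≤ ∑ k, ‖h.v ((ε : ℂ) • (star (t j) * t k) - if k = j then 1 else 0)‖ ^ 2) :
    h.v (t j) = 0 := by
  by_contra h0
  refine num_end (‖h.v (t j)‖ ^ 2) (∑ k, ‖h.v (star (t j) * t k)‖ ^ 2)
    (pow_pos (norm_pos_iff.2 h0) 2) (Finset.sum_nonneg fun _ _ => sq_nonneg _) fun ε => ?_
  have h3 := key ε
  have h4 : ∀ k, ‖h.v ((ε : ℂ) • (star (t j) * t k) - if k = j then 1 else 0)‖ ^ 2 =
      ε ^ 2 * ‖h.v (star (t j) * t k)‖ ^ 2 +
        if k = j then 1 - 2 * ε * ‖h.v (t j)‖ ^ 2 else 0 := by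
    intro k
    split_ifs with hk
    · rw [hk, h.expand]
    · rw [sub_zero, add_zero, map_smul, norm_smul, Complex.norm_real, mul_pow, Real.norm_eq_abs,
        sq_abs]
  simp only [h4] at h3
  rw [Finset.sum_add_distrib, ← Finset.mul_sum, Finset.sum_ite_eq' Finset.univ j,
    if_pos (Finset.mem_univ j)] at h3
  linarith

end Pool.Agent.H386Z.HA
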