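import Pool.Agent.H386Z.VNGen

/-! Hilbert algebras with unit. -/

set_option autoImplicit false

open scoped InnerProductSpace
open Pool.Agent.H386Z.VG Pool.Agent.RK

namespace Pool.Agent.H386Z.HA

variable {K : Type} [NormedAddCommGroup K] [InnerProductSpace ℂ K] [CompleteSpace K]

theorem ext_dense {A K' : Type} [NormedAddCommGroup K'] [NormedSpace ℂ K'] {v : A → K}
    (hd : DenseRange v) {S T : K →L[ℂ] K'} (h : ∀ x, S (v x) = T (v x)) : S = T := by
  ext1 z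
  exact hd.induction_on z (isClosed_eq S.continuous T.continuous) h

theorem eq_zero_dense {A : Type} {v : A → K} (hd : DenseRange v) (z : K)
    (h : ∀ x, ⟪v x, z⟫_ℂ = 0) : z = 0 := by
  have h1 : ∀ w, ⟪w, z⟫_ℂ = 0 := fun w =>
    hd.induction_on (p := fun w => ⟪w, z⟫_ℂ = 0) w
      (isClosed_eq (by fun_prop) continuous_const) h
  exact inner_self_eq_zero.1 (h1 z)

theorem comm_norm_le {A : Type} (Ω : K) (T : A → (K →L[ℂ] K)) (hd : DenseRange fun x => T x Ω)
    (hs : ∀ x, ‖star (T x) Ω‖ ≤ ‖T x Ω‖) (r : K →L[ℂ] K) (hr : ∀ x, T x * r = r * T x) :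
    ‖star r Ω‖ ≤ ‖r Ω‖ := by
  have h1 : ∀ w, ‖⟪star r Ω, w⟫_ℂ‖ ≤ ‖w‖ * ‖r Ω‖ := by
    intro w
    refine hd.induction_on (p := fun w => ‖⟪star r Ω, w⟫_ℂ‖ ≤ ‖w‖ * ‖r Ω‖) w
      (isClosed_le (by fun_prop) (by fun_prop)) ?_
    intro x
    have h2 : ⟪star r Ω, T x Ω⟫_ℂ = ⟪star (T x) Ω, r Ω⟫_ℂ := by
      rw [ContinuousLinearMap.star_eq_adjoint, ContinuousLinearMap.star_eq_adjoint,
        ContinuousLinearMap.adjoint_inner_left, ContinuousLinearMap.adjoint_inner_left]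
      congr 1
      exact (congrArg (fun z : K →L[ℂ] K => z Ω) (hr x)).symm
    show ‖⟪star r Ω, T x Ω⟫_ℂ‖ ≤ ‖T x Ω‖ * ‖r Ω‖
    rw [h2]
    exact (norm_inner_le_norm _ _).trans (mul_le_mul_of_nonneg_right (hs x) (norm_nonneg _))
  have h2 := h1 (star r Ω)
  rw [inner_self_eq_norm_sq_to_K] at h2
  have h3 : ‖star r Ω‖ * ‖star r Ω‖ ≤ ‖star r Ω‖ * ‖r Ω‖ := by
    simpa [sq] using h2
  by_cases h0 : ‖star r Ω‖ = 0
  · rw [h0]
    exact norm_nonneg _
  · exact le_of_mul_le_mul_left h3 (lt_of_le_of_ne (norm_nonneg _) (Ne.symm h0))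

theorem trace_of_norm (Ω : K) (N : StarSubalgebra ℂ (K →L[ℂ] K))
    (h : ∀ r ∈ N, ‖star r Ω‖ = ‖r Ω‖) (r s : K →L[ℂ] K) (hr : r ∈ N) (hs : s ∈ N) :
    ⟪Ω, (r * s) Ω⟫_ℂ = ⟪Ω, (s * r) Ω⟫_ℂ := by
  have key : ∀ x ∈ N, ∀ y ∈ N, ⟪x Ω, y Ω⟫_ℂ = ⟪star y Ω, star x Ω⟫_ℂ := by
    intro x hx y hy
    rw [inner_eq_sum_norm_sq_div_four, inner_eq_sum_norm_sq_div_four (star y Ω)]
    have e1 : ‖star y Ω + star x Ω‖ = ‖x Ω + y Ω‖ := by
      have h1 := h (x + y) (N.add_mem hx hy)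
      rw [star_add, add_comm (star x)] at h1
      exact h1
    have e2 : ‖star y Ω - star x Ω‖ = ‖x Ω - y Ω‖ := by
      have h1 := h (y - x) (N.sub_mem hy hx)
      rw [star_sub] at h1
      rw [norm_sub_rev (x Ω)]
      exact h1
    have e3 : ‖star y Ω - (RCLike.I : ℂ) • star x Ω‖ = ‖x Ω - (RCLike.I : ℂ) • y Ω‖ := by
      have h1 := h (y + Complex.I • x) (N.add_mem hy (N.smul_mem hx _))
      rw [star_add, star_smul, Complex.star_def, Complex.conj_I, neg_smul, ← sub_eq_add_neg] at h1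
      have h2 : (y + Complex.I • x) Ω = Complex.I • (x Ω - (RCLike.I : ℂ) • y Ω) := by
        show y Ω + Complex.I • x Ω = Complex.I • (x Ω - Complex.I • y Ω)
        rw [smul_sub, smul_smul, Complex.I_mul_I, neg_smul, one_smul, sub_neg_eq_add, add_comm]
      rw [h2, norm_smul, Complex.norm_I, one_mul] at h1
      exact h1
    have e4 : ‖star y Ω + (RCLike.I : ℂ) • star x Ω‖ = ‖x Ω + (RCLike.I : ℂ) • y Ω‖ := by
      have h1 := h (y - Complex.I • x) (N.sub_mem hy (N.smul_mem hx _))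
      rw [star_sub, star_smul, Complex.star_def, Complex.conj_I, neg_smul, sub_neg_eq_add] at h1
      have h2 : (y - Complex.I • x) Ω = (-Complex.I) • (x Ω + (RCLike.I : ℂ) • y Ω) := by
        show y Ω - Complex.I • x Ω = (-Complex.I) • (x Ω + Complex.I • y Ω)
        rw [smul_add, smul_smul, neg_mul, Complex.I_mul_I, neg_neg, one_smul, neg_smul,
          sub_eq_add_neg, add_comm]
      rw [h2, norm_smul, norm_neg, Complex.norm_I, one_mul] at h1
      exact h1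
    rw [e1, e2, e3, e4]
  have h1 := key (star r) (star_mem hr) s hs
  rw [star_star, ContinuousLinearMap.star_eq_adjoint, ContinuousLinearMap.star_eq_adjoint,
    ContinuousLinearMap.adjoint_inner_left, ContinuousLinearMap.adjoint_inner_left] at h1
  exact h1

/-- A unital Hilbert algebra together with its completion. -/
structure HAlg (A K : Type) [Ring A] [StarRing A] [Algebra ℂ A] [NormedAddCommGroup K]
    [InnerProductSpace ℂ K] where
  v : A →ₗ[ℂ] K
  φ : A →ₗ[ℂ] ℂ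
  dense : DenseRange v
  inner_eq : ∀ x y, ⟪v x, v y⟫_ℂ = φ (star x * y)
  comm : ∀ x y, φ (x * y) = φ (y * x)
  one : φ 1 = 1
  bdd : ∀ s, ∃ C : ℝ, ∀ x, ‖v (s * x)‖ ≤ C * ‖v x‖

variable {A : Type} [Ring A] [StarRing A] [Algebra ℂ A] (h : HAlg A K)

omit [CompleteSpace K] in
theorem HAlg.norm_star (x : A) : ‖h.v (star x)‖ = ‖h.v x‖ := by
  have h1 : ⟪h.v (star x), h.v (star x)⟫_ℂ = ⟪h.v x, h.v x⟫_ℂ := by
    rw [h.inner_eq, h.inner_eq, star_star, h.comm]
  rw [inner_self_eq_norm_sq_to_K, inner_self_eq_norm_sq_to_K] at h1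
  have h2 : ‖h.v (star x)‖ ^ 2 = ‖h.v x‖ ^ 2 := by exact_mod_cast h1
  exact (sq_eq_sq₀ (norm_nonneg _) (norm_nonneg _)).1 h2

omit [CompleteSpace K] in
theorem HAlg.norm_one : ‖h.v 1‖ = 1 := by
  have h1 : ⟪h.v 1, h.v 1⟫_ℂ = 1 := by rw [h.inner_eq, star_one, mul_one, h.one]
  have h2 : ‖h.v 1‖ ^ 2 = 1 ^ 2 := by
    rw [one_pow, ← inner_self_eq_norm_sq (𝕜 := ℂ), h1]
    simp
  exact (sq_eq_sq₀ (norm_nonneg _) zero_le_one).1 h2

omit [CompleteSpace K] in
theorem HAlg.bdd' (s : A) : ∃ C : ℝ, ∀ x, ‖h.v (x * s)‖ ≤ C * ‖h.v x‖ := by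
  obtain ⟨C, hC⟩ := h.bdd (star s)
  refine ⟨C, fun x => ?_⟩
  rw [← h.norm_star, star_mul, ← h.norm_star x]
  exact hC _

/-- left multiplication -/
noncomputable def HAlg.lm (s : A) : K →L[ℂ] K :=
  (h.v.comp (LinearMap.mulLeft ℂ s)).extendOfNorm h.v

/-- right multiplication -/
noncomputable def HAlg.rm (s : A) : K →L[ℂ] K :=
  (h.v.comp (LinearMap.mulRight ℂ s)).extendOfNorm h.v

theorem HAlg.lm_v (s x : A) : h.lm s (h.v x) = h.v (s * x) :=
  LinearMap.extendOfNorm_eq h.dense (h.bdd s) x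

theorem HAlg.rm_v (s x : A) : h.rm s (h.v x) = h.v (x * s) :=
  LinearMap.extendOfNorm_eq h.dense (h.bdd' s) x

theorem HAlg.adj_of (S T : K →L[ℂ] K) (hST : ∀ x y, ⟪S (h.v x), h.v y⟫_ℂ = ⟪h.v x, T (h.v y)⟫_ℂ) :
    star T = S := by
  rw [ContinuousLinearMap.star_eq_adjoint]
  symm
  rw [ContinuousLinearMap.eq_adjoint_iff]
  intro a b
  refine h.dense.induction_on₂ (p := fun a b => ⟪S a, b⟫_ℂ = ⟪a, T b⟫_ℂ)
    (isClosed_eq (by fun_prop) (by fun_prop)) hST a b

theorem HAlg.star_lm (s : A) : star (h.lm s) = h.lm (star s) := by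
  apply h.adj_of
  intro x y
  rw [h.lm_v, h.lm_v, h.inner_eq, h.inner_eq, star_mul, star_star, mul_assoc]

theorem HAlg.star_rm (s : A) : star (h.rm s) = h.rm (star s) := by
  apply h.adj_of
  intro x y
  rw [h.rm_v, h.rm_v, h.inner_eq, h.inner_eq, star_mul, star_star, mul_assoc, h.comm s, mul_assoc]

theorem HAlg.lm_rm (s t : A) : h.rm t * h.lm s = h.lm s * h.rm t := by
  apply ext_dense h.dense
  intro x
  show h.rm t (h.lm s (h.v x)) = h.lm s (h.rm t (h.v x))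
  rw [h.lm_v, h.rm_v, h.rm_v, h.lm_v, mul_assoc]

theorem HAlg.rm_one (s : A) : h.rm s (h.v 1) = h.v s := by rw [h.rm_v, one_mul]

theorem HAlg.comm_le (r : K →L[ℂ] K) (hr : r ∈ Set.centralizer (Set.range h.rm)) :
    ‖star r (h.v 1)‖ ≤ ‖r (h.v 1)‖ := by
  refine comm_norm_le (h.v 1) h.rm ?_ ?_ r fun x => hr _ ⟨x, rfl⟩
  · simpa only [h.rm_one] using h.dense
  · intro x
    rw [h.star_rm, h.rm_one, h.rm_one, h.norm_star]

theorem HAlg.star_cent (r : K →L[ℂ] K) (hr : r ∈ Set.centralizer (Set.range h.rm)) :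
    star r ∈ Set.centralizer (Set.range h.rm) := by
  rintro _ ⟨x, rfl⟩
  have h1 := congrArg star (hr _ ⟨star x, rfl⟩)
  rw [star_mul, star_mul, h.star_rm, star_star] at h1
  exact h1.symm

/-- the von Neumann algebra of the Hilbert algebra -/
noncomputable def HAlg.dat : Dat K where
  S := Set.range h.rm
  star_mem := by
    rintro _ ⟨x, rfl⟩
    exact ⟨star x, (h.star_rm x).symm⟩
  Ω := h.v 1
  norm_one := h.norm_one
  comm x hx y hy := by
    let N : StarSubalgebra ℂ (K →L[ℂ] K) :=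
      { Subalgebra.centralizer ℂ (Set.range h.rm) with
        star_mem' := fun hr => h.star_cent _ hr }
    refine trace_of_norm (h.v 1) N (fun r hr => le_antisymm (h.comm_le r hr) ?_) x y hx hy
    have h1 := h.comm_le (star r) (h.star_cent r hr)
    rwa [star_star] at h1
  sep x hx h0 := by
    apply ext_dense h.dense
    intro a
    have h1 := congrArg (fun z : K →L[ℂ] K => z (h.v 1)) (hx _ ⟨a, rfl⟩)
    have h2 : h.rm a (x (h.v 1)) = x (h.rm a (h.v 1)) := h1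
    rw [h.rm_one, h0, map_zero] at h2
    rw [← h2]
    rfl

theorem HAlg.lm_mem (s : A) : h.lm s ∈ NG h.dat := by
  rw [mem_NG]
  rintro _ ⟨x, rfl⟩
  exact h.lm_rm s x

/-- the left regular representation -/
noncomputable def HAlg.rep : A →ₐ[ℂ] NG h.dat where
  toFun s := ⟨h.lm s, h.lm_mem s⟩
  map_one' := Subtype.ext (ext_dense h.dense fun x => by
    show h.lm 1 (h.v x) = h.v x
    rw [h.lm_v, one_mul])
  map_mul' s t := Subtype.ext (ext_dense h.dense fun x => by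
    show h.lm (s * t) (h.v x) = h.lm s (h.lm t (h.v x))
    rw [h.lm_v, h.lm_v, h.lm_v, mul_assoc])
  map_zero' := Subtype.ext (ext_dense h.dense fun x => by
    show h.lm 0 (h.v x) = 0
    rw [h.lm_v, zero_mul, map_zero])
  map_add' s t := Subtype.ext (ext_dense h.dense fun x => by
    show h.lm (s + t) (h.v x) = h.lm s (h.v x) + h.lm t (h.v x)
    rw [h.lm_v, h.lm_v, h.lm_v, add_mul, map_add])
  commutes' c := Subtype.ext (ext_dense h.dense fun x => by
    show h.lm (algebraMap ℂ A c) (h.v x) = c • h.v x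
    rw [h.lm_v, ← Algebra.smul_def, map_smul])

theorem HAlg.rep_v (s x : A) : (h.rep s : K →L[ℂ] K) (h.v x) = h.v (s * x) := h.lm_v s x

theorem HAlg.rep_star (s : A) : star (h.rep s) = h.rep (star s) := Subtype.ext (h.star_lm s)

theorem HAlg.rep_inj (hv : Function.Injective h.v) : Function.Injective h.rep := by
  intro s t hst
  apply hv
  have h1 := h.rep_v s 1
  rw [hst, h.rep_v, mul_one, mul_one] at h1
  exact h1.symm

theorem HAlg.nz_of (w : A) (hw : h.v 1 ∈ closure (Set.range fun x => h.v (w * x))) :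
    Nz (h.rep w) := by
  intro x hx
  apply ext_NG
  show (x : K →L[ℂ] K) (h.v 1) = 0
  have h1 : closure (Set.range fun x => h.v (w * x)) ⊆ {z | (x : K →L[ℂ] K) z = 0} := by
    refine closure_minimal ?_ (isClosed_eq (x : K →L[ℂ] K).continuous continuous_const)
    rintro _ ⟨a, rfl⟩
    show (x : K →L[ℂ] K) (h.v (w * a)) = 0
    rw [← h.rep_v]
    exact congrArg (fun z : NG h.dat => (z : K →L[ℂ] K) (h.v a)) hx
  exact h1 hw

end Pool.Agent.H386Z.HA
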