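import Pool.Agent.H386Z.HA
import Pool.Agent.H386Z.DRing
import Pool.Agent.RK.Nz

/-! The Hilbert algebra `Mᵐᵒᵖ ⊗ M` and finite rank operators. -/

set_option autoImplicit false

open scoped InnerProductSpace TensorProduct Matrix
open Pool.Agent.H386Z.VG Pool.Agent.H386Z.HA Pool.Agent.RK MulOpposite
open Pool.Agent.H386Z.DRing (dl)

attribute [local instance] Pool.Agent.H386Z.VG.kerM_hop

namespace Pool.Agent.H386Z.Hilb

variable {H : Type} [NormedAddCommGroup H] [InnerProductSpace ℂ H] [CompleteSpace H]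

/-- evaluation at the trace vector -/
noncomputable def vv (G : Dat H) : NG G →ₗ[ℂ] H where
  toFun a := (a : H →L[ℂ] H) G.Ω
  map_add' _ _ := rfl
  map_smul' _ _ := rfl

theorem vv_apply (G : Dat H) (a : NG G) : vv G a = (a : H →L[ℂ] H) G.Ω := rfl

theorem vv_mul (G : Dat H) (a b : NG G) : vv G (a * b) = (a : H →L[ℂ] H) (vv G b) := rfl

theorem vv_one (G : Dat H) : vv G 1 = G.Ω := rfl

theorem vv_inj (G : Dat H) : Function.Injective (vv G) := fun _ _ h => ext_NG h

variable (G : Dat H) (hc : DenseRange (vv G))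

/-- `M` as a Hilbert algebra -/
noncomputable def hM : HAlg (NG G) H where
  v := vv G
  φ := tr
  dense := hc
  inner_eq x y := (tr_star_mul x y).symm
  comm := tr_mul_comm
  one := tr_one
  bdd s := ⟨‖(s : H →L[ℂ] H)‖, fun x => (s : H →L[ℂ] H).le_opNorm (vv G x)⟩

/-- right multiplication -/
noncomputable def rr (a : NG G) : H →L[ℂ] H := (hM G hc).rm a

theorem rr_vv (a b : NG G) : rr G hc a (vv G b) = vv G (b * a) := (hM G hc).rm_v a b

theorem rr_comm (a b : NG G) : rr G hc a * (b : H →L[ℂ] H) = (b : H →L[ℂ] H) * rr G hc a := by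
  apply ext_dense hc
  intro x
  show rr G hc a ((b : H →L[ℂ] H) (vv G x)) = (b : H →L[ℂ] H) (rr G hc a (vv G x))
  rw [← vv_mul, rr_vv, rr_vv, ← vv_mul, mul_assoc]

theorem rr_unique (a : NG G) (r : H →L[ℂ] H) (h1 : ∀ b : NG G, (b : H →L[ℂ] H) * r = r * b)
    (h2 : r G.Ω = (a : H →L[ℂ] H) G.Ω) : r = rr G hc a := by
  apply ext_dense hc
  intro x
  rw [rr_vv, vv_mul, vv_apply, vv_apply, ← h2]
  exact (congrArg (fun z : H →L[ℂ] H => z G.Ω) (h1 x)).symm

include hc in
theorem norm_vv_star (a : NG G) : ‖vv G (star a)‖ = ‖vv G a‖ := (hM G hc).norm_star a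

theorem nz_inj (s : NG G) (hs : Nz s) (η : H) (h : (star s : NG G).1 η = 0) : η = 0 := by
  let A : Matrix Unit Unit (NG G) := fun _ _ => s
  have h1 : kp Aᴴ * A = 0 := by
    have h2 := congrArg Matrix.conjTranspose (mul_kp Aᴴ)
    rw [Matrix.conjTranspose_mul, Matrix.conjTranspose_conjTranspose, kp_star,
      Matrix.conjTranspose_zero] at h2
    exact h2
  have h2 : kp Aᴴ = 0 := by
    funext i j
    apply hs
    have h3 := congrFun (congrFun h1 i) j
    rw [Matrix.mul_apply, Fintype.sum_unique] at h3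
    exact h3
  have h3 : (inj () η : EllN H Unit) ∈ kerM Aᴴ := by
    rw [mem_kerM]
    apply ext_N
    intro k
    rw [opM_inj]
    exact h
  have h4 := opM_kp Aᴴ
  rw [h2, opM_zero] at h4
  have h5 := (Submodule.starProjection_eq_self_iff.2 h3)
  rw [← h4] at h5
  have h6 := congrArg (fun z : EllN H Unit => z ()) h5
  simp only [inj_self] at h6
  exact h6.symm

theorem dense_of_inj (T : H →L[ℂ] H) (hT : ∀ η, star T η = 0 → η = 0) : DenseRange T := by
  have h1 : T.range.topologicalClosure = ⊤ := by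
    rw [Submodule.topologicalClosure_eq_top_iff, ContinuousLinearMap.orthogonal_range,
      LinearMap.ker_eq_bot']
    exact hT
  have h2 := Submodule.dense_iff_topologicalClosure_eq_top.2 h1
  exact h2

include hc in
theorem approx_left (s : NG G) (hs : Nz s) : DenseRange fun x => vv G (s * x) :=
  (dense_of_inj (s : H →L[ℂ] H) (nz_inj G s hs)).comp hc (s : H →L[ℂ] H).continuous

include hc in
theorem approx_right (s : NG G) (hs : Nz s) :
    G.Ω ∈ closure (Set.range fun x => vv G (x * s)) := by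
  have h1 := approx_left G hc (star s) (Nz.nz_star vn_NG s hs) G.Ω
  rw [Metric.mem_closure_iff] at h1 ⊢
  intro ε hε
  obtain ⟨_, ⟨x, rfl⟩, hx⟩ := h1 ε hε
  refine ⟨_, ⟨star x, rfl⟩, ?_⟩
  rw [dist_eq_norm] at hx ⊢
  have h2 := norm_vv_star G hc (1 - star s * x)
  rw [star_sub, star_one, star_mul, star_star, map_sub, map_sub, vv_one] at h2
  rw [h2]
  exact hx

/-- the algebra `Mᵐᵒᵖ ⊗ M` -/
abbrev AA (G : Dat H) : Type := (NG G)ᵐᵒᵖ ⊗[ℂ] NG G

/-- the vector map into the algebraic tensor product -/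
noncomputable def v0 : AA G →ₗ[ℂ] H ⊗[ℂ] H :=
  TensorProduct.map ((vv G).comp (opLinearEquiv ℂ).symm.toLinearMap) (vv G)

theorem v0_tmul (b : (NG G)ᵐᵒᵖ) (a : NG G) : v0 G (b ⊗ₜ[ℂ] a) = vv G b.unop ⊗ₜ[ℂ] vv G a := rfl

theorem v0_inj : Function.Injective (v0 G) :=
  TensorProduct.map_injective_of_flat_flat _ _
    ((vv_inj G).comp (opLinearEquiv ℂ).symm.injective) (vv_inj G)

/-- the product trace -/
noncomputable def ph : AA G →ₗ[ℂ] ℂ :=
  TensorProduct.lift (((LinearMap.mul ℂ ℂ).comp ((tr (G := G)).comp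
    (opLinearEquiv ℂ).symm.toLinearMap)).compl₂ (tr (G := G)))

theorem ph_tmul (b : (NG G)ᵐᵒᵖ) (a : NG G) : ph G (b ⊗ₜ[ℂ] a) = tr b.unop * tr a := rfl

theorem ph_comm (x y : AA G) : ph G (x * y) = ph G (y * x) := by
  induction x using TensorProduct.induction_on with
  | zero => simp
  | add a b ha hb => rw [add_mul, mul_add, map_add, map_add, ha, hb]
  | tmul a b =>
    induction y using TensorProduct.induction_on with
    | zero => simp
    | add c d hc hd => rw [add_mul, mul_add, map_add, map_add, hc, hd]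
    | tmul c d =>
      rw [Algebra.TensorProduct.tmul_mul_tmul, Algebra.TensorProduct.tmul_mul_tmul, ph_tmul,
        ph_tmul, unop_mul, unop_mul, tr_mul_comm c.unop, tr_mul_comm b]

theorem v0_inner (x y : AA G) : ⟪v0 G x, v0 G y⟫_ℂ = ph G (star x * y) := by
  induction x using TensorProduct.induction_on with
  | zero => simp
  | add a b ha hb => rw [star_add, add_mul, map_add, map_add, inner_add_left, ha, hb]
  | tmul a b =>
    induction y using TensorProduct.induction_on with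
    | zero => simp
    | add c d hc hd => rw [mul_add, map_add, map_add, inner_add_right, hc, hd]
    | tmul c d =>
      rw [v0_tmul, v0_tmul, TensorProduct.inner_tmul, TensorProduct.star_tmul,
        Algebra.TensorProduct.tmul_mul_tmul, ph_tmul, unop_mul, tr_mul_comm c.unop, unop_star,
        tr_star_mul, tr_star_mul]
      rfl

include hc in
theorem v0_dense : DenseRange (v0 G) := by
  intro z
  induction z using TensorProduct.induction_on with
  | zero => exact subset_closure ⟨0, map_zero _⟩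
  | add a b ha hb =>
    exact (LinearMap.range (v0 G)).topologicalClosure.add_mem ha hb
  | tmul η ζ =>
    refine hc.induction_on₂ (p := fun η ζ => η ⊗ₜ[ℂ] ζ ∈ closure (Set.range (v0 G))) ?_ ?_ η ζ
    · refine isClosed_closure.preimage (f := fun p : H × H => p.1 ⊗ₜ[ℂ] p.2) ?_
      exact (TensorProduct.mkL ℂ H H).continuous₂
    · intro a b
      exact subset_closure ⟨op a ⊗ₜ[ℂ] b, rfl⟩

theorem v0_mul (d : (NG G)ᵐᵒᵖ) (c : NG G) (x : AA G) :
    v0 G ((d ⊗ₜ[ℂ] c) * x) = TensorProduct.mapL (rr G hc d.unop) (c : H →L[ℂ] H) (v0 G x) := by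
  induction x using TensorProduct.induction_on with
  | zero => simp
  | add a b ha hb => rw [mul_add, map_add, map_add, map_add, ha, hb]
  | tmul a b =>
    rw [Algebra.TensorProduct.tmul_mul_tmul, v0_tmul, v0_tmul, TensorProduct.mapL_tmul, rr_vv,
      unop_mul, vv_mul G c]

include hc in
theorem v0_bdd (s : AA G) : ∃ C : ℝ, ∀ x, ‖v0 G (s * x)‖ ≤ C * ‖v0 G x‖ := by
  induction s using TensorProduct.induction_on with
  | zero => exact ⟨0, fun x => by simp⟩
  | add a b ha hb =>
    obtain ⟨C, hC⟩ := ha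
    obtain ⟨C', hC'⟩ := hb
    refine ⟨C + C', fun x => ?_⟩
    rw [add_mul, map_add, add_mul]
    exact (norm_add_le _ _).trans (add_le_add (hC x) (hC' x))
  | tmul d c =>
    refine ⟨‖TensorProduct.mapL (rr G hc d.unop) (c : H →L[ℂ] H)‖, fun x => ?_⟩
    rw [v0_mul G hc]
    exact ContinuousLinearMap.le_opNorm _ _

/-- the Hilbert space tensor product -/
abbrev KK (H : Type) [NormedAddCommGroup H] [InnerProductSpace ℂ H] : Type :=
  UniformSpace.Completion (H ⊗[ℂ] H)

/-- `Mᵐᵒᵖ ⊗ M` as a Hilbert algebra -/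
noncomputable def hA : HAlg (AA G) (KK H) where
  v := (UniformSpace.Completion.toComplL (𝕜 := ℂ) (E := H ⊗[ℂ] H)).toLinearMap.comp (v0 G)
  φ := ph G
  dense := UniformSpace.Completion.denseRange_coe.comp (v0_dense G hc)
    (UniformSpace.Completion.continuous_coe _)
  inner_eq x y := (UniformSpace.Completion.inner_coe (v0 G x) (v0 G y)).trans (v0_inner G x y)
  comm := ph_comm G
  one := by
    rw [Algebra.TensorProduct.one_def, ph_tmul, unop_one, tr_one, mul_one]
  bdd s := by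
    obtain ⟨C, hC⟩ := v0_bdd G hc s
    refine ⟨C, fun x => ?_⟩
    show ‖((v0 G (s * x) : H ⊗[ℂ] H) : KK H)‖ ≤ C * ‖((v0 G x : H ⊗[ℂ] H) : KK H)‖
    rw [UniformSpace.Completion.norm_coe, UniformSpace.Completion.norm_coe]
    exact hC x

theorem hA_v (x : AA G) : (hA G hc).v x = ((v0 G x : H ⊗[ℂ] H) : KK H) := rfl

theorem hA_inj : Function.Injective (hA G hc).v :=
  (UniformSpace.Completion.coe_injective _).comp (v0_inj G)

theorem hA_nz (s : NG G) (hs : Nz s) :
    Nz ((hA G hc).rep (op s ⊗ₜ[ℂ] 1)) ∧ Nz ((hA G hc).rep (1 ⊗ₜ[ℂ] s)) := by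
  constructor
  · apply HAlg.nz_of
    have h1 := approx_right G hc s hs
    have h2 : Continuous fun η : H => ((η ⊗ₜ[ℂ] G.Ω : H ⊗[ℂ] H) : KK H) :=
      (UniformSpace.Completion.continuous_coe _).comp
        ((TensorProduct.mkL ℂ H H).flip G.Ω).continuous
    show ((G.Ω ⊗ₜ[ℂ] G.Ω : H ⊗[ℂ] H) : KK H) ∈ _
    refine map_mem_closure (f := fun η : H => ((η ⊗ₜ[ℂ] G.Ω : H ⊗[ℂ] H) : KK H)) h2 h1 ?_
    rintro _ ⟨x, rfl⟩
    refine ⟨op x ⊗ₜ[ℂ] 1, ?_⟩
    show (hA G hc).v _ = _
    rw [hA_v, Algebra.TensorProduct.tmul_mul_tmul, v0_tmul, mul_one]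
    rfl
  · apply HAlg.nz_of
    have h1 := approx_left G hc s hs G.Ω
    have h2 : Continuous fun η : H => ((G.Ω ⊗ₜ[ℂ] η : H ⊗[ℂ] H) : KK H) :=
      (UniformSpace.Completion.continuous_coe _).comp
        ((TensorProduct.mkL ℂ H H) G.Ω).continuous
    show ((G.Ω ⊗ₜ[ℂ] G.Ω : H ⊗[ℂ] H) : KK H) ∈ _
    refine map_mem_closure (f := fun η : H => ((G.Ω ⊗ₜ[ℂ] η : H ⊗[ℂ] H) : KK H)) h2 h1 ?_
    rintro _ ⟨x, rfl⟩
    refine ⟨1 ⊗ₜ[ℂ] x, ?_⟩
    show (hA G hc).v _ = _
    rw [hA_v, Algebra.TensorProduct.tmul_mul_tmul, v0_tmul, mul_one]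
    rfl

/-- the finite rank operator attached to a tensor -/
noncomputable def Th : AA G →ₗ[ℂ] (H →L[ℂ] H) :=
  TensorProduct.lift (LinearMap.mk₂ ℂ
    (fun (b : (NG G)ᵐᵒᵖ) (a : NG G) =>
      (a : H →L[ℂ] H) * InnerProductSpace.rankOne ℂ G.Ω G.Ω * (b.unop : H →L[ℂ] H))
    (fun b b' a => by rw [unop_add, AddMemClass.coe_add, mul_add])
    (fun c b a => by rw [unop_smul, SetLike.val_smul, mul_smul_comm])
    (fun b a a' => by rw [AddMemClass.coe_add, add_mul, add_mul])
    (fun c b a => by rw [SetLike.val_smul, smul_mul_assoc, smul_mul_assoc]))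

theorem Th_tmul (b : (NG G)ᵐᵒᵖ) (a : NG G) (η : H) :
    Th G (b ⊗ₜ[ℂ] a) η = ⟪vv G (star b.unop), η⟫_ℂ • vv G a := by
  show (a : H →L[ℂ] H) (⟪G.Ω, (b.unop : H →L[ℂ] H) η⟫_ℂ • G.Ω) = _
  rw [map_smul, vv_apply, vv_apply]
  congr 1
  show _ = ⟪star (b.unop : H →L[ℂ] H) G.Ω, η⟫_ℂ
  rw [ContinuousLinearMap.star_eq_adjoint, ContinuousLinearMap.adjoint_inner_left]

theorem Th_one (η : H) : Th G 1 η = ⟪G.Ω, η⟫_ℂ • G.Ω := by
  rw [Algebra.TensorProduct.one_def, Th_tmul, unop_one, star_one, vv_one]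

theorem Th_dl (x : AA G) (c : NG G) :
    Th G (x * dl c) = Th G x * rr G hc c - rr G hc c * Th G x := by
  induction x using TensorProduct.induction_on with
  | zero => simp
  | add a b ha hb =>
    rw [add_mul, map_add, map_add, ha, hb, add_mul, mul_add]
    abel
  | tmul b a =>
    apply ext_dense hc
    intro z
    rw [dl, mul_sub, map_sub, Algebra.TensorProduct.tmul_mul_tmul,
      Algebra.TensorProduct.tmul_mul_tmul, mul_one, mul_one]
    rw [ContinuousLinearMap.sub_apply, ContinuousLinearMap.sub_apply,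
      ContinuousLinearMap.mul_apply, ContinuousLinearMap.mul_apply]
    rw [Th_tmul, Th_tmul, rr_vv, Th_tmul, Th_tmul, map_smul, rr_vv]
    congr 2
    rw [vv_apply, vv_apply, vv_apply, vv_apply, ← tr_star_mul, ← tr_star_mul, star_star, star_star,
      unop_mul, unop_op, mul_assoc, tr_mul_comm c, mul_assoc]

theorem Th_fd (x : AA G) :
    FiniteDimensional ℂ (LinearMap.range ((Th G x : H →L[ℂ] H) : H →ₗ[ℂ] H)) := by
  induction x using TensorProduct.induction_on with
  | zero =>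
    rw [map_zero]
    have h1 : LinearMap.range ((0 : H →L[ℂ] H) : H →ₗ[ℂ] H) = ⊥ := LinearMap.range_zero
    rw [h1]
    infer_instance
  | add a b ha hb =>
    refine Submodule.finiteDimensional_of_le (S₂ := LinearMap.range
      ((Th G a : H →L[ℂ] H) : H →ₗ[ℂ] H) ⊔ LinearMap.range ((Th G b : H →L[ℂ] H) : H →ₗ[ℂ] H)) ?_
    rintro _ ⟨η, rfl⟩
    rw [map_add]
    exact Submodule.add_mem_sup ⟨η, rfl⟩ ⟨η, rfl⟩
  | tmul b a =>
    refine Submodule.finiteDimensional_of_le (S₂ := Submodule.span ℂ {vv G a}) ?_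
    rintro _ ⟨η, rfl⟩
    show Th G _ η ∈ _
    rw [Th_tmul]
    exact Submodule.smul_mem _ _ (Submodule.mem_span_singleton_self _)

theorem Th_hasSum {ι : Type} (e : HilbertBasis ι ℂ H) (x y : AA G) :
    HasSum (fun i => ⟪Th G x (e i), Th G y (e i)⟫_ℂ) (ph G (star x * y)) := by
  induction x using TensorProduct.induction_on with
  | zero => simpa using hasSum_zero
  | add a b ha hb =>
    rw [star_add, add_mul, map_add, map_add]
    simpa only [ContinuousLinearMap.add_apply, inner_add_left] using ha.add hb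
  | tmul a b =>
    induction y using TensorProduct.induction_on with
    | zero => simpa using hasSum_zero
    | add c d hc hd =>
      rw [mul_add, map_add, map_add]
      simpa only [ContinuousLinearMap.add_apply, inner_add_right] using hc.add hd
    | tmul c d =>
      have h1 := (e.hasSum_inner_mul_inner (vv G (star c.unop)) (vv G (star a.unop))).mul_right
        ⟪vv G b, vv G d⟫_ℂ
      rw [TensorProduct.star_tmul, Algebra.TensorProduct.tmul_mul_tmul, ph_tmul, unop_mul,
        unop_star, tr_star_mul]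
      have h2 : tr (c.unop * star a.unop) = ⟪vv G (star c.unop), vv G (star a.unop)⟫_ℂ := by
        rw [vv_apply, vv_apply, ← tr_star_mul, star_star]
      rw [h2]
      refine h1.congr_fun ?_
      intro i
      rw [Th_tmul, Th_tmul, inner_smul_left, inner_smul_right, inner_conj_symm]
      ring

theorem Th_tsum {ι : Type} (e : HilbertBasis ι ℂ H) (x : AA G) :
    ∑' i, ‖Th G x (e i)‖ ^ 2 = ‖(hA G hc).v x‖ ^ 2 := by
  have h1 := (Th_hasSum G e x x).mapL Complex.reCLM
  have h2 : ph G (star x * x) = ⟪(hA G hc).v x, (hA G hc).v x⟫_ℂ := ((hA G hc).inner_eq x x).symm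
  rw [h2] at h1
  have h3 : ∀ {E : Type} [NormedAddCommGroup E] [InnerProductSpace ℂ E] (z : E),
      Complex.reCLM ⟪z, z⟫_ℂ = ‖z‖ ^ 2 := fun z => inner_self_eq_norm_sq (𝕜 := ℂ) z
  simp only [h3] at h1
  exact h1.tsum_eq

include hc in
theorem Th_inj {ι : Type} (e : HilbertBasis ι ℂ H) (x : AA G) (hx : Th G x = 0) : x = 0 := by
  have h1 := Th_tsum G hc e x
  rw [hx] at h1
  simp only [ContinuousLinearMap.zero_apply, norm_zero, ne_eq, OfNat.ofNat_ne_zero,
    not_false_eq_true, zero_pow, tsum_zero] at h1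
  apply hA_inj G hc
  rw [map_zero]
  exact norm_eq_zero.1 (pow_eq_zero_iff (two_ne_zero) |>.1 h1.symm)

end Pool.Agent.H386Z.Hilb
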