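import Pool.Agent.H386Z.Split
import Pool.Agent.RK.LocEx
import Pool.Agent.RK.RkUInv
import Pool.Agent.RK.RkUMul
import Pool.Agent.RK.Common

/-! Lifting ring homomorphisms to the localisation, rank functions. -/

set_option autoImplicit false

open Pool.Agent.H386Z.Core Pool.Agent.RK
open Pool.Agent.RK.OreRest (ore_left ore_right)
open Pool.Agent.RK.Nz (nz_mul nz_iff nz_star)
open scoped TensorProduct
open MulOpposite

namespace Pool.Agent.H386Z.Lift

variable {R U : Type} [Ring R] [StarRing R] [Ring U] {τ : R →+ ℝ} {ι : R →+* U}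

theorem nz_one : Nz (1 : R) := fun x hx => by rwa [mul_one] at hx

theorem lift_exists (h : VN R τ) (hι : Loc ι) {V : Type} [Ring V] (f : R →+* V)
    (hf : ∀ s, Nz s → IsUnit (f s)) : ∃ F : U →+* V, ∀ x, F (ι x) = f x := by
  have h1 : ∀ u : U, ∃ w : V, ∀ s x, Nz s → ι s * u = ι x → f s * w = f x := by
    intro u
    obtain ⟨s, x, hs, hx⟩ := hι.left u
    obtain ⟨a, ha⟩ := hf s hs
    refine ⟨↑a⁻¹ * f x, fun t z ht hz => ?_⟩
    obtain ⟨s', b', hs', he⟩ := ore_left h t s hs
    have h2 : s' * z = b' * x := by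
      apply hι.inj
      rw [map_mul, map_mul, ← hz, ← hx, ← mul_assoc, ← mul_assoc, ← map_mul, ← map_mul, he]
    apply (hf s' hs').mul_left_cancel
    rw [← mul_assoc, ← map_mul, he, map_mul, ← ha, mul_assoc, Units.mul_inv_cancel_left,
      ← map_mul, ← map_mul, h2]
  choose F hF using h1
  have huniq : ∀ u w s x, Nz s → ι s * u = ι x → f s * w = f x → F u = w := by
    intro u w s x hs hx hw
    apply (hf s hs).mul_left_cancel
    rw [hF u s x hs hx, hw]
  have hFι : ∀ x, F (ι x) = f x := fun x =>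
    huniq _ _ 1 x nz_one (by rw [map_one, one_mul]) (by rw [map_one, one_mul])
  refine ⟨{ toFun := F
            map_one' := by rw [← map_one ι, hFι, map_one]
            map_mul' := ?_
            map_zero' := by rw [← map_zero ι, hFι, map_zero]
            map_add' := ?_ }, hFι⟩
  · intro u u'
    obtain ⟨s, x, hs, hx⟩ := hι.left u
    obtain ⟨t, z, ht, hz⟩ := hι.left u'
    obtain ⟨s', b', hs', he⟩ := ore_left h x t ht
    refine huniq _ _ (s' * s) (b' * z) (nz_mul _ _ hs' hs) ?_ ?_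
    · rw [map_mul, mul_assoc, ← mul_assoc (ι s), hx, ← mul_assoc, ← map_mul, he, map_mul,
        mul_assoc, hz, map_mul]
    · rw [map_mul, mul_assoc, ← mul_assoc (f s), hF u s x hs hx, ← mul_assoc, ← map_mul, he,
        map_mul, mul_assoc, hF u' t z ht hz, map_mul]
  · intro u u'
    obtain ⟨s, x, hs, hx⟩ := hι.left u
    obtain ⟨t, z, ht, hz⟩ := hι.left u'
    obtain ⟨s', b', hs', he⟩ := ore_left h s t ht
    refine huniq _ _ (s' * s) (s' * x + b' * z) (nz_mul _ _ hs' hs) ?_ ?_
    · rw [mul_add, map_add, map_mul ι s' x, map_mul ι b' z, ← hx, ← hz, ← mul_assoc, ← mul_assoc,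
        ← map_mul, ← map_mul, ← he]
    · rw [mul_add, map_add, map_mul f s' x, map_mul f b' z, ← hF u s x hs hx, ← hF u' t z ht hz,
        ← mul_assoc, ← mul_assoc, ← map_mul, ← map_mul, ← he]

theorem commute_loc (hι : Loc ι) {V : Type} [Ring V] (F : U →+* V) (w : V)
    (hw : ∀ x, F (ι x) * w = w * F (ι x)) (u : U) : F u * w = w * F u := by
  obtain ⟨s, x, hs, hx⟩ := hι.left u
  apply ((hι.unit s hs).map F).mul_left_cancel
  rw [← mul_assoc, ← map_mul, hx, hw, ← mul_assoc, hw, mul_assoc, ← map_mul, hx]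

theorem exists_algebra [Algebra ℂ R] (hι : Loc ι) :
    ∃ _ : Algebra ℂ U, ∀ c : ℂ, algebraMap ℂ U c = ι (algebraMap ℂ R c) := by
  refine ⟨RingHom.toAlgebra' (ι.comp (algebraMap ℂ R)) (fun c u => ?_), fun c => rfl⟩
  exact (commute_loc hι (RingHom.id U) (ι (algebraMap ℂ R c)) (fun x => by
    show ι x * _ = _ * ι x
    rw [← map_mul, ← map_mul, Algebra.commutes]) u).symm

theorem nontrivial_R (h : VN R τ) : Nontrivial R := by
  refine ⟨1, 0, fun h1 => ?_⟩
  have h2 := h.one
  rw [h1, map_zero] at h2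
  exact zero_ne_one h2

theorem unit_of (h : VN R τ) (hι : Loc ι) (d : U) (hd : ∀ x, d * x = 0 → x = 0) : IsUnit d := by
  obtain ⟨s, a, hs, ha⟩ := hι.left d
  have h1 : Nz a := by
    rw [nz_iff h]
    intro x hx
    apply hι.inj
    rw [map_zero]
    apply hd
    apply (hι.unit s hs).mul_left_cancel
    rw [← mul_assoc, ha, ← map_mul, hx, map_zero, mul_zero]
  obtain ⟨w, hw⟩ := hι.unit s hs
  have h2 : d = ↑w⁻¹ * ι a := by rw [← ha, ← hw, Units.inv_mul_cancel_left]
  rw [h2]
  exact (Units.isUnit _).mul (hι.unit a h1)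

theorem rkU_add (h : VN R τ) (hι : Loc ι) {m k : ℕ} (A B : Matrix (Fin m) (Fin k) U) :
    rkU τ ι (A + B) ≤ rkU τ ι A + rkU τ ι B := by
  have h1 : A + B = (Matrix.fromCols 1 1 : Matrix (Fin m) (Fin m ⊕ Fin m) U) *
      ((Matrix.fromBlocks A 0 0 B * (Matrix.fromRows 1 1 : Matrix (Fin k ⊕ Fin k) (Fin k) U) :
        Matrix (Fin m ⊕ Fin m) (Fin k) U)) := by
    rw [Matrix.fromBlocks_mul_fromRows, Matrix.fromCols_mul_fromRows]
    simp
  rw [h1, ← RkUMul.rkU_blocks h hι]
  exact (RkUMul.rkU_mul h hι _ _).2.trans (RkUMul.rkU_mul h hι _ _).1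

/-- the rank function pulled back along an injective ring homomorphism -/
noncomputable def rankOf (h : VN R τ) (hι : Loc ι) {W : Type} [Ring W] (f : W →+* U)
    (hf : Function.Injective f) : RankFn W where
  ρ A := rkU τ ι (A.map f)
  mul_left A B := by
    rw [Matrix.map_mul]
    exact (RkUMul.rkU_mul h hι _ _).1
  mul_right A B := by
    rw [Matrix.map_mul]
    exact (RkUMul.rkU_mul h hι _ _).2
  sylv A B hAB := by
    have h1 := RkUMul.rkU_sylvester h hι (A.map f) (B.map f) (by
      rw [← Matrix.map_mul, hAB, Matrix.map_zero _ (map_zero f)])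
    simpa using h1
  one m := by
    rw [Matrix.map_one _ (map_zero f) (map_one f)]
    have h1 := RkUInv.rkU_inv h hι (1 : Matrix (Fin m) (Fin m) U) 1 (Matrix.one_mul _)
    simpa using h1
  add A B := by
    rw [Matrix.map_add _ (map_add f)]
    exact rkU_add h hι _ _
  faithful A hA := by
    obtain ⟨h1, _, _, h2⟩ := RkUMul.rkU_bounds h hι (A.map f)
    have h3 := h2 (le_antisymm hA h1)
    funext i j
    apply hf
    rw [Matrix.zero_apply, map_zero]
    exact congrFun (congrFun h3 i) j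

theorem rankOf_ρ (h : VN R τ) (hι : Loc ι) {W : Type} [Ring W] (f : W →+* U)
    (hf : Function.Injective f) {m k : ℕ} (A : Matrix (Fin m) (Fin k) W) :
    (rankOf h hι f hf).ρ A = rkU τ ι (A.map f) := rfl

theorem full_U (h : VN R τ) (hι : Loc ι) (p q : ℕ) (A : Matrix (Fin p) (Fin q) U)
    (hA : ∀ u, Matrix.vecMul u A = 0 → u = 0) : (p : ℝ) ≤ rkU τ ι A := by
  obtain ⟨s, A', hs, hA'⟩ := Common.common_right h hι A
  rw [RkUEq.rkU_eq h hι A s hs A' hA']
  have h1 := (RkFull.rk_full_left h A').2 (by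
    intro x hx
    have h2 := hA (fun i => ι (x i)) (by
      funext j
      apply (hι.unit s hs).mul_right_cancel
      have h3 := congrArg ι (congrFun hx j)
      rw [Pi.zero_apply, zero_mul]
      rw [Pi.zero_apply, map_zero] at h3
      rw [← h3]
      simp only [Matrix.vecMul, dotProduct, map_sum, map_mul, Finset.sum_mul, mul_assoc, hA'])
    funext i
    apply hι.inj
    rw [Pi.zero_apply, map_zero]
    exact congrFun h2 i)
  rw [h1]
  simp

end Pool.Agent.H386Z.Lift
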