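import Pool.Agent.H386Z.Clear
import Pool.Agent.H386Z.Alg
import Pool.Agent.H386Z.Dist

/-! The dimension dichotomy. -/

set_option autoImplicit false

open scoped InnerProductSpace TensorProduct Matrix
open Pool.Agent.H386Z.VG Pool.Agent.H386Z.HA Pool.Agent.RK MulOpposite Pool.Agent.H386Z.Hilb
open Pool.Agent.H386Z.Clear Pool.Agent.H386Z.DRing Pool.Agent.H386Z.Alg

namespace Pool.Agent.H386Z.Main

variable {H : Type} [NormedAddCommGroup H] [InnerProductSpace ℂ H] [CompleteSpace H]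
variable (G : Dat H) (hc : DenseRange (vv G))

/-- finite rank solutions -/
def Sol {m : ℕ} (z : Fin m → (H →L[ℂ] H)) (T : Fin m → (H →L[ℂ] H)) : Prop :=
  (∀ k, FiniteDimensional ℂ (LinearMap.range ((T k : H →L[ℂ] H) : H →ₗ[ℂ] H))) ∧
    ∃ r : Fin m → (H →L[ℂ] H),
      (∀ k, r k ∈ Set.centralizer (Set.centralizer G.S) ∧ r k G.Ω = z k G.Ω) ∧
      ∑ k, (T k * r k - r k * T k) = 0

/-- squared distance -/
noncomputable def val {ι : Type} (e : HilbertBasis ι ℂ H) {m : ℕ} (T : Fin m → (H →L[ℂ] H))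
    (j : Fin m) : ℝ :=
  ∑ k : Fin m, ∑' i : ι, ‖(T k) (e i) - (if k = j then ⟪G.Ω, e i⟫_ℂ • G.Ω else 0)‖ ^ 2

theorem val_nonneg {ι : Type} (e : HilbertBasis ι ℂ H) {m : ℕ} (T : Fin m → (H →L[ℂ] H))
    (j : Fin m) : 0 ≤ val G e T j :=
  Finset.sum_nonneg fun _ _ => tsum_nonneg fun _ => sq_nonneg _

theorem rr_mem (a : NG G) : rr G hc a ∈ Set.centralizer (Set.centralizer G.S) :=
  fun b hb => (rr_comm G hc a ⟨b, (mem_NG' b).2 hb⟩).symm

include hc in
theorem sol_of {m : ℕ} (z : Fin m → NG G) (t : Fin m → AA G) (ht : ∑ k, t k * dl (z k) = 0) :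
    Sol G (fun k => (z k : H →L[ℂ] H)) (fun k => Th G (t k)) := by
  refine ⟨fun k => Th_fd G _, fun k => rr G hc (z k), fun k => ⟨rr_mem G hc _, ?_⟩, ?_⟩
  · have h1 := rr_vv G hc (z k) 1
    rw [one_mul] at h1
    exact h1
  · have h1 := congrArg (Th G) ht
    rw [map_sum, map_zero] at h1
    simpa only [Th_dl G hc] using h1

theorem val_Th {ι : Type} (e : HilbertBasis ι ℂ H) {m : ℕ} (t : Fin m → AA G) (j : Fin m) :
    val G e (fun k => Th G (t k)) j =
      ∑ k, ‖(hA G hc).v (t k - if k = j then 1 else 0)‖ ^ 2 := by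
  unfold val
  refine Finset.sum_congr rfl fun k _ => ?_
  rw [← Th_tsum G hc e]
  congr 1
  funext i
  rw [map_sub, ContinuousLinearMap.sub_apply]
  split_ifs
  · rw [Th_one]
  · rw [map_zero, ContinuousLinearMap.zero_apply]

include hc in
theorem val_zero {ι : Type} (e : HilbertBasis ι ℂ H) {m : ℕ} (j : Fin m) :
    val G e (0 : Fin m → (H →L[ℂ] H)) j = 1 := by
  have h1 := val_Th G hc e (0 : Fin m → AA G) j
  simp only [Pi.zero_apply, map_zero] at h1
  refine h1.trans ?_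
  rw [Finset.sum_eq_single j]
  · rw [if_pos rfl, zero_sub, map_neg, norm_neg, (hA G hc).norm_one, one_pow]
  · intro b _ hb
    simp [hb]
  · intro h
    exact absurd (Finset.mem_univ j) h

include hc in
theorem sol_zero {m : ℕ} (z : Fin m → NG G) : Sol G (fun k => (z k : H →L[ℂ] H)) 0 := by
  have h1 := sol_of G hc z 0 (by simp)
  simp only [Pi.zero_apply, map_zero] at h1
  exact h1

theorem inf_le {ι : Type} (e : HilbertBasis ι ℂ H) {m : ℕ} (z : Fin m → (H →L[ℂ] H))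
    (T : Fin m → (H →L[ℂ] H)) (hT : Sol G z T) (j : Fin m) :
    (⨅ T : {T // Sol G z T}, val G e T.1 j) ≤ val G e T j :=
  ciInf_le ⟨0, by
    rintro _ ⟨T, rfl⟩
    exact val_nonneg G e T.1 j⟩ (⟨T, hT⟩ : {T // Sol G z T})

include hc in
theorem tor_of {ι : Type} (e : HilbertBasis ι ℂ H) {n : ℕ} (y : Fin n → NG G)
    (hy : ∑ j, (⨅ T : {T // Sol G (fun k => (y k : H →L[ℂ] H)) T}, val G e T.1 j) = n) :
    Tor y := by
  have h1 : ∀ j, (⨅ T : {T // Sol G (fun k => (y k : H →L[ℂ] H)) T}, val G e T.1 j) ≤ 1 :=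
    fun j => (inf_le G e _ 0 (sol_zero G hc y) j).trans (val_zero G hc e j).le
  have h2 : ∀ j, (⨅ T : {T // Sol G (fun k => (y k : H →L[ℂ] H)) T}, val G e T.1 j) = 1 := by
    have h3 := (Finset.sum_eq_sum_iff_of_le (s := Finset.univ) (fun j _ => h1 j)).1 (by
      rw [hy]
      simp)
    exact fun j => h3 j (Finset.mem_univ j)
  intro t ht j
  apply hA_inj G hc
  rw [map_zero]
  refine (hA G hc).vanish t j fun ε => ?_
  have h3 := inf_le G e _ _ (sol_of G hc y (fun k => (ε : ℂ) • (star (t j) * t k)) (by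
    simp only [smul_mul_assoc, mul_assoc]
    rw [← Finset.smul_sum, ← Finset.mul_sum, ht, mul_zero, smul_zero])) j
  rw [h2, val_Th G hc] at h3
  exact h3

include hc in
theorem dich {ι : Type} (e : HilbertBasis ι ℂ H) {n m : ℕ} (y : Fin n → NG G) (hT : Tor y)
    (P : Fin m → FreeAlgebra ℂ (Fin n)) :
    ∑ j, (⨅ T : {T // Sol G (fun k => ((FreeAlgebra.lift ℂ y (P k) : NG G) : H →L[ℂ] H)) T},
      val G e T.1 j) ≤ (m : ℝ) - 1 ∨
    ∑ j, (⨅ T : {T // Sol G (fun k => ((FreeAlgebra.lift ℂ y (P k) : NG G) : H →L[ℂ] H)) T},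
      val G e T.1 j) = (m : ℝ) := by
  by_cases h0 : ∀ T, Sol G (fun k => ((FreeAlgebra.lift ℂ y (P k) : NG G) : H →L[ℂ] H)) T → T = 0
  · right
    haveI : Nonempty {T // Sol G
        (fun k => ((FreeAlgebra.lift ℂ y (P k) : NG G) : H →L[ℂ] H)) T} :=
      ⟨⟨0, sol_zero G hc _⟩⟩
    have h1 : ∀ j, (⨅ T : {T // Sol G
        (fun k => ((FreeAlgebra.lift ℂ y (P k) : NG G) : H →L[ℂ] H)) T}, val G e T.1 j) = 1 := by
      intro j
      have h2 : (fun T : {T // Sol G
        (fun k => ((FreeAlgebra.lift ℂ y (P k) : NG G) : H →L[ℂ] H)) T} => val G e T.1 j) =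
          fun _ => 1 := by
        funext T
        rw [h0 T.1 T.2, val_zero G hc]
      rw [h2, ciInf_const]
    simp only [h1]
    simp
  left
  push Not at h0
  obtain ⟨T, ⟨hfd, r, hr, hsum⟩, hT0⟩ := h0
  have hr' : ∀ k, r k = rr G hc (FreeAlgebra.lift ℂ y (P k)) := fun k =>
    rr_unique G hc _ _ (fun b => (hr k).1 b ((mem_NG' _).1 b.2)) (hr k).2
  obtain ⟨s1, s2, t, hs1, hs2, ht⟩ := clear_fr G hc T hfd
  have ht0 : t ≠ 0 := by
    intro h1
    apply hT0
    funext k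
    have h2 := ht k
    rw [h1, Pi.zero_apply, map_zero] at h2
    have h3 : DenseRange (star (s1 : H →L[ℂ] H) : H →L[ℂ] H) := dense_of_inj _ (by
      rw [star_star]
      exact hs1)
    apply ext_dense h3
    intro x
    apply hs2
    exact (congrArg (fun z : H →L[ℂ] H => z x) h2).symm
  have hrel : ∑ k, t k * dl (FreeAlgebra.lift ℂ y (P k)) = 0 := by
    apply Th_inj G hc e
    rw [map_sum]
    have h1 := congrArg (fun z => (s2 : H →L[ℂ] H) * z * star (s1 : H →L[ℂ] H)) hsum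
    simp only [mul_zero, zero_mul, Finset.mul_sum, Finset.sum_mul] at h1
    rw [← h1]
    refine Finset.sum_congr rfl fun k _ => ?_
    rw [Th_dl G hc, ht, hr']
    have e1 := rr_comm G hc (FreeAlgebra.lift ℂ y (P k)) s2
    have e2 : rr G hc (FreeAlgebra.lift ℂ y (P k)) * star (s1 : H →L[ℂ] H) =
      star (s1 : H →L[ℂ] H) * rr G hc (FreeAlgebra.lift ℂ y (P k)) :=
      rr_comm G hc (FreeAlgebra.lift ℂ y (P k)) (star s1)
    simp only [mul_sub, sub_mul, mul_assoc]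
    rw [e2, ← mul_assoc (rr G hc _), e1, mul_assoc]
  obtain ⟨g, hg, hrk⟩ := alg_main (vn_NG (G := G)) (vn_NG (G := (hA G hc).dat)) (hA G hc).rep
    ((hA G hc).rep_inj (hA_inj G hc)) (hA_nz G hc) y hT P t ht0 hrel
  obtain ⟨c, hc1, hc2⟩ := estimate (hA G hc) g hrk
  refine le_trans (Finset.sum_le_sum fun j _ => ?_) hc1
  refine le_of_forall_pos_le_add fun ε hε => ?_
  obtain ⟨a, ha⟩ := hc2 j ε hε
  refine le_trans (inf_le G e _ _ (sol_of G hc (fun k => FreeAlgebra.lift ℂ y (P k))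
    (fun k => ∑ l, a l * g l k) ?_) j) ?_
  · simp only [Finset.sum_mul]
    rw [Finset.sum_comm]
    refine Finset.sum_eq_zero fun l _ => ?_
    simp only [mul_assoc]
    rw [← Finset.mul_sum, hg, mul_zero]
  · rw [val_Th G hc]
    exact ha

theorem main
    (H : Type) [NormedAddCommGroup H] [InnerProductSpace ℂ H] [CompleteSpace H]
    (ι : Type) (b : HilbertBasis ι ℂ H) (n : ℕ) (y : Fin n → (H →L[ℂ] H))
    (M : Set (H →L[ℂ] H)) (ξ : H)
    (Δ : (m : ℕ) → (Fin m → (H →L[ℂ] H)) → ℝ)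
    (hsa : ∀ i, IsSelfAdjoint (y i))
    (hM : M = Set.centralizer (Set.centralizer (Set.range y)))
    (hξ : ‖ξ‖ = 1)
    (hd : Dense ((fun x : H →L[ℂ] H => x ξ) '' M))
    (htr : ∀ a ∈ M, ∀ c ∈ M, ⟪(a * c) ξ, ξ⟫_ℂ = ⟪(c * a) ξ, ξ⟫_ℂ)
    (hΔ : ∀ (m : ℕ) (z : Fin m → (H →L[ℂ] H)), Δ m z =
      ∑ j : Fin m, ⨅ T : {T : Fin m → (H →L[ℂ] H) //
          (∀ k, FiniteDimensional ℂ
            (LinearMap.range ((T k : H →L[ℂ] H) : H →ₗ[ℂ] H))) ∧
          ∃ r : Fin m → (H →L[ℂ] H),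
            (∀ k, r k ∈ Set.centralizer M ∧ r k ξ = z k ξ) ∧
            ∑ k, (T k * r k - r k * T k) = 0},
        ∑ k : Fin m, ∑' i : ι,
          ‖(T.1 k) (b i) - (if k = j then ⟪ξ, b i⟫_ℂ • ξ else 0)‖ ^ 2)
    (hy : Δ n y = (n : ℝ))
    (m : ℕ) (P : Fin m → FreeAlgebra ℂ (Fin n)) :
      (Δ m (fun j => FreeAlgebra.lift ℂ y (P j)) ≤ (m : ℝ) - 1 ∨
       Δ m (fun j => FreeAlgebra.lift ℂ y (P j)) = (m : ℝ)) := by
  subst hM
  have hstar : ∀ s ∈ Set.centralizer (Set.range y), star s ∈ Set.centralizer (Set.range y) := by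
    rintro s hs _ ⟨i, rfl⟩
    have h1 := congrArg star (hs _ ⟨i, rfl⟩)
    rw [star_mul, star_mul, (hsa i).star_eq] at h1
    exact h1.symm
  have hstar2 : ∀ s ∈ Set.centralizer (Set.centralizer (Set.range y)),
      star s ∈ Set.centralizer (Set.centralizer (Set.range y)) := by
    intro s hs x hx
    have h1 := congrArg star (hs _ (hstar x hx))
    rw [star_mul, star_mul, star_star] at h1
    exact h1.symm
  have htr' : ∀ x ∈ Set.centralizer (Set.centralizer (Set.range y)),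
      ∀ z ∈ Set.centralizer (Set.centralizer (Set.range y)),
      ⟪ξ, (x * z) ξ⟫_ℂ = ⟪ξ, (z * x) ξ⟫_ℂ := by
    intro x hx z hz
    rw [← inner_conj_symm, htr x hx z hz, inner_conj_symm]
  let G : Dat H :=
    { S := Set.centralizer (Set.range y)
      star_mem := hstar
      Ω := ξ
      norm_one := hξ
      comm := htr'
      sep := by
        intro x hx h0
        have hd' : DenseRange (fun a : Set.centralizer (Set.centralizer (Set.range y)) =>
            (a : H →L[ℂ] H) ξ) := by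
          refine hd.mono ?_
          rintro _ ⟨a, ha, rfl⟩
          exact ⟨⟨a, ha⟩, rfl⟩
        apply ext_dense hd'
        intro a
        apply eq_zero_dense hd'
        intro c
        have h1 := htr' (star (c : H →L[ℂ] H) * x) (Set.mul_mem_centralizer (hstar2 _ c.2) hx)
          a a.2
        have h2 : (a * (star (c : H →L[ℂ] H) * x) : H →L[ℂ] H) ξ = 0 := by
          show (a : H →L[ℂ] H) (star (c : H →L[ℂ] H) (x ξ)) = 0
          rw [h0, map_zero, map_zero]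
        rw [h2, inner_zero_right, ContinuousLinearMap.star_eq_adjoint] at h1
        rw [← h1]
        exact (ContinuousLinearMap.adjoint_inner_right _ _ _).symm }
  have hc : DenseRange (vv G) := by
    refine hd.mono ?_
    rintro _ ⟨a, ha, rfl⟩
    exact ⟨⟨a, (mem_NG' a).2 ha⟩, rfl⟩
  let y' : Fin n → NG G := fun i => ⟨y i, (mem_NG' _).2 fun x hx => (hx _ ⟨i, rfl⟩).symm⟩
  have hT : Tor y' := tor_of G hc b y' ((hΔ n y).symm.trans hy)
  have hz : (fun j => FreeAlgebra.lift ℂ y (P j)) =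
      fun k => ((FreeAlgebra.lift ℂ y' (P k) : NG G) : H →L[ℂ] H) := by
    funext k
    have h1 : (NG G).subtype.toAlgHom.comp (FreeAlgebra.lift ℂ y') = FreeAlgebra.lift ℂ y := by
      apply FreeAlgebra.hom_ext
      funext i
      simp [y']
    exact (DFunLike.congr_fun h1 (P k)).symm
  rw [hz, hΔ]
  exact dich G hc b y' hT P

end Pool.Agent.H386Z.Main
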