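import Pool.Agent.H386Z.DRing

/-! Pencils of relations over `E ⊗ D` are right invertible. -/

set_option autoImplicit false

open Module Pool.Agent.H386Z.Chi Pool.Agent.H386Z.Core Pool.Agent.H386Z.Util
open Pool.Agent.H386Z.DRing
open scoped TensorProduct
open MulOpposite

namespace Pool.Agent.H386Z.Split

variable {E D : Type} [DivisionRing E] [Algebra ℂ E] [DivisionRing D] [Algebra ℂ D] {n : ℕ}

/-- the elements `1 ⊗ y i` -/
noncomputable def yW (E : Type) [DivisionRing E] [Algebra ℂ E] (y : Fin n → D) :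
    Fin n → E ⊗[ℂ] D := fun i => 1 ⊗ₜ[ℂ] y i

theorem smul_eq (e : E) (w : E ⊗[ℂ] D) : e • w = (e ⊗ₜ[ℂ] (1 : D)) * w := by
  rw [← smul_one_mul e w]
  congr 1
  rw [Algebra.TensorProduct.one_def, TensorProduct.smul_tmul', smul_eq_mul, mul_one]

theorem comm_ED (e : E) (d : D) :
    (e ⊗ₜ[ℂ] (1 : D)) * ((1 : E) ⊗ₜ[ℂ] d) = ((1 : E) ⊗ₜ[ℂ] d) * (e ⊗ₜ[ℂ] (1 : D)) := by
  simp [Algebra.TensorProduct.tmul_mul_tmul]

theorem hyW (y : Fin n → D) :
    ∀ i (e : E) (w : E ⊗[ℂ] D), yW E y i * (e • w) = e • (yW E y i * w) := by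
  intro i e w
  rw [smul_eq, smul_eq, ← mul_assoc, ← mul_assoc, yW, comm_ED]

theorem yo_yW (y : Fin n → D) (i : Option (Fin n)) : yo (yW E y) i = (1 : E) ⊗ₜ[ℂ] yo y i := by
  cases i with
  | none => rfl
  | some i => rfl

/-- right multiplication on columns -/
noncomputable def rm {W : Type} [Ring W] [Algebra ℂ W] (p : ℕ) :
    W →ₗ[ℂ] (Fin p → W) →ₗ[ℂ] (Fin p → W) :=
  LinearMap.mk₂ ℂ (fun w x a => x a * w)
    (fun w w' x => by funext a; exact mul_add _ _ _)
    (fun c w x => by funext a; exact mul_smul_comm _ _ _)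
    (fun w x x' => by funext a; exact add_mul _ _ _)
    (fun c w x => by funext a; exact smul_mul_assoc _ _ _)

theorem rm_apply {W : Type} [Ring W] [Algebra ℂ W] {p : ℕ} (w : W) (x : Fin p → W) (a : Fin p) :
    rm p w x a = x a * w := rfl

theorem rm_rm {W : Type} [Ring W] [Algebra ℂ W] {p : ℕ} (w w' : W) (x : Fin p → W) :
    rm p w' (rm p w x) = rm p (w * w') x := by
  funext a
  simp only [rm_apply, mul_assoc]

/-- the balanced pairing -/
noncomputable def Bt (p : ℕ) :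
    E ⊗[ℂ] D →ₗ[ℂ] (Fin p → E ⊗[ℂ] D) →ₗ[ℂ] Dᵐᵒᵖ ⊗[ℂ] (Fin p → E ⊗[ℂ] D) :=
  TensorProduct.lift (LinearMap.mk₂ ℂ
    (fun (e : E) (d : D) => (TensorProduct.mk ℂ Dᵐᵒᵖ (Fin p → E ⊗[ℂ] D) (op d)).comp
      (rm p (e ⊗ₜ[ℂ] (1 : D))))
    (fun e e' d => by rw [TensorProduct.add_tmul, map_add, LinearMap.comp_add])
    (fun c e d => by rw [← TensorProduct.smul_tmul', map_smul, LinearMap.comp_smul])
    (fun e d d' => by rw [op_add, map_add, LinearMap.add_comp])
    (fun c e d => by rw [op_smul, map_smul, LinearMap.smul_comp]))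

theorem Bt_tmul {p : ℕ} (e : E) (d : D) (x : Fin p → E ⊗[ℂ] D) :
    Bt p (e ⊗ₜ[ℂ] d) x = op d ⊗ₜ[ℂ] rm p (e ⊗ₜ[ℂ] (1 : D)) x := rfl

theorem Bt_smul {p : ℕ} (c : E) (w : E ⊗[ℂ] D) (x : Fin p → E ⊗[ℂ] D) :
    Bt p (c • w) x = Bt p w (rm p (c ⊗ₜ[ℂ] (1 : D)) x) := by
  induction w using TensorProduct.induction_on with
  | zero => simp
  | tmul e d =>
    rw [TensorProduct.smul_tmul', Bt_tmul, Bt_tmul, rm_rm, Algebra.TensorProduct.tmul_mul_tmul,
      mul_one, smul_eq_mul]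
  | add a b ha hb => rw [smul_add, map_add, map_add, LinearMap.add_apply, LinearMap.add_apply, ha, hb]

/-- right `D`-linear functionals vanishing on the column space of `A` -/
def Valid {p q : ℕ} (A : Matrix (Fin p) (Fin q) (E ⊗[ℂ] D))
    (l : (Fin p → E ⊗[ℂ] D) →ₗ[ℂ] D) : Prop :=
  (∀ x d, l (rm p ((1 : E) ⊗ₜ[ℂ] d) x) = l x * d) ∧ ∀ c, l (Matrix.mulVec A c) = 0

theorem rm_mulVec {W : Type} [Ring W] [Algebra ℂ W] {p q : ℕ} (A : Matrix (Fin p) (Fin q) W)
    (c : Fin q → W) (w : W) : rm p w (Matrix.mulVec A c) = Matrix.mulVec A (rm q w c) := by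
  funext a
  simp only [rm_apply, Matrix.mulVec, dotProduct, Finset.sum_mul, mul_assoc]

theorem Valid.shift {p q : ℕ} {A : Matrix (Fin p) (Fin q) (E ⊗[ℂ] D)}
    {l : (Fin p → E ⊗[ℂ] D) →ₗ[ℂ] D} (h : Valid A l) (c : E) :
    Valid A (l.comp (rm p (c ⊗ₜ[ℂ] (1 : D)))) := by
  constructor
  · intro x d
    show l (rm p _ (rm p _ x)) = l (rm p _ x) * d
    rw [← h.1, rm_rm, rm_rm, comm_ED]
  · intro c'
    show l (rm p _ (Matrix.mulVec A c')) = 0
    rw [rm_mulVec, h.2]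

theorem exists_valid {p q : ℕ} (A : Matrix (Fin p) (Fin q) (E ⊗[ℂ] D)) (x0 : Fin p → E ⊗[ℂ] D)
    (hx : ∀ c, Matrix.mulVec A c ≠ x0) : ∃ l, Valid A l ∧ l x0 ≠ 0 := by
  let R : AddSubgroup (Fin p → E ⊗[ℂ] D) :=
    { carrier := {x | ∃ c, Matrix.mulVec A c = x}
      add_mem' := by
        rintro _ _ ⟨c, rfl⟩ ⟨c', rfl⟩
        exact ⟨c + c', Matrix.mulVec_add _ _ _⟩
      zero_mem' := ⟨0, Matrix.mulVec_zero _⟩
      neg_mem' := by
        rintro _ ⟨c, rfl⟩
        exact ⟨-c, Matrix.mulVec_neg _ _⟩ }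
  obtain ⟨l, h1, h2, h3⟩ := exists_rfun (D := D)
    (fun d => (rm p ((1 : E) ⊗ₜ[ℂ] d)).toAddMonoidHom)
    (fun x => by
      funext a
      exact mul_one _)
    (fun d d' x => by
      show rm p _ x = rm p _ (rm p _ x)
      rw [rm_rm, Algebra.TensorProduct.tmul_mul_tmul, mul_one])
    (fun d d' x => by
      show rm p _ x = rm p _ x + rm p _ x
      rw [TensorProduct.tmul_add, map_add, LinearMap.add_apply])
    R (by
      rintro d _ ⟨c, rfl⟩
      exact ⟨_, (rm_mulVec A c _).symm⟩) x0 (fun ⟨c, hc⟩ => hx c hc)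
  refine ⟨{ toFun := l, map_add' := l.map_add, map_smul' := ?_ }, ⟨h1, fun c => h2 _ ⟨c, rfl⟩⟩, h3⟩
  intro c x
  have h4 := h1 x (algebraMap ℂ D c)
  have h5 : (rm p ((1 : E) ⊗ₜ[ℂ] algebraMap ℂ D c)).toAddMonoidHom x = c • x := by
    funext a
    show x a * ((1 : E) ⊗ₜ[ℂ] algebraMap ℂ D c) = c • x a
    rw [Algebra.algebraMap_eq_smul_one, TensorProduct.tmul_smul, mul_smul_comm,
      ← Algebra.TensorProduct.one_def, mul_one]
  rw [h5] at h4
  show l (c • x) = c • l x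
  rw [h4, Algebra.algebraMap_eq_smul_one, mul_smul_comm, mul_one]

theorem Bt_left {p : ℕ} (l : (Fin p → E ⊗[ℂ] D) →ₗ[ℂ] D) (d' : D) (w : E ⊗[ℂ] D)
    (x : Fin p → E ⊗[ℂ] D) :
    l.lTensor Dᵐᵒᵖ (Bt p (((1 : E) ⊗ₜ[ℂ] d') * w) x) =
      l.lTensor Dᵐᵒᵖ (Bt p w x) * (op d' ⊗ₜ[ℂ] 1) := by
  induction w using TensorProduct.induction_on with
  | zero => simp
  | tmul e d =>
    rw [Algebra.TensorProduct.tmul_mul_tmul, one_mul, Bt_tmul, Bt_tmul, LinearMap.lTensor_tmul,
      LinearMap.lTensor_tmul, Algebra.TensorProduct.tmul_mul_tmul, mul_one, op_mul]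
  | add a b ha hb =>
    rw [mul_add, map_add, map_add, LinearMap.add_apply, LinearMap.add_apply, map_add, map_add,
      ha, hb, add_mul]

theorem Bt_right {p q : ℕ} {A : Matrix (Fin p) (Fin q) (E ⊗[ℂ] D)}
    {l : (Fin p → E ⊗[ℂ] D) →ₗ[ℂ] D} (h : Valid A l) (d' : D) (w : E ⊗[ℂ] D)
    (x : Fin p → E ⊗[ℂ] D) :
    l.lTensor Dᵐᵒᵖ (Bt p w (rm p ((1 : E) ⊗ₜ[ℂ] d') x)) =
      l.lTensor Dᵐᵒᵖ (Bt p w x) * (1 ⊗ₜ[ℂ] d') := by
  induction w using TensorProduct.induction_on with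
  | zero => simp
  | tmul e d =>
    rw [Bt_tmul, Bt_tmul, LinearMap.lTensor_tmul,
      LinearMap.lTensor_tmul, Algebra.TensorProduct.tmul_mul_tmul, mul_one, ← h.1, rm_rm, rm_rm,
      comm_ED]
  | add a b ha hb =>
    rw [map_add, LinearMap.add_apply, LinearMap.add_apply, map_add, map_add, ha, hb, add_mul]

theorem Bt_col {p q : ℕ} {A : Matrix (Fin p) (Fin q) (E ⊗[ℂ] D)}
    {l : (Fin p → E ⊗[ℂ] D) →ₗ[ℂ] D} (h : Valid A l) (w : E ⊗[ℂ] D) (c : Fin q → E ⊗[ℂ] D) :
    l.lTensor Dᵐᵒᵖ (Bt p w (Matrix.mulVec A c)) = 0 := by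
  induction w using TensorProduct.induction_on with
  | zero => simp
  | tmul e d =>
    rw [Bt_tmul, LinearMap.lTensor_tmul, rm_mulVec, h.2, TensorProduct.tmul_zero]
  | add a b ha hb =>
    rw [map_add, LinearMap.add_apply, map_add, ha, hb, add_zero]

theorem split (y : Fin n → D) (hT : Tor y) : Split (yW E y) (hyW y) := by
  intro N q p v L hv hL hrel
  let ℓ : Option (Fin n) → Fin q → Fin p → E ⊗[ℂ] D := fun i b a => L a (i, b) ⊗ₜ[ℂ] (1 : D)
  let Z : Option (Fin n) → Fin N → Dᵐᵒᵖ ⊗[ℂ] (Fin p → E ⊗[ℂ] D) := fun i s =>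
    ∑ b, Bt p (v b s) (ℓ i b)
  have hℓ : ∀ i b, ℓ i b = ∑ a, rm p (L a (i, b) ⊗ₜ[ℂ] (1 : D)) (Pi.single a 1) := by
    intro i b
    funext a
    rw [Finset.sum_apply, Finset.sum_eq_single a]
    · rw [rm_apply, Pi.single_eq_same, one_mul]
    · intro a' _ ha
      rw [rm_apply, Pi.single_eq_of_ne (Ne.symm ha), zero_mul]
    · intro h
      exact absurd (Finset.mem_univ a) h
  have hZ : ∀ l, Valid (pen (yW E y) L) l → ∀ s i, l.lTensor Dᵐᵒᵖ (Z i s) = 0 := by
    intro l hl s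
    apply tor_option hT
    · have h1 : ∀ a, ∑ i, ∑ b, l.lTensor Dᵐᵒᵖ (Bt p (L a (i, b) •
          (((1 : E) ⊗ₜ[ℂ] yo y i) * v b s)) (Pi.single a 1)) = 0 := by
        intro a
        have h2 := congrFun (hrel a) s
        rw [Finset.sum_apply, Fintype.sum_prod_type] at h2
        have h3 := congrArg (fun z => l.lTensor Dᵐᵒᵖ (Bt p z (Pi.single a 1))) h2
        simp only [Pi.zero_apply, map_zero, LinearMap.zero_apply, map_sum,
          LinearMap.sum_apply] at h3
        rw [← h3]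
        refine Finset.sum_congr rfl fun i _ => Finset.sum_congr rfl fun b _ => ?_
        rw [Yo_YQ, yo_yW]
        rfl
      have h2 : ∀ i, l.lTensor Dᵐᵒᵖ (Z i s) * (op (yo y i) ⊗ₜ[ℂ] 1) =
          ∑ a, ∑ b, l.lTensor Dᵐᵒᵖ (Bt p (L a (i, b) •
          (((1 : E) ⊗ₜ[ℂ] yo y i) * v b s)) (Pi.single a 1)) := by
        intro i
        rw [Finset.sum_comm]
        simp only [Z, map_sum, Finset.sum_mul]
        refine Finset.sum_congr rfl fun b _ => ?_
        rw [← Bt_left, hℓ, map_sum, map_sum]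
        refine Finset.sum_congr rfl fun a _ => ?_
        rw [Bt_smul]
      simp only [h2]
      rw [Finset.sum_comm]
      exact Finset.sum_eq_zero fun a _ => h1 a
    · have h1 : ∀ b, ∑ i, l.lTensor Dᵐᵒᵖ (Bt p (v b s) (ℓ i b)) * (1 ⊗ₜ[ℂ] yo y i) = 0 := by
        intro b
        have h2 := Bt_col hl (v b s) (Pi.single b 1)
        have h3 : Matrix.mulVec (pen (yW E y) L) (Pi.single b 1) =
            ∑ i, rm p ((1 : E) ⊗ₜ[ℂ] yo y i) (ℓ i b) := by
          funext a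
          rw [Matrix.mulVec_single_one, Finset.sum_apply]
          show pen (yW E y) L a b = _
          unfold pen
          refine Finset.sum_congr rfl fun i _ => ?_
          rw [rm_apply, yo_yW, smul_eq]
        rw [h3, map_sum, map_sum] at h2
        rw [← h2]
        refine Finset.sum_congr rfl fun i _ => ?_
        rw [Bt_right hl]
      simp only [Z, map_sum, Finset.sum_mul]
      rw [Finset.sum_comm]
      exact Finset.sum_eq_zero fun b _ => h1 b
  obtain ⟨φ, hφ⟩ := exists_dual v hv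
  have hK : ∀ l, Valid (pen (yW E y) L) l → ∀ i b, l (ℓ i b) = 0 := by
    intro l hl i b
    let ψ : Fin N → D →ₗ[ℂ] E := fun s => ((φ b).restrictScalars ℂ).comp
      ((LinearMap.single ℂ (fun _ : Fin N => E ⊗[ℂ] D) s).comp (TensorProduct.mk ℂ E D 1))
    have hψ : ∀ s d, ψ s d = φ b (Pi.single s ((1 : E) ⊗ₜ[ℂ] d)) := fun s d => rfl
    let κ : Fin N → Dᵐᵒᵖ ⊗[ℂ] (Fin p → E ⊗[ℂ] D) →ₗ[ℂ] D := fun s => TensorProduct.lift
      (((LinearMap.llcomp ℂ _ _ _ l).comp (rm p)).comp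
        (((TensorProduct.mk ℂ E D).flip 1).comp ((ψ s).comp (opLinearEquiv ℂ).symm.toLinearMap)))
    have hκ : ∀ s d x, κ s (op d ⊗ₜ[ℂ] x) = l (rm p (ψ s d ⊗ₜ[ℂ] (1 : D)) x) := fun s d x => rfl
    have h1 : ∀ s, κ s (Z i s) = 0 := by
      intro s
      refine sep_left (S := {l' // Valid (pen (yW E y) L) l'}) (Z i s) (κ s) (fun l' => l'.1)
        (fun l' => hZ l'.1 l'.2 s i) ?_
      intro d x hx
      exact hx ⟨_, hl.shift (ψ s d.unop)⟩
    have h2 : ∀ s w x, κ s (Bt p w x) = l (rm p (φ b (Pi.single s w) ⊗ₜ[ℂ] (1 : D)) x) := by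
      intro s w x
      induction w using TensorProduct.induction_on with
      | zero => simp
      | tmul e d =>
        rw [Bt_tmul, hκ, rm_rm, Algebra.TensorProduct.tmul_mul_tmul, mul_one, hψ, ← smul_eq_mul,
          ← map_smul, ← Pi.single_smul, TensorProduct.smul_tmul', smul_eq_mul, mul_one]
      | add a a' ha ha' =>
        rw [map_add, LinearMap.add_apply, map_add, ha, ha', Pi.single_add, map_add,
          TensorProduct.add_tmul, map_add, LinearMap.add_apply, map_add]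
    have h3 : ∑ s, κ s (Z i s) = 0 := Finset.sum_eq_zero fun s _ => h1 s
    simp only [Z, map_sum, h2] at h3
    rw [Finset.sum_comm] at h3
    have h4 : ∀ b', ∑ s, l (rm p (φ b (Pi.single s (v b' s)) ⊗ₜ[ℂ] (1 : D)) (ℓ i b')) =
        if b' = b then l (ℓ i b') else 0 := by
      intro b'
      rw [← map_sum, ← LinearMap.sum_apply, ← map_sum, ← TensorProduct.sum_tmul, ← map_sum,
        Finset.univ_sum_single, hφ]
      split_ifs
      · congr 1
        funext a
        rw [rm_apply, ← Algebra.TensorProduct.one_def, mul_one]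
      · simp
    simp only [h4] at h3
    simpa using h3
  obtain ⟨c, hc⟩ := exists_rinv L hL
  have hcol : ∀ a0, ∃ col, Matrix.mulVec (pen (yW E y) L) col = Pi.single a0 1 := by
    intro a0
    by_contra hne
    push Not at hne
    obtain ⟨l, hl, hl0⟩ := exists_valid _ _ hne
    apply hl0
    have h1 : (Pi.single a0 1 : Fin p → E ⊗[ℂ] D) =
        ∑ ib : Option (Fin n) × Fin q, rm p (c ib a0 ⊗ₜ[ℂ] (1 : D)) (ℓ ib.1 ib.2) := by
      funext a
      rw [Finset.sum_apply]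
      have h2 : ∀ ib : Option (Fin n) × Fin q, rm p (c ib a0 ⊗ₜ[ℂ] (1 : D)) (ℓ ib.1 ib.2) a =
          (L a ib * c ib a0) ⊗ₜ[ℂ] (1 : D) := by
        intro ib
        rw [rm_apply]
        show (L a ib ⊗ₜ[ℂ] (1 : D)) * _ = _
        rw [Algebra.TensorProduct.tmul_mul_tmul, mul_one]
      simp only [h2]
      rw [← TensorProduct.sum_tmul, hc, Pi.single_apply]
      split_ifs
      · rfl
      · simp
    rw [h1, map_sum]
    exact Finset.sum_eq_zero fun ib _ => hK _ (hl.shift (c ib a0)) ib.1 ib.2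
  choose col hcol' using hcol
  refine ⟨fun b a0 => col a0 b, ?_⟩
  funext a a0
  have h1 := congrFun (hcol' a0) a
  rw [Matrix.one_apply, Pi.single_apply] at *
  rw [← h1]
  rfl

theorem gen (y : Fin n → D) (hG : Gen y (hyA y)) (hGS : GS (YQ (yW E y) (hyW y) (E ⊗[ℂ] D))) :
    Gen (yW E y) (hyW y) := by
  have h10 : (1 : E ⊗[ℂ] D) ≠ 0 := by
    haveI : Nontrivial (E ⊗[ℂ] D) := Algebra.TensorProduct.nontrivial_of_algebraMap_injective_of_flat_left ℂ E D (algebraMap ℂ D).injective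
    exact one_ne_zero
  intro w
  induction w using TensorProduct.induction_on with
  | zero =>
    exact ⟨Submodule.span E {1}, inferInstance, Submodule.mem_span_singleton_self _,
      Submodule.zero_mem _, chi_one _ _ h10⟩
  | add a b ha hb =>
    obtain ⟨C, hC, c1, ca, cc⟩ := ha
    obtain ⟨C', hC', c1', cb, cc'⟩ := hb
    exact ⟨C ⊔ C', inferInstance, Submodule.mem_sup_left c1, Submodule.add_mem_sup ca cb,
      chi_sup_le hGS C C' 1 h10 c1 c1' cc cc'⟩
  | tmul e d =>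
    obtain ⟨C, hC, c1, cd, cc⟩ := hG d
    obtain ⟨q, p, v, L, hv, hs, hL, hrel, hchi⟩ := exists_rel (YQ y (hyA y) D) C
    let vW : Fin q → E ⊗[ℂ] D := fun b => (1 : E) ⊗ₜ[ℂ] v b
    let LE : Fin p → (Option (Fin n) × Fin q → E) := fun a ib => algebraMap ℂ E (L a ib)
    obtain ⟨φ, hφ⟩ := exists_dual v hv
    obtain ⟨c, hc⟩ := exists_rinv L hL
    have hvW : LinearIndependent E vW := by
      rw [Fintype.linearIndependent_iff]
      intro g hg b
      let κ : E ⊗[ℂ] D →ₗ[ℂ] E := TensorProduct.lift ((LinearMap.lsmul ℂ E).comp (φ b)).flip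
      have hκ : ∀ x z, κ (x ⊗ₜ[ℂ] z) = φ b z • x := fun x z => rfl
      have h1 := congrArg κ hg
      rw [map_zero, map_sum, Finset.sum_eq_single b] at h1
      · simpa [vW, TensorProduct.smul_tmul', hκ, hφ] using h1
      · intro b' _ hb
        simp [vW, TensorProduct.smul_tmul', hκ, hφ, hb]
      · intro h
        exact absurd (Finset.mem_univ b) h
    have hLE : LinearIndependent E LE := by
      rw [Fintype.linearIndependent_iff]
      intro g hg a'
      have h1 : ∑ ib : Option (Fin n) × Fin q, (∑ a, g a • LE a) ib * algebraMap ℂ E (c ib a') = 0 :=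
        Finset.sum_eq_zero fun ib _ => by rw [hg, Pi.zero_apply, zero_mul]
      simp only [Finset.sum_apply, Pi.smul_apply, smul_eq_mul, Finset.sum_mul, LE, mul_assoc,
        ← map_mul] at h1
      rw [Finset.sum_comm] at h1
      simp only [← Finset.mul_sum, ← map_sum, hc] at h1
      rw [Finset.sum_eq_single a'] at h1
      · simpa using h1
      · intro b' _ hb
        simp [hb]
      · intro h
        exact absurd (Finset.mem_univ a') h
    have h1 := chi_le_of_rel (YQ (yW E y) (hyW y) (E ⊗[ℂ] D)) vW LE hvW hLE (by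
      intro a
      have h2 := congrArg (fun z : D => (1 : E) ⊗ₜ[ℂ] z) (hrel a)
      simp only [TensorProduct.tmul_zero, TensorProduct.tmul_sum] at h2
      rw [← h2]
      refine Finset.sum_congr rfl fun ib _ => ?_
      rw [Yo_YQ, Yo_YQ, yo_yW, smul_eq_mul, smul_eq_mul, TensorProduct.tmul_smul]
      show algebraMap ℂ E (L a ib) • (((1 : E) ⊗ₜ[ℂ] yo y ib.1) * ((1 : E) ⊗ₜ[ℂ] v ib.2)) = _
      rw [Algebra.TensorProduct.tmul_mul_tmul, mul_one, algebraMap_smul])
    have hmem : ∀ x ∈ C, (1 : E) ⊗ₜ[ℂ] x ∈ Submodule.span E (Set.range vW) := by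
      intro x hx
      rw [← hs, Submodule.mem_span_range_iff_exists_fun] at hx
      obtain ⟨g, rfl⟩ := hx
      rw [TensorProduct.tmul_sum]
      refine Submodule.sum_mem _ fun b _ => ?_
      rw [TensorProduct.tmul_smul, ← algebraMap_smul E]
      exact Submodule.smul_mem _ _ (Submodule.subset_span ⟨b, rfl⟩)
    refine ⟨Submodule.span E (Set.range vW),
      FiniteDimensional.span_of_finite E (Set.finite_range _), hmem 1 c1, ?_, by omega⟩
    have h2 := Submodule.smul_mem _ e (hmem d cd)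
    rwa [TensorProduct.smul_tmul', smul_eq_mul, mul_one] at h2

end Pool.Agent.H386Z.Split
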