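import Pool.Agent.H386Z.Core

/-! Linear algebra tools. -/

set_option autoImplicit false

open Module Pool.Agent.H386Z.Chi Pool.Agent.H386Z.Core
open scoped TensorProduct

namespace Pool.Agent.H386Z.Util

theorem exists_dual {E : Type} [DivisionRing E] {P : Type} [AddCommGroup P] [Module E P] {q : ℕ}
    (v : Fin q → P) (hv : LinearIndependent E v) :
    ∃ φ : Fin q → (P →ₗ[E] E), ∀ b b', φ b (v b') = if b' = b then 1 else 0 := by
  have h1 : LinearMap.ker (Fintype.linearCombination E v) = ⊥ := by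
    rw [LinearMap.ker_eq_bot']
    intro c hc
    rw [Fintype.linearCombination_apply] at hc
    funext b
    exact Fintype.linearIndependent_iff.1 hv c hc b
  obtain ⟨g, hg⟩ := LinearMap.exists_leftInverse_of_injective _ h1
  refine ⟨fun b => (LinearMap.proj b).comp g, fun b b' => ?_⟩
  have h2 : Fintype.linearCombination E v (Pi.single b' 1) = v b' := by
    rw [Fintype.linearCombination_apply_single, one_smul]
  have h3 : g (v b') = Pi.single b' 1 := by
    rw [← h2]
    exact LinearMap.congr_fun hg _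
  show g (v b') b = _
  rw [h3, Pi.single_apply]
  simp only [eq_comm]

theorem exists_rinv {E : Type} [DivisionRing E] {ι : Type} [Fintype ι] [DecidableEq ι] {p : ℕ}
    (L : Fin p → ι → E) (hL : LinearIndependent E L) :
    ∃ c : ι → Fin p → E, ∀ a a', ∑ i, L a i * c i a' = if a = a' then 1 else 0 := by
  obtain ⟨φ, hφ⟩ := exists_dual L hL
  refine ⟨fun i a' => φ a' (fun j => if i = j then 1 else 0), fun a a' => ?_⟩
  rw [← hφ a' a, LinearMap.pi_apply_eq_sum_univ]
  rfl

theorem sep_left {A X B Y S : Type} [AddCommGroup A] [Module ℂ A] [AddCommGroup X] [Module ℂ X]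
    [AddCommGroup B] [Module ℂ B] [AddCommGroup Y] [Module ℂ Y] (Z : A ⊗[ℂ] X)
    (κ : A ⊗[ℂ] X →ₗ[ℂ] Y) (fam : S → X →ₗ[ℂ] B) (h0 : ∀ s, (fam s).lTensor A Z = 0)
    (hκ : ∀ a x, (∀ s, fam s x = 0) → κ (a ⊗ₜ x) = 0) : κ Z = 0 := by
  classical
  let b := Basis.ofVectorSpace ℂ A
  obtain ⟨f, rfl⟩ := (TensorProduct.equivFinsuppOfBasisLeft b).symm.surjective Z
  rw [TensorProduct.equivFinsuppOfBasisLeft_symm_apply] at h0 ⊢
  have h1 : ∀ s i, fam s (f i) = 0 := by
    intro s i
    have h2 : ((f.mapRange (fam s) (map_zero _)).sum fun i n => b i ⊗ₜ[ℂ] n) = 0 := by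
      rw [Finsupp.sum_mapRange_index (fun _ => TensorProduct.tmul_zero _ _), ← h0 s, Finsupp.sum,
        Finsupp.sum, map_sum]
      rfl
    have h3 := TensorProduct.sum_tmul_basis_left_eq_zero b _ h2
    have h4 := DFunLike.congr_fun h3 i
    simpa using h4
  rw [Finsupp.sum, map_sum]
  exact Finset.sum_eq_zero fun i _ => hκ _ _ fun s => h1 s i

theorem sep_left' {A X B S : Type} [AddCommGroup A] [Module ℂ A] [AddCommGroup X] [Module ℂ X]
    [AddCommGroup B] [Module ℂ B] (Z : A ⊗[ℂ] X)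
    (fam : S → X →ₗ[ℂ] B) (h0 : ∀ s, (fam s).lTensor A Z = 0)
    (hfam : ∀ x, (∀ s, fam s x = 0) → x = 0) : Z = 0 :=
  sep_left Z LinearMap.id fam h0 fun a x hx => by
    rw [hfam x hx]
    simp

theorem sep_right' {A X B S : Type} [AddCommGroup A] [Module ℂ A] [AddCommGroup X] [Module ℂ X]
    [AddCommGroup B] [Module ℂ B] (Z : X ⊗[ℂ] A)
    (fam : S → X →ₗ[ℂ] B) (h0 : ∀ s, (fam s).rTensor A Z = 0)
    (hfam : ∀ x, (∀ s, fam s x = 0) → x = 0) : Z = 0 := by
  have h1 : TensorProduct.comm ℂ X A Z = 0 := by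
    refine sep_left' _ fam (fun s => ?_) hfam
    have h2 : ∀ Z : X ⊗[ℂ] A, (fam s).lTensor A (TensorProduct.comm ℂ X A Z) =
        TensorProduct.comm ℂ B A ((fam s).rTensor A Z) := by
      intro Z
      induction Z using TensorProduct.induction_on with
      | zero => simp
      | tmul a b => simp
      | add a b ha hb => rw [map_add, map_add, map_add, map_add, ha, hb]
    rw [h2, h0, map_zero]
  simpa using h1

/-- separation by right linear functionals -/
theorem exists_rfun {D X : Type} [DivisionRing D] [AddCommGroup X] (act : D → X →+ X)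
    (act_one : ∀ x, act 1 x = x) (act_mul : ∀ d d' x, act (d * d') x = act d' (act d x))
    (act_add : ∀ d d' x, act (d + d') x = act d x + act d' x)
    (R : AddSubgroup X) (hR : ∀ d, ∀ x ∈ R, act d x ∈ R) (x0 : X) (hx : x0 ∉ R) :
    ∃ l : X →+ D, (∀ x d, l (act d x) = l x * d) ∧ (∀ x ∈ R, l x = 0) ∧ l x0 ≠ 0 := by
  letI : SMul Dᵐᵒᵖ X := ⟨fun d x => act d.unop x⟩
  have hs : ∀ (d : Dᵐᵒᵖ) (x : X), d • x = act d.unop x := fun _ _ => rfl
  letI : Module Dᵐᵒᵖ X := Module.ofMinimalAxioms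
    (fun d x x' => by rw [hs, hs, hs, map_add])
    (fun d d' x => by rw [hs, hs, hs, MulOpposite.unop_add, act_add])
    (fun d d' x => by rw [hs, hs, hs, MulOpposite.unop_mul, act_mul])
    (fun x => by rw [hs, MulOpposite.unop_one, act_one])
  let R' : Submodule Dᵐᵒᵖ X :=
    { carrier := R
      add_mem' := fun ha hb => R.add_mem ha hb
      zero_mem' := R.zero_mem
      smul_mem' := fun d x hx => hR _ x hx }
  obtain ⟨f, hf0, hf⟩ := Submodule.exists_le_ker_of_notMem (p := R') (v := x0) hx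
  refine ⟨(MulOpposite.opAddEquiv.symm.toAddMonoidHom).comp f.toAddMonoidHom, ?_, ?_, ?_⟩
  · intro x d
    have h1 := f.map_smul (MulOpposite.op d) x
    show (f (act d x)).unop = (f x).unop * d
    have h2 : act d x = (MulOpposite.op d) • x := rfl
    rw [h2, h1, smul_eq_mul, MulOpposite.unop_mul, MulOpposite.unop_op]
  · intro x hx
    show (f x).unop = 0
    rw [show f x = 0 from hf hx, MulOpposite.unop_zero]
  · intro h
    apply hf0
    exact MulOpposite.unop_injective h

theorem chi_map_inj {E : Type} [DivisionRing E] {n : ℕ} {P P' : Type} [AddCommGroup P]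
    [Module E P] [AddCommGroup P'] [Module E P'] (Y : Fin n → P →ₗ[E] P) (Y' : Fin n → P' →ₗ[E] P')
    (φ : P →ₗ[E] P') (hφ : ∀ i x, φ (Y i x) = Y' i (φ x)) (hinj : Function.Injective φ)
    (V : Submodule E P) : chi Y' (V.map φ) = chi Y V := by
  unfold chi
  rw [plus_map Y Y' φ hφ, ← (Submodule.equivMapOfInjective φ hinj V).finrank_eq,
    ← (Submodule.equivMapOfInjective φ hinj (plus Y V)).finrank_eq]

theorem chi_one {E : Type} [DivisionRing E] {n : ℕ} {P : Type} [AddCommGroup P]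
    [Module E P] (Y : Fin n → P →ₗ[E] P) (x : P) (hx : x ≠ 0) :
    chi Y (Submodule.span E {x}) ≤ 1 := by
  have h1 := chi_le_of_rel Y (fun _ : Fin 1 => x) (p := 0) (fun a => a.elim0)
    (linearIndependent_unique_iff.2 hx) linearIndependent_empty_type (fun a => a.elim0)
  rw [Set.range_const] at h1
  simpa using h1

theorem chi_sup_le {E : Type} [DivisionRing E] {n : ℕ} {P : Type} [AddCommGroup P]
    [Module E P] {Y : Fin n → P →ₗ[E] P} (h : GS Y) (C C' : Submodule E P)
    [FiniteDimensional E C] [FiniteDimensional E C'] (x : P) (hx : x ≠ 0) (h1 : x ∈ C)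
    (h2 : x ∈ C') (c1 : chi Y C ≤ 1) (c2 : chi Y C' ≤ 1) : chi Y (C ⊔ C') ≤ 1 := by
  have h3 := chi_submod Y C C'
  have h4 : 1 ≤ chi Y (C ⊓ C') := by
    refine h _ inferInstance ?_
    intro h5
    have h6 : x ∈ C ⊓ C' := ⟨h1, h2⟩
    rw [h5, Submodule.mem_bot] at h6
    exact hx h6
  omega

end Pool.Agent.H386Z.Util
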