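import Mathlib
import Pool.Agent.Helper655.VNRes
import Pool.Agent.RK.Defs

/-! The commutant of a self-adjoint family of operators with a separating trace vector is an
abstract finite von Neumann algebra in the sense of `Pool.Agent.RK.VN`.
This is a port of the files Helper655/VNMat, VNRank, VNInst from group algebras to the general
situation. -/

set_option autoImplicit false
set_option linter.unusedSectionVars false

open scoped InnerProductSpace Matrix Topology
open Filter Pool.Agent.RK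
open Pool.Agent.Helper655.VN (isUnit_add_eps tendsto_resolvent)

namespace Pool.Agent.H386Z.VG

/-- Data: a Hilbert space, a self-adjoint family `S` of operators and a unit vector which is a
separating trace vector for the commutant of `S`. -/
structure Dat (K : Type) [NormedAddCommGroup K] [InnerProductSpace ℂ K] [CompleteSpace K] where
  S : Set (K →L[ℂ] K)
  star_mem : ∀ s ∈ S, star s ∈ S
  Ω : K
  norm_one : ‖Ω‖ = 1
  comm : ∀ x ∈ Set.centralizer S, ∀ y ∈ Set.centralizer S,
    ⟪Ω, (x * y) Ω⟫_ℂ = ⟪Ω, (y * x) Ω⟫_ℂ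
  sep : ∀ x ∈ Set.centralizer S, x Ω = 0 → x = 0

variable {K : Type} [NormedAddCommGroup K] [InnerProductSpace ℂ K] [CompleteSpace K]

/-- The commutant as a star subalgebra. -/
noncomputable def NG (G : Dat K) : StarSubalgebra ℂ (K →L[ℂ] K) :=
  StarSubalgebra.centralizer ℂ G.S

variable {G : Dat K}

theorem mem_NG (t : K →L[ℂ] K) : t ∈ NG G ↔ ∀ g ∈ G.S, g * t = t * g := by
  unfold NG
  rw [StarSubalgebra.mem_centralizer_iff (R := ℂ)]
  constructor
  · intro h g hg
    exact (h _ hg).1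
  · intro h g hg
    exact ⟨h g hg, h _ (G.star_mem g hg)⟩

theorem mem_NG' (t : K →L[ℂ] K) : t ∈ NG G ↔ t ∈ Set.centralizer G.S := mem_NG t

/-- the canonical trace -/
noncomputable def tr : NG G →ₗ[ℂ] ℂ where
  toFun x := ⟪G.Ω, (x : K →L[ℂ] K) G.Ω⟫_ℂ
  map_add' x y := by
    show ⟪G.Ω, (x : K →L[ℂ] K) G.Ω + (y : K →L[ℂ] K) G.Ω⟫_ℂ = _
    rw [inner_add_right]
  map_smul' c x := by
    show ⟪G.Ω, c • (x : K →L[ℂ] K) G.Ω⟫_ℂ = _
    rw [inner_smul_right]
    rfl

theorem tr_apply (x : NG G) : tr x = ⟪G.Ω, (x : K →L[ℂ] K) G.Ω⟫_ℂ := rfl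

theorem tr_one : tr (1 : NG G) = 1 := by
  rw [tr_apply]
  show ⟪G.Ω, G.Ω⟫_ℂ = 1
  rw [inner_self_eq_norm_sq_to_K, G.norm_one]
  simp

theorem tr_mul_comm (x y : NG G) : tr (x * y) = tr (y * x) :=
  G.comm _ ((mem_NG' _).1 x.2) _ ((mem_NG' _).1 y.2)

theorem tr_star_mul (x y : NG G) :
    tr (star x * y) = ⟪(x : K →L[ℂ] K) G.Ω, (y : K →L[ℂ] K) G.Ω⟫_ℂ := by
  rw [← ContinuousLinearMap.adjoint_inner_right, ← ContinuousLinearMap.star_eq_adjoint]
  rfl

theorem tr_star_mul_self (x : NG G) :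
    tr (star x * x) = ((‖(x : K →L[ℂ] K) G.Ω‖ ^ 2 : ℝ) : ℂ) := by
  rw [tr_star_mul, inner_self_eq_norm_sq_to_K]
  norm_cast

theorem ext_NG {x y : NG G} (h : (x : K →L[ℂ] K) G.Ω = (y : K →L[ℂ] K) G.Ω) : x = y := by
  have h1 := G.sep _ ((mem_NG' _).1 (x - y).2) (by
    show (x : K →L[ℂ] K) G.Ω - (y : K →L[ℂ] K) G.Ω = 0
    rw [h, sub_self])
  exact sub_eq_zero.1 (Subtype.ext h1)

theorem tr_faithful (x : NG G) (h : tr (star x * x) = 0) : x = 0 := by
  rw [tr_star_mul_self] at h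
  have h1 : ‖(x : K →L[ℂ] K) G.Ω‖ ^ 2 = 0 := by exact_mod_cast h
  have h2 : (x : K →L[ℂ] K) G.Ω = 0 := by
    rw [pow_eq_zero_iff (by norm_num)] at h1
    exact norm_eq_zero.1 h1
  apply ext_NG
  rw [h2]
  rfl

/-- `K^ι` as a Hilbert space -/
abbrev EllN (K : Type) (ι : Type*) [Fintype ι] := PiLp 2 (fun _ : ι => K)

variable {ι κ μ : Type*} [Fintype ι] [Fintype κ] [Fintype μ] [DecidableEq ι] [DecidableEq κ]
  [DecidableEq μ]

/-- coordinate projection -/
noncomputable def prj (i : ι) : EllN K ι →L[ℂ] K := PiLp.proj 2 (fun _ : ι => K) i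

/-- coordinate inclusion -/
noncomputable def inj (i : ι) : K →L[ℂ] EllN K ι :=
  (PiLp.continuousLinearEquiv 2 ℂ (fun _ : ι => K)).symm.toContinuousLinearMap ∘L
    ContinuousLinearMap.single ℂ (fun _ : ι => K) i

/-- The operator `(x_i) ↦ (∑ i, A k i x_i)_k` on `K^ι` given by a matrix over the commutant. -/
noncomputable def opM (A : Matrix κ ι (NG G)) : EllN K ι →L[ℂ] EllN K κ :=
  (PiLp.continuousLinearEquiv 2 ℂ (fun _ : κ => K)).symm.toContinuousLinearMap ∘L
    ContinuousLinearMap.pi (fun k => ∑ i, (A k i : K →L[ℂ] K) ∘L prj i)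

theorem prj_apply (i : ι) (x : EllN K ι) : prj i x = x i := rfl

theorem inj_self (i : ι) (x : K) : (inj i x : EllN K ι) i = x := by
  show (Pi.single i x : ι → K) i = x
  simp

theorem inj_ne (i j : ι) (h : j ≠ i) (x : K) : (inj i x : EllN K ι) j = 0 := by
  show (Pi.single i x : ι → K) j = 0
  simp [h]

theorem opM_apply (A : Matrix κ ι (NG G)) (x : EllN K ι) (k : κ) :
    (opM A x) k = ∑ i, (A k i : K →L[ℂ] K) (x i) := by
  show (∑ i, (A k i : K →L[ℂ] K) ∘L prj i) x = _
  rw [sum_apply]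
  rfl

theorem ext_N {x y : EllN K ι} (h : ∀ i, x i = y i) : x = y := by
  apply PiLp.ext
  exact h

theorem sum_inj (x : EllN K ι) : ∑ i, inj i (x i) = x := by
  apply ext_N
  intro k
  rw [← prj_apply, map_sum, Finset.sum_eq_single k]
  · exact inj_self k _
  · intro b _ hb
    exact inj_ne b k (Ne.symm hb) _
  · intro h
    exact absurd (Finset.mem_univ k) h

theorem ext_inj {E : Type*} [NormedAddCommGroup E] [NormedSpace ℂ E] {S T : EllN K ι →L[ℂ] E}
    (h : ∀ i x, S (inj i x) = T (inj i x)) : S = T := by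
  ext x
  rw [← sum_inj x, map_sum, map_sum]
  exact Finset.sum_congr rfl fun i _ => h i _

theorem opM_inj (A : Matrix κ ι (NG G)) (i : ι) (x : K) (k : κ) :
    (opM A (inj i x)) k = (A k i : K →L[ℂ] K) x := by
  rw [opM_apply, Finset.sum_eq_single i]
  · rw [inj_self]
  · intro b _ hb
    rw [inj_ne i b hb, map_zero]
  · intro h
    exact absurd (Finset.mem_univ i) h

theorem opM_mul (A : Matrix μ κ (NG G)) (B : Matrix κ ι (NG G)) :
    opM (A * B) = opM A ∘L opM B := by
  apply ext_inj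
  intro i x
  apply ext_N
  intro m
  show _ = (opM A (opM B (inj i x))) m
  rw [opM_inj, opM_apply, Matrix.mul_apply]
  have h1 : ∀ k, (opM B (inj i x)) k = (B k i : K →L[ℂ] K) x := fun k => opM_inj B i x k
  simp only [h1]
  rw [AddSubmonoidClass.coe_finsetSum, sum_apply]
  rfl

theorem opM_one : opM (1 : Matrix ι ι (NG G)) = 1 := by
  apply ext_inj
  intro i x
  apply ext_N
  intro k
  rw [opM_inj]
  show _ = (inj i x) k
  by_cases h : k = i
  · subst h
    rw [Matrix.one_apply_eq, inj_self]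
    rfl
  · rw [Matrix.one_apply_ne h, inj_ne i k h]
    rfl

theorem opM_add (A B : Matrix κ ι (NG G)) : opM (A + B) = opM A + opM B := by
  apply ext_inj
  intro i x
  apply ext_N
  intro k
  show _ = (opM A (inj i x)) k + (opM B (inj i x)) k
  rw [opM_inj, opM_inj, opM_inj]
  rfl

theorem opM_sub (A B : Matrix κ ι (NG G)) : opM (A - B) = opM A - opM B := by
  apply ext_inj
  intro i x
  apply ext_N
  intro k
  show _ = (opM A (inj i x)) k - (opM B (inj i x)) k
  rw [opM_inj, opM_inj, opM_inj]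
  rfl

theorem opM_smul (c : ℂ) (A : Matrix κ ι (NG G)) : opM (c • A) = c • opM A := by
  apply ext_inj
  intro i x
  apply ext_N
  intro k
  show _ = c • (opM A (inj i x)) k
  rw [opM_inj, opM_inj]
  rfl

theorem opM_zero : opM (0 : Matrix κ ι (NG G)) = 0 := by
  apply ext_inj
  intro i x
  apply ext_N
  intro k
  rw [opM_inj]
  rfl

theorem opM_injective : Function.Injective (opM : Matrix κ ι (NG G) → _) := by
  intro A B h
  ext1 k i
  apply Subtype.ext
  ext1 x
  rw [← opM_inj A i x k, ← opM_inj B i x k, h]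

theorem opM_adjoint (A : Matrix κ ι (NG G)) :
    ContinuousLinearMap.adjoint (opM A) = opM Aᴴ := by
  symm
  rw [ContinuousLinearMap.eq_adjoint_iff]
  intro x y
  rw [PiLp.inner_apply, PiLp.inner_apply]
  simp only [opM_apply]
  simp only [sum_inner, inner_sum]
  rw [Finset.sum_comm]
  refine Finset.sum_congr rfl fun k _ => Finset.sum_congr rfl fun i _ => ?_
  rw [Matrix.conjTranspose_apply]
  show ⟪(star (A k i : K →L[ℂ] K)) (x k), y i⟫_ℂ = _
  rw [ContinuousLinearMap.star_eq_adjoint, ContinuousLinearMap.adjoint_inner_left]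

/-- diagonal right translation -/
noncomputable def rhoN (g : K →L[ℂ] K) : EllN K ι →L[ℂ] EllN K ι :=
  (PiLp.continuousLinearEquiv 2 ℂ (fun _ : ι => K)).symm.toContinuousLinearMap ∘L
    ContinuousLinearMap.pi (fun k => g ∘L prj k)

theorem rhoN_apply (g : K →L[ℂ] K) (x : EllN K ι) (k : ι) : (rhoN g x) k = g (x k) := rfl

theorem rhoN_inj (g : K →L[ℂ] K) (i : ι) (x : K) : rhoN g (inj i x : EllN K ι) = inj i (g x) := by
  apply ext_N
  intro k
  rw [rhoN_apply]
  by_cases h : k = i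
  · subst h
    rw [inj_self, inj_self]
  · rw [inj_ne i k h, inj_ne i k h, map_zero]

theorem rhoN_opM (g : K →L[ℂ] K) (hg : g ∈ G.S) (A : Matrix κ ι (NG G)) : rhoN g ∘L opM A = opM A ∘L rhoN g := by
  apply ext_inj
  intro i x
  apply ext_N
  intro k
  show g ((opM A (inj i x)) k) = (opM A (rhoN g (inj i x))) k
  rw [rhoN_inj, opM_inj, opM_inj]
  exact congrArg (fun z : K →L[ℂ] K => z x) ((mem_NG _).1 (A k i).2 g hg)

/-- the matrix of an operator commuting with right translations -/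
theorem exists_opM (T : EllN K ι →L[ℂ] EllN K κ) (hT : ∀ g ∈ G.S, rhoN g ∘L T = T ∘L rhoN g) :
    ∃ A : Matrix κ ι (NG G), opM A = T := by
  have hmem : ∀ (k : κ) (i : ι), prj k ∘L T ∘L inj i ∈ NG G := by
    intro k i
    rw [mem_NG]
    intro g hg
    ext1 x
    show g ((T (inj i x)) k) = (T (inj i (g x))) k
    rw [← rhoN_inj, ← rhoN_apply]
    have h1 := congrArg (fun z : EllN K ι →L[ℂ] EllN K κ => z (inj i x)) (hT g hg)
    have h2 : rhoN g (T (inj i x)) = T (rhoN g (inj i x)) := h1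
    rw [h2]
  refine ⟨fun k i => ⟨prj k ∘L T ∘L inj i, hmem k i⟩, ?_⟩
  apply ext_inj
  intro i x
  apply ext_N
  intro k
  exact opM_inj (G := G) (fun k i => ⟨prj k ∘L T ∘L inj i, hmem k i⟩) i x k

theorem rhoN_inner (g : K →L[ℂ] K) (x y : EllN K ι) : ⟪rhoN g x, y⟫_ℂ = ⟪x, rhoN (star g) y⟫_ℂ := by
  rw [PiLp.inner_apply, PiLp.inner_apply]
  refine Finset.sum_congr rfl fun k _ => ?_
  rw [rhoN_apply, rhoN_apply, ContinuousLinearMap.star_eq_adjoint,
    ContinuousLinearMap.adjoint_inner_right]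

/-- The orthogonal projection onto an invariant closed subspace is given by a matrix over the commutant. -/
theorem exists_proj (Z : Submodule ℂ (EllN K ι)) [Z.HasOrthogonalProjection]
    (hK : ∀ g ∈ G.S, ∀ x ∈ Z, rhoN g x ∈ Z) :
    ∃ p : Matrix ι ι (NG G), opM p = Z.starProjection ∧ p * p = p ∧ pᴴ = p := by
  have h1 : ∃ p : Matrix ι ι (NG G), opM p = Z.starProjection := by
    apply exists_opM
    intro g hg
    ext1 x
    show rhoN g (Z.starProjection x) = Z.starProjection (rhoN g x)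
    symm
    apply Submodule.eq_starProjection_of_mem_of_inner_eq_zero
    · exact hK g hg _ (Submodule.starProjection_apply_mem Z x)
    · intro w hw
      rw [← map_sub, rhoN_inner]
      exact Submodule.starProjection_inner_eq_zero x _ (hK _ (G.star_mem g hg) w hw)
  obtain ⟨p, hp⟩ := h1
  refine ⟨p, hp, ?_, ?_⟩
  · apply opM_injective
    rw [opM_mul, hp]
    exact (Submodule.isIdempotentElem_starProjection Z)
  · apply opM_injective
    rw [← opM_adjoint, hp]
    exact (isSelfAdjoint_starProjection Z).star_eq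

/-- The kernel of a matrix. -/
noncomputable def kerM (A : Matrix κ ι (NG G)) : Submodule ℂ (EllN K ι) :=
  LinearMap.ker (opM A : EllN K ι →ₗ[ℂ] EllN K κ)

theorem mem_kerM (A : Matrix κ ι (NG G)) (x : EllN K ι) : x ∈ kerM A ↔ opM A x = 0 := Iff.rfl

theorem kerM_hop (A : Matrix κ ι (NG G)) : (kerM A).HasOrthogonalProjection := by
  have h1 : IsClosed ((kerM A : Submodule ℂ (EllN K ι)) : Set (EllN K ι)) :=
    (opM A).isClosed_ker
  have : CompleteSpace (kerM A) := h1.completeSpace_coe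
  infer_instance

attribute [local instance] kerM_hop

theorem kerM_inv (A : Matrix κ ι (NG G)) (g : K →L[ℂ] K) (hg : g ∈ G.S) : ∀ x ∈ kerM A, rhoN g x ∈ kerM A := by
  intro x hx
  rw [mem_kerM] at hx ⊢
  have h1 := congrArg (fun z : EllN K ι →L[ℂ] EllN K κ => z x) (rhoN_opM g hg A)
  have h2 : rhoN g (opM A x) = opM A (rhoN g x) := h1
  rw [← h2, hx, map_zero]

/-- The projection matrix onto the kernel. -/
noncomputable def kp (A : Matrix κ ι (NG G)) : Matrix ι ι (NG G) :=
  (exists_proj (kerM A) (kerM_inv A)).choose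

theorem opM_kp (A : Matrix κ ι (NG G)) : opM (kp A) = (kerM A).starProjection :=
  (exists_proj (kerM A) (kerM_inv A)).choose_spec.1

theorem kp_mul_self (A : Matrix κ ι (NG G)) : kp A * kp A = kp A :=
  (exists_proj (kerM A) (kerM_inv A)).choose_spec.2.1

theorem kp_star (A : Matrix κ ι (NG G)) : (kp A)ᴴ = kp A :=
  (exists_proj (kerM A) (kerM_inv A)).choose_spec.2.2

theorem mul_kp (A : Matrix κ ι (NG G)) : A * kp A = 0 := by
  apply opM_injective
  rw [opM_mul, opM_kp, opM_zero]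
  ext1 x
  exact (mem_kerM A _).1 (Submodule.starProjection_apply_mem _ x)

theorem kp_mul (A : Matrix κ ι (NG G)) (B : Matrix ι μ (NG G)) (h : A * B = 0) : kp A * B = B := by
  apply opM_injective
  rw [opM_mul, opM_kp]
  ext1 x
  show (kerM A).starProjection (opM B x) = opM B x
  rw [Submodule.starProjection_eq_self_iff, mem_kerM]
  have h1 := congrArg (fun z : Matrix κ μ (NG G) => opM z x) h
  have h2 : opM (A * B) x = opM 0 x := h1
  rw [opM_mul, opM_zero] at h2
  exact h2

/-- the trace of a matrix over the commutant -/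
noncomputable def mtr (A : Matrix ι ι (NG G)) : ℂ := ∑ i, tr (A i i)

theorem mtr_add (A B : Matrix ι ι (NG G)) : mtr (A + B) = mtr A + mtr B := by
  unfold mtr
  rw [← Finset.sum_add_distrib]
  exact Finset.sum_congr rfl fun i _ => map_add tr _ _

theorem mtr_sub (A B : Matrix ι ι (NG G)) : mtr (A - B) = mtr A - mtr B := by
  unfold mtr
  rw [← Finset.sum_sub_distrib]
  exact Finset.sum_congr rfl fun i _ => map_sub tr _ _

theorem mtr_smul (c : ℂ) (A : Matrix ι ι (NG G)) : mtr (c • A) = c * mtr A := by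
  unfold mtr
  rw [Finset.mul_sum]
  exact Finset.sum_congr rfl fun i _ => map_smul tr c _

theorem mtr_one : mtr (1 : Matrix ι ι (NG G)) = Fintype.card ι := by
  unfold mtr
  simp [tr_one]

theorem mtr_mul_comm (A : Matrix ι κ (NG G)) (B : Matrix κ ι (NG G)) :
    mtr (A * B) = mtr (B * A) := by
  unfold mtr
  simp only [Matrix.mul_apply, map_sum]
  rw [Finset.sum_comm]
  exact Finset.sum_congr rfl fun k _ => Finset.sum_congr rfl fun i _ => tr_mul_comm _ _

theorem mtr_star_mul_self (A : Matrix κ ι (NG G)) :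
    mtr (Aᴴ * A) = ((∑ i, ∑ k, ‖(A k i : K →L[ℂ] K) G.Ω‖ ^ 2 : ℝ) : ℂ) := by
  unfold mtr
  rw [Complex.ofReal_sum]
  refine Finset.sum_congr rfl fun i _ => ?_
  rw [Matrix.mul_apply, map_sum, Complex.ofReal_sum]
  refine Finset.sum_congr rfl fun k _ => ?_
  rw [Matrix.conjTranspose_apply, tr_star_mul_self]

theorem mtr_faithful (A : Matrix κ ι (NG G)) (h : mtr (Aᴴ * A) = 0) : A = 0 := by
  rw [mtr_star_mul_self] at h
  have h1 : (∑ i, ∑ k, ‖(A k i : K →L[ℂ] K) G.Ω‖ ^ 2 : ℝ) = 0 := by exact_mod_cast h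
  ext1 k i
  have h2 := (Finset.sum_eq_zero_iff_of_nonneg (fun i _ => Finset.sum_nonneg fun k _ => sq_nonneg _)).1
    h1 i (Finset.mem_univ i)
  have h3 := (Finset.sum_eq_zero_iff_of_nonneg (fun k _ => sq_nonneg _)).1 h2 k (Finset.mem_univ k)
  apply tr_faithful
  rw [tr_star_mul_self, h3]
  simp

theorem mtr_eq_inner (A : Matrix ι ι (NG G)) :
    mtr A = ∑ i, ⟪inj i G.Ω, opM A (inj i G.Ω)⟫_ℂ := by
  unfold mtr
  refine Finset.sum_congr rfl fun i _ => ?_
  rw [PiLp.inner_apply, Finset.sum_eq_single i]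
  · rw [inj_self, opM_inj]
    rfl
  · intro b _ hb
    rw [inj_ne i b hb, inner_zero_left]
  · intro h
    exact absurd (Finset.mem_univ i) h

theorem exists_resolvent (S : Matrix ι ι (NG G)) (hS : (opM S).IsPositive) (ε : ℝ) (hε : 0 < ε) :
    ∃ R : Matrix ι ι (NG G), (S + (ε : ℂ) • (1 : Matrix ι ι (NG G))) * R = 1 ∧
      R * (S + (ε : ℂ) • (1 : Matrix ι ι (NG G))) = 1 := by
  obtain ⟨v, hv⟩ := isUnit_add_eps (opM S) hS ε hε
  have h1 : (v : EllN K ι →L[ℂ] EllN K ι) = opM (S + (ε : ℂ) • (1 : Matrix ι ι (NG G))) := by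
    rw [hv, opM_add, opM_smul, opM_one]
  have h2 : ∀ g ∈ G.S, rhoN g ∘L (↑v⁻¹ : EllN K ι →L[ℂ] EllN K ι) =
      (↑v⁻¹ : EllN K ι →L[ℂ] EllN K ι) ∘L rhoN g := by
    intro g hg
    have h3 : Commute (rhoN g) (v : EllN K ι →L[ℂ] EllN K ι) := by
      rw [h1]
      exact rhoN_opM g hg _
    exact h3.units_inv_right
  obtain ⟨R, hR⟩ := exists_opM _ h2
  refine ⟨R, opM_injective ?_, opM_injective ?_⟩
  · rw [opM_mul, hR, opM_one, ← h1]
    exact v.mul_inv
  · rw [opM_mul, hR, opM_one, ← h1]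
    exact v.inv_mul

theorem tendsto_mtr (S : Matrix ι ι (NG G)) (hS : (opM S).IsPositive)
    (R : ℝ → Matrix ι ι (NG G))
    (hR : ∀ ε : ℝ, 0 < ε → (S + (ε : ℂ) • (1 : Matrix ι ι (NG G))) * R ε = 1 ∧
      R ε * (S + (ε : ℂ) • (1 : Matrix ι ι (NG G))) = 1) :
    Tendsto (fun ε : ℝ => mtr ((ε : ℂ) • R ε)) (𝓝[>] 0) (𝓝 (mtr (kp S))) := by
  rw [mtr_eq_inner (kp S)]
  simp only [mtr_eq_inner]
  refine tendsto_finsetSum _ fun i _ => ?_
  have h1 := tendsto_resolvent (opM S) hS (fun ε => opM (R ε)) (fun ε hε => by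
    obtain ⟨h2, h3⟩ := hR ε hε
    constructor
    · have h4 := congrArg opM h2
      rw [opM_mul, opM_add, opM_smul, opM_one] at h4
      exact h4
    · have h4 := congrArg opM h3
      rw [opM_mul, opM_add, opM_smul, opM_one] at h4
      exact h4) (kerM S) rfl (inj i G.Ω)
  have h2 : Tendsto (fun _ : ℝ => (inj i G.Ω : EllN K ι)) (𝓝[>] (0:ℝ)) (𝓝 (inj i G.Ω)) :=
    tendsto_const_nhds
  have h3 := h2.inner (𝕜 := ℂ) h1
  rw [opM_kp]
  refine h3.congr ?_
  intro ε
  rw [opM_smul]
  rfl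

theorem starProj_congr {H : Type*} [NormedAddCommGroup H] [InnerProductSpace ℂ H]
    (Z L : Submodule ℂ H) [Z.HasOrthogonalProjection] [L.HasOrthogonalProjection] (h : Z = L) :
    Z.starProjection = L.starProjection := by
  subst h
  rfl

theorem kp_congr (A : Matrix κ ι (NG G)) (B : Matrix μ ι (NG G)) (h : kerM A = kerM B) :
    kp A = kp B := by
  apply opM_injective
  rw [opM_kp, opM_kp]
  exact starProj_congr _ _ h

theorem opM_star_mul (A : Matrix κ ι (NG G)) :
    opM (Aᴴ * A) = ContinuousLinearMap.adjoint (opM A) ∘L opM A := by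
  rw [opM_mul, opM_adjoint]

theorem isPositive_star_mul (A : Matrix κ ι (NG G)) : (opM (Aᴴ * A)).IsPositive := by
  rw [opM_star_mul]
  exact ContinuousLinearMap.isPositive_adjoint_comp_self _

theorem kp_star_mul (A : Matrix κ ι (NG G)) : kp (Aᴴ * A) = kp A := by
  apply kp_congr
  ext x
  rw [mem_kerM, mem_kerM]
  constructor
  · intro h
    rw [opM_star_mul] at h
    have h1 : ContinuousLinearMap.adjoint (opM A) (opM A x) = 0 := h
    have h2 : ⟪opM A x, opM A x⟫_ℂ = 0 := by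
      rw [← ContinuousLinearMap.adjoint_inner_left, h1, inner_zero_left]
    exact inner_self_eq_zero.1 h2
  · intro h
    rw [opM_mul]
    show opM Aᴴ (opM A x) = 0
    rw [h, map_zero]

theorem mtr_kp (A : Matrix κ ι (NG G)) :
    (Fintype.card ι : ℂ) - mtr (kp A) = (Fintype.card κ : ℂ) - mtr (kp Aᴴ) := by
  classical
  have hS := isPositive_star_mul A
  have hS' : (opM (A * Aᴴ)).IsPositive := by
    have h := isPositive_star_mul Aᴴ
    rwa [Matrix.conjTranspose_conjTranspose] at h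
  choose! R hR using fun ε hε => exists_resolvent (Aᴴ * A) hS ε hε
  choose! R' hR' using fun ε hε => exists_resolvent (A * Aᴴ) hS' ε hε
  have h1 := tendsto_mtr (Aᴴ * A) hS R hR
  have h2 := tendsto_mtr (A * Aᴴ) hS' R' hR'
  rw [kp_star_mul] at h1
  have h3 : kp (A * Aᴴ) = kp Aᴴ := by
    have h := kp_star_mul Aᴴ
    rwa [Matrix.conjTranspose_conjTranspose] at h
  rw [h3] at h2
  have h4 : ∀ ε : ℝ, 0 < ε → (Fintype.card ι : ℂ) - mtr ((ε : ℂ) • R ε) =
      (Fintype.card κ : ℂ) - mtr ((ε : ℂ) • R' ε) := by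
    intro ε hε
    obtain ⟨a1, a2⟩ := hR ε hε
    obtain ⟨b1, b2⟩ := hR' ε hε
    -- A R = R' A
    have h5 : (A * Aᴴ + (ε : ℂ) • (1 : Matrix κ κ (NG G))) * A =
        A * (Aᴴ * A + (ε : ℂ) • (1 : Matrix ι ι (NG G))) := by
      rw [Matrix.add_mul, Matrix.mul_add, Matrix.mul_assoc, Matrix.smul_mul, Matrix.one_mul,
        Matrix.mul_smul, Matrix.mul_one]
    have h6 : A * R ε = R' ε * A := by
      calc A * R ε = (R' ε * (A * Aᴴ + (ε : ℂ) • (1 : Matrix κ κ (NG G)))) * (A * R ε) := by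
            rw [b2, Matrix.one_mul]
        _ = R' ε * ((A * Aᴴ + (ε : ℂ) • (1 : Matrix κ κ (NG G))) * A) * R ε := by
            simp only [Matrix.mul_assoc]
        _ = R' ε * A * ((Aᴴ * A + (ε : ℂ) • (1 : Matrix ι ι (NG G))) * R ε) := by
            rw [h5]
            simp only [Matrix.mul_assoc]
        _ = R' ε * A := by rw [a1, Matrix.mul_one]
    have h7 : (ε : ℂ) • R ε = 1 - R ε * (Aᴴ * A) := by
      rw [eq_sub_iff_add_eq, ← a2, Matrix.mul_add, Matrix.mul_smul, Matrix.mul_one, add_comm]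
    have h8 : (ε : ℂ) • R' ε = 1 - R' ε * (A * Aᴴ) := by
      rw [eq_sub_iff_add_eq, ← b2, Matrix.mul_add, Matrix.mul_smul, Matrix.mul_one, add_comm]
    rw [h7, h8, mtr_sub, mtr_sub, mtr_one, mtr_one, sub_sub_cancel, sub_sub_cancel,
      ← Matrix.mul_assoc, mtr_mul_comm, ← Matrix.mul_assoc, h6, Matrix.mul_assoc]
  have h5 : Tendsto (fun ε : ℝ => (Fintype.card ι : ℂ) - mtr ((ε : ℂ) • R ε)) (𝓝[>] 0)
      (𝓝 ((Fintype.card ι : ℂ) - mtr (kp A))) := h1.const_sub _
  have h6 : Tendsto (fun ε : ℝ => (Fintype.card κ : ℂ) - mtr ((ε : ℂ) • R' ε)) (𝓝[>] 0)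
      (𝓝 ((Fintype.card κ : ℂ) - mtr (kp Aᴴ))) := h2.const_sub _
  refine tendsto_nhds_unique h5 (h6.congr' ?_)
  filter_upwards [self_mem_nhdsWithin] with ε hε
  exact (h4 ε hε).symm

/-- the trace of the kernel projection is a nonnegative real -/
theorem mtr_proj (p : Matrix ι ι (NG G)) (h1 : p * p = p) (h2 : pᴴ = p) :
    mtr p = ((∑ i, ∑ k, ‖(p k i : K →L[ℂ] K) G.Ω‖ ^ 2 : ℝ) : ℂ) := by
  rw [← mtr_star_mul_self, h2, h1]

/-- the real part of the canonical trace -/
noncomputable def tau (G : Dat K) : NG G →+ ℝ where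
  toFun x := (tr x).re
  map_zero' := by rw [map_zero, Complex.zero_re]
  map_add' x y := by rw [map_add, Complex.add_re]

theorem tau_apply (x : NG G) : tau G x = (tr x).re := rfl

theorem Tr_eq {ι : Type} [Fintype ι] [DecidableEq ι] (A : Matrix ι ι (NG G)) :
    Tr (tau G) A = (mtr A).re := by
  unfold Tr mtr
  rw [Complex.re_sum]
  rfl

section inst

variable {ι κ : Type} [Fintype ι] [Fintype κ] [DecidableEq ι] [DecidableEq κ]

theorem isLP_kp (A : Matrix κ ι (NG G)) : IsLP A (1 - kp Aᴴ) where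
  idem := by
    rw [Matrix.mul_sub, Matrix.mul_one, Matrix.sub_mul, Matrix.one_mul, kp_mul_self, sub_self, sub_zero]
  star := by
    rw [Matrix.conjTranspose_sub, Matrix.conjTranspose_one, kp_star]
  mul := by
    have h1 : kp Aᴴ * A = 0 := by
      have h2 := congrArg Matrix.conjTranspose (mul_kp Aᴴ)
      rw [Matrix.conjTranspose_mul, Matrix.conjTranspose_conjTranspose, kp_star,
        Matrix.conjTranspose_zero] at h2
      exact h2
    rw [Matrix.sub_mul, Matrix.one_mul, h1, sub_zero]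
  min := by
    intro x hx
    -- the row `x` as a `1 × κ` matrix
    have h1 : (Matrix.of fun (_ : Unit) k => x k) * A = 0 := by
      ext1 i j
      have h2 := congrFun hx j
      exact h2
    have h2 : Aᴴ * (Matrix.of fun (_ : Unit) k => x k)ᴴ = 0 := by
      rw [← Matrix.conjTranspose_mul, h1, Matrix.conjTranspose_zero]
    have h3 := kp_mul _ _ h2
    have h4 : (Matrix.of fun (_ : Unit) k => x k) * (1 - kp Aᴴ) = 0 := by
      have h5 := congrArg Matrix.conjTranspose h3
      rw [Matrix.conjTranspose_mul, Matrix.conjTranspose_conjTranspose, kp_star] at h5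
      rw [Matrix.mul_sub, Matrix.mul_one, h5, sub_self]
    funext j
    exact congrFun (congrFun h4 ()) j

/-- left supports are unique -/
theorem isLP_unique (A : Matrix κ ι (NG G)) (p q : Matrix κ κ (NG G)) (hp : IsLP A p)
    (hq : IsLP A q) : p = q := by
  have key : ∀ p q : Matrix κ κ (NG G), IsLP A p → IsLP A q → p = p * q := by
    intro p q hp hq
    -- (1 - q) A = 0, so (1 - q) p = 0, so q p = p
    have h1 : (1 - q) * A = 0 := by rw [Matrix.sub_mul, Matrix.one_mul, hq.mul, sub_self]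
    have h2 : (1 - q) * p = 0 := by
      ext1 i j
      have h3 := hp.min ((1 - q) i) (by
        funext k
        exact congrFun (congrFun h1 i) k)
      exact congrFun h3 j
    have h3 : q * p = p := by
      rw [Matrix.sub_mul, Matrix.one_mul, sub_eq_zero] at h2
      exact h2.symm
    have h4 := congrArg Matrix.conjTranspose h3
    rw [Matrix.conjTranspose_mul, hp.star, hq.star] at h4
    exact h4.symm
  have h1 := key p q hp hq
  have h2 := key q p hq hp
  have h3 := congrArg Matrix.conjTranspose h2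
  rw [Matrix.conjTranspose_mul, hp.star, hq.star] at h3
  rw [h1, ← h3]

theorem vn_NG : Pool.Agent.RK.VN (NG G) (tau G) where
  comm x y := by rw [tau_apply, tau_apply, tr_mul_comm]
  one := by rw [tau_apply, tr_one, Complex.one_re]
  nonneg x := by
    rw [tau_apply, tr_star_mul_self, Complex.ofReal_re]
    exact sq_nonneg _
  faithful x h := by
    apply tr_faithful
    rw [tau_apply, tr_star_mul_self, Complex.ofReal_re] at h
    rw [tr_star_mul_self, h, Complex.ofReal_zero]
  lp m n A := ⟨1 - kp Aᴴ, isLP_kp A⟩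
  lp_tr m n A p q hp hq := by
    have h1 := isLP_unique A p _ hp (isLP_kp A)
    have h2 := isLP_unique Aᴴ q _ hq (isLP_kp Aᴴ)
    rw [h1, h2, Tr_eq, Tr_eq, mtr_sub, mtr_sub, mtr_one, mtr_one, Matrix.conjTranspose_conjTranspose,
      mtr_kp A]

end inst

theorem rk_eq_kp {ι κ : Type} [Fintype ι] [Fintype κ] [DecidableEq ι] [DecidableEq κ]
    (A : Matrix ι κ (NG G)) : rk (tau G) A = Fintype.card ι - (mtr (kp Aᴴ)).re := by
  have h1 : ∃ p, IsLP A p := ⟨_, isLP_kp A⟩
  unfold rk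
  rw [dif_pos h1, isLP_unique A _ _ h1.choose_spec (isLP_kp A), Tr_eq, mtr_sub, mtr_one]
  simp

end Pool.Agent.H386Z.VG
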